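import Pool.Agent.H949.PM.Stmts2

/-!
# A Poisson process has few points in infinitely many of the sets `A r`

Paper proof of `S_deficit` from `S_poisTail`. Let `r_j = 2^(3^j)`, `D_(j+1) = A(r_(j+1)) \ A(r_j)`
(pairwise disjoint for `j = 0, 1, …`, finite measure) and `N(B) = cnt z B`.

(1) `N(D_(j+1))` has the law Poisson with mean `l_j = μ(D_(j+1)) ≤ M_j := π r_(j+1)² + C r_(j+1)`.
Let `K = C + 3`. `S_poisTail` gives `p > 0` with
`P(N(D_(j+1)) ≤ M_j - K √M_j) ≥ p` for all large `j`, and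
`M_j - K √M_j ≤ π r_(j+1)² + C r_(j+1) - K r_(j+1) = π r_(j+1)² - 3 r_(j+1)` because `√M_j ≥ r_(j+1)`.
These events are independent over `j` (`IsPPP.indep` for finitely many, hence
`iIndepSet`/`iIndepFun` for the sequence), so by the second Borel-Cantelli lemma
(`ProbabilityTheory.measure_limsup_eq_one`) almost surely infinitely many of them occur.

(2) `E N(A(r_j)) = μ(A(r_j)) ≤ (π + C) r_j²` (mean of a Poisson variable), so
`P(N(A(r_j)) ≥ r_(j+1)) ≤ (π + C) r_j²/r_(j+1) = (π + C)/r_j` (as `r_(j+1) = r_j³`), which is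
summable; by the first Borel-Cantelli lemma (`ae_eventually_notMem`) almost surely
`N(A(r_j)) < r_(j+1)` for all large `j`.

(3) For a `j` with both properties
`N(A(r_(j+1))) + 1 ≤ N(A(r_j)) + N(D_(j+1)) + 1 ≤ r_(j+1) + π r_(j+1)² - 3 r_(j+1) + 1
< π r_(j+1)²`.
-/

set_option autoImplicit false

namespace Pool.Agent.H949.PM

open MeasureTheory ProbabilityTheory Set Filter Topology
open scoped ENNReal NNReal
open Pool.Agent.Helper712_LP

namespace DefAux

/-- the radii `2 ^ 3 ^ j` -/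
def Rj (j : ℕ) : ℕ := 2 ^ 3 ^ j

theorem Rj_succ (j : ℕ) : Rj (j + 1) = Rj j ^ 3 := by
  unfold Rj
  rw [pow_succ 3 j, pow_mul]

theorem Rj_pos (j : ℕ) : 1 ≤ Rj j := Nat.one_le_two_pow

theorem Rj_ge (j : ℕ) : 2 ^ j ≤ Rj j :=
  Nat.pow_le_pow_right (by norm_num) (Nat.lt_pow_self (by norm_num)).le

theorem Rj_mono : Monotone Rj := by
  intro i j h
  exact Nat.pow_le_pow_right (by norm_num) (Nat.pow_le_pow_right (by norm_num) h)

section

variable {Ω Z : Type} [MeasurableSpace Ω] [MeasurableSpace Z] {P : Measure Ω}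
  {μ : Measure Z} {z : ℕ → Ω → Z}

theorem measurable_cnt (h : IsPPP P μ z) {B : Set Z} (hB : MeasurableSet B) :
    Measurable (cnt z B) := by
  unfold cnt
  exact Measurable.ennreal_tsum fun n => (measurable_const.indicator hB).comp (h.measurable n)

/-- the mean of a Poisson variable -/
theorem lintegral_poisson (l : ℝ≥0) : ∫⁻ n, (n : ℝ≥0∞) ∂(poissonMeasure l) = l := by
  rw [lintegral_countable', tsum_eq_zero_add' ENNReal.summable]
  have h1 : ∀ n : ℕ, ((n + 1 : ℕ) : ℝ≥0∞) * poissonMeasure l {n + 1} =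
      l * poissonMeasure l {n} := by
    intro n
    rw [poissonMeasure_singleton, poissonMeasure_singleton]
    have e1 : ((n + 1 : ℕ) : ℝ≥0∞) = ENNReal.ofReal ((n + 1 : ℕ) : ℝ) :=
      (ENNReal.ofReal_natCast _).symm
    have e2 : (l : ℝ≥0∞) = ENNReal.ofReal (l : ℝ) := ENNReal.ofReal_coe_nnreal.symm
    rw [e1, e2, ← ENNReal.ofReal_mul (by positivity), ← ENNReal.ofReal_mul (by positivity)]
    congr 1
    rw [Nat.factorial_succ]
    push_cast
    have h2 : ((n : ℝ) + 1) ≠ 0 := by positivity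
    have h3 : ((n.factorial : ℕ) : ℝ) ≠ 0 := by positivity
    field_simp
    ring
  have h2 : ∑' n : ℕ, poissonMeasure l {n} = 1 := by
    have h3 := lintegral_countable' (μ := poissonMeasure l) (fun _ : ℕ => (1 : ℝ≥0∞))
    rw [lintegral_one, measure_univ] at h3
    rw [h3]
    exact tsum_congr fun n => (one_mul _).symm
  rw [tsum_congr h1, ENNReal.tsum_mul_left, h2]
  simp

theorem lintegral_cnt (h : IsPPP P μ z) {B : Set Z} (hB : MeasurableSet B) (hfin : μ B ≠ ∞) :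
    ∫⁻ ω, cnt z B ω ∂P = μ B := by
  have h1 : ∫⁻ ω, cnt z B ω ∂P = ∫⁻ x, x ∂(P.map (cnt z B)) :=
    (lintegral_map measurable_id (measurable_cnt h hB)).symm
  have h2 : ∫⁻ x, x ∂((poissonMeasure (μ B).toNNReal).map (fun n : ℕ => (n : ℝ≥0∞))) =
      ∫⁻ n, (n : ℝ≥0∞) ∂(poissonMeasure (μ B).toNNReal) :=
    lintegral_map measurable_id (measurable_from_top)
  rw [h1, h.law B hB hfin, h2, lintegral_poisson, ENNReal.coe_toNNReal hfin]

/-- lower bound for the probability of few points -/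
theorem prob_le (h : IsPPP P μ z) {B : Set Z} (hB : MeasurableSet B) (hfin : μ B ≠ ∞) (y y' : ℝ)
    (hy : y ≤ y') : poissonMeasure (μ B).toNNReal {n : ℕ | (n : ℝ) ≤ y} ≤
      P {ω | cnt z B ω ≤ ENNReal.ofReal y'} := by
  have h1 : P {ω | cnt z B ω ≤ ENNReal.ofReal y'} = P.map (cnt z B) (Iic (ENNReal.ofReal y')) := by
    rw [Measure.map_apply (measurable_cnt h hB) measurableSet_Iic]
    rfl
  rw [h1, h.law B hB hfin, Measure.map_apply measurable_from_top measurableSet_Iic]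
  refine measure_mono fun n hn => ?_
  have h2 : (n : ℝ) ≤ y := hn
  show (n : ℝ≥0∞) ≤ ENNReal.ofReal y'
  rw [← ENNReal.ofReal_natCast]
  exact ENNReal.ofReal_le_ofReal (h2.trans hy)

theorem cnt_le (z : ℕ → Ω → Z) (B B' : Set Z) (ω : Ω) :
    cnt z B' ω ≤ cnt z B ω + cnt z (B' \ B) ω := by
  unfold cnt
  rw [← ENNReal.tsum_add]
  refine ENNReal.tsum_le_tsum fun n => ?_
  by_cases h1 : z n ω ∈ B'
  · by_cases h2 : z n ω ∈ B
    · rw [indicator_of_mem h1, indicator_of_mem h2]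
      exact le_self_add
    · rw [indicator_of_mem h1, indicator_of_mem (show z n ω ∈ B' \ B from ⟨h1, h2⟩)]
      exact le_add_self
  · rw [indicator_of_notMem h1]
    exact bot_le

end

end DefAux

open DefAux in
theorem deficit (hp : S_poisTail) : S_deficit := by
  intro Ω Z _ _ P _ μ z hz A hA hmono C hC hμ
  have hfin : ∀ r : ℕ, 1 ≤ r → μ (A r) ≠ ∞ := fun r hr =>
    ne_top_of_le_ne_top ENNReal.ofReal_ne_top (hμ r hr)
  -- the differences
  have hDm : ∀ j, MeasurableSet (A (Rj (j + 1)) \ A (Rj j)) := fun j => (hA _).diff (hA _)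
  have hDfin : ∀ j, μ (A (Rj (j + 1)) \ A (Rj j)) ≠ ∞ := fun j =>
    ne_top_of_le_ne_top (hfin _ (Rj_pos _)) (measure_mono sdiff_subset)
  have hdis : Pairwise (Function.onFun Disjoint fun j => A (Rj (j + 1)) \ A (Rj j)) := by
    have key : ∀ i j, i < j → Disjoint (A (Rj (i + 1)) \ A (Rj i)) (A (Rj (j + 1)) \ A (Rj j)) := by
      intro i j hij
      rw [Set.disjoint_left]
      rintro x ⟨h1, _⟩ ⟨_, h2⟩
      exact h2 (hmono (Rj_mono hij) h1)
    intro i j hij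
    rcases lt_or_gt_of_ne hij with h | h
    · exact key i j h
    · exact (key j i h).symm
  have hind : iIndepFun (fun j => cnt z (A (Rj (j + 1)) \ A (Rj j))) P := by
    rw [iIndepFun_iff_finset]
    intro s
    exact hz.indep s (fun j => A (Rj (j.1 + 1)) \ A (Rj j.1)) (fun j => hDm j.1)
      (fun j => hDfin j.1) (fun i j hij => hdis (fun h => hij (Subtype.ext h)))
  obtain ⟨E, hE⟩ : ∃ E : ℕ → Set Ω, ∀ j, E j = {ω | cnt z (A (Rj (j + 1)) \ A (Rj j)) ω ≤
      ENNReal.ofReal (Real.pi * (Rj (j + 1) : ℝ) ^ 2 - 3 * Rj (j + 1))} := ⟨_, fun _ => rfl⟩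
  have hEm : ∀ j, MeasurableSet (E j) := by
    intro j
    rw [hE]
    exact measurableSet_le (measurable_cnt hz (hDm j)) measurable_const
  have hEi : iIndepSet E P := by
    rw [iIndepSet_iff_meas_biInter hEm]
    intro s
    have h1 := hind.measure_inter_preimage_eq_mul s
      (sets := fun j => Iic (ENNReal.ofReal (Real.pi * (Rj (j + 1) : ℝ) ^ 2 - 3 * Rj (j + 1))))
      (fun j _ => measurableSet_Iic)
    have h2 : ∀ j, E j = cnt z (A (Rj (j + 1)) \ A (Rj j)) ⁻¹'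
        Iic (ENNReal.ofReal (Real.pi * (Rj (j + 1) : ℝ) ^ 2 - 3 * Rj (j + 1))) := fun j => hE j
    simp only [h2]
    exact h1
  -- the probabilities are bounded below
  obtain ⟨p, hp0, M₀, hM₀⟩ := hp (C + 3) (by linarith)
  have hlow : ∀ j : ℕ, ⌈M₀⌉₊ ≤ j → ENNReal.ofReal p ≤ P (E j) := by
    intro j hj
    have hr : (1 : ℝ) ≤ (Rj (j + 1) : ℝ) := by exact_mod_cast Rj_pos (j + 1)
    have hpi : (3 : ℝ) < Real.pi := Real.pi_gt_three
    obtain ⟨r, hrr⟩ : ∃ r : ℝ, r = (Rj (j + 1) : ℝ) := ⟨_, rfl⟩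
    rw [← hrr] at hr
    obtain ⟨M, hM⟩ : ∃ M : ℝ, M = Real.pi * r ^ 2 + C * r := ⟨_, rfl⟩
    have hMr2 : r ^ 2 ≤ M := by
      rw [hM]
      nlinarith [mul_pos hC (by linarith : (0 : ℝ) < r), sq_nonneg r]
    have hM0 : M₀ ≤ M := by
      have h1 : M₀ ≤ j := (Nat.le_ceil M₀).trans (by exact_mod_cast hj)
      have h2 : (j : ℝ) ≤ r := by
        rw [hrr]
        have h3 : j ≤ Rj (j + 1) := by
          have h4 := Rj_ge (j + 1)
          have h5 : j + 1 < 2 ^ (j + 1) := Nat.lt_two_pow_self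
          omega
        exact_mod_cast h3
      nlinarith
    have hl : (((μ (A (Rj (j + 1)) \ A (Rj j))).toNNReal : ℝ≥0) : ℝ) ≤ M := by
      have h1 : μ (A (Rj (j + 1)) \ A (Rj j)) ≤ ENNReal.ofReal M := by
        refine (measure_mono sdiff_subset).trans ((hμ _ (Rj_pos _)).trans (le_of_eq ?_))
        rw [hM, hrr]
      have h2 : (0 : ℝ) ≤ M := (sq_nonneg r).trans hMr2
      exact ENNReal.toReal_le_of_le_ofReal h2 h1
    refine (hM₀ M hM0 _ hl).trans ?_
    rw [hE]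
    refine prob_le hz (hDm j) (hDfin j) _ _ ?_
    rw [← hrr]
    have hs : r ≤ √M := Real.le_sqrt_of_sq_le hMr2
    have h1 : (C + 3) * r ≤ (C + 3) * √M := mul_le_mul_of_nonneg_left hs (by linarith)
    rw [hM] at h1 ⊢
    linarith
  have hsum : ∑' j, P (E j) = ∞ := by
    by_contra hne
    have h1 := ENNReal.tendsto_atTop_zero_of_tsum_ne_top hne
    have h2 : ENNReal.ofReal p ≤ 0 :=
      ge_of_tendsto h1 (eventually_atTop.2 ⟨⌈M₀⌉₊, fun j hj => hlow j hj⟩)
    exact absurd h2 (not_le.2 (ENNReal.ofReal_pos.2 hp0))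
  have hlim : ∀ᵐ ω ∂P, ∃ᶠ j in atTop, ω ∈ E j := by
    have h1 := measure_limsup_eq_one hEm hEi hsum
    have h2 : MeasurableSet (limsup E atTop) := MeasurableSet.measurableSet_limsup hEm
    have h3 : ∀ᵐ ω ∂P, ω ∈ limsup E atTop := (mem_ae_iff_prob_eq_one h2).2 h1
    filter_upwards [h3] with ω hω
    exact mem_limsup_iff_frequently_mem.1 hω
  -- few points in the smaller set
  have hfew : ∀ᵐ ω ∂P, ∀ᶠ j in atTop,
      ω ∉ {ω | ((Rj (j + 1) : ℕ) : ℝ≥0∞) ≤ cnt z (A (Rj j)) ω} := by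
    apply ae_eventually_notMem
    have h1 : ∀ j : ℕ, P {ω | ((Rj (j + 1) : ℕ) : ℝ≥0∞) ≤ cnt z (A (Rj j)) ω} ≤
        ENNReal.ofReal (Real.pi + C) * ENNReal.ofReal ((1 / 2) ^ j) := by
      intro j
      have hr : (1 : ℝ) ≤ (Rj j : ℝ) := by exact_mod_cast Rj_pos j
      have hr1 : (0 : ℝ) < (Rj (j + 1) : ℝ) := by exact_mod_cast Rj_pos (j + 1)
      have h2 := meas_ge_le_lintegral_div (μ := P)
        (measurable_cnt hz (hA (Rj j))).aemeasurable
        (ε := ((Rj (j + 1) : ℕ) : ℝ≥0∞))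
        (by
          have h0 := Rj_pos (j + 1)
          exact Nat.cast_ne_zero.2 (by omega)) (ENNReal.natCast_ne_top _)
      rw [lintegral_cnt hz (hA _) (hfin _ (Rj_pos j))] at h2
      refine h2.trans ?_
      have h3 : μ (A (Rj j)) / ((Rj (j + 1) : ℕ) : ℝ≥0∞) ≤
          ENNReal.ofReal (Real.pi * (Rj j : ℝ) ^ 2 + C * Rj j) / ((Rj (j + 1) : ℕ) : ℝ≥0∞) :=
        ENNReal.div_le_div_right (hμ _ (Rj_pos j)) _
      refine h3.trans ?_
      rw [← ENNReal.ofReal_natCast (Rj (j + 1)), ← ENNReal.ofReal_div_of_pos hr1,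
        ← ENNReal.ofReal_mul (by positivity)]
      apply ENNReal.ofReal_le_ofReal
      rw [Rj_succ]
      push_cast
      have h4 : (2 : ℝ) ^ j ≤ (Rj j : ℝ) := by exact_mod_cast Rj_ge j
      have h5 : (0 : ℝ) < (Rj j : ℝ) := by linarith
      have h6 : (1 / 2 : ℝ) ^ j = 1 / 2 ^ j := by rw [one_div, one_div, inv_pow]
      rw [h6, div_le_iff₀ (by positivity)]
      have h7 : Real.pi * (Rj j : ℝ) ^ 2 + C * Rj j ≤ (Real.pi + C) * (Rj j : ℝ) ^ 2 := by
        have h70 : (Rj j : ℝ) ≤ (Rj j : ℝ) ^ 2 := by nlinarith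
        nlinarith [mul_le_mul_of_nonneg_left h70 hC.le]
      have h8 : (Real.pi + C) * (1 / 2 ^ j) * (Rj j : ℝ) ^ 3 =
          (Real.pi + C) * (Rj j : ℝ) ^ 2 * ((Rj j : ℝ) / 2 ^ j) := by ring
      rw [h8]
      refine h7.trans (le_mul_of_one_le_right (by positivity) ?_)
      rw [le_div_iff₀ (by positivity), one_mul]
      exact h4
    refine ne_top_of_le_ne_top ?_ (ENNReal.tsum_le_tsum h1)
    rw [ENNReal.tsum_mul_left]
    refine ENNReal.mul_ne_top ENNReal.ofReal_ne_top ?_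
    rw [← ENNReal.ofReal_tsum_of_nonneg (fun j => by positivity)
      (summable_geometric_of_lt_one (by norm_num) (by norm_num))]
    exact ENNReal.ofReal_ne_top
  -- conclusion
  filter_upwards [hlim, hfew] with ω h1 h2
  obtain ⟨j, h3, h4⟩ := (h1.and_eventually h2).exists
  refine ⟨Rj (j + 1), Rj_pos _, ?_⟩
  rw [hE] at h3
  have hr : (1 : ℝ) ≤ (Rj (j + 1) : ℝ) := by exact_mod_cast Rj_pos (j + 1)
  have hpi : (3 : ℝ) < Real.pi := Real.pi_gt_three
  have h5 : cnt z (A (Rj j)) ω ≤ ENNReal.ofReal (Rj (j + 1) : ℝ) := by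
    rw [ENNReal.ofReal_natCast]
    exact (not_le.1 h4).le
  have h6 : cnt z (A (Rj (j + 1)) \ A (Rj j)) ω ≤
      ENNReal.ofReal (Real.pi * (Rj (j + 1) : ℝ) ^ 2 - 3 * Rj (j + 1)) := h3
  calc cnt z (A (Rj (j + 1))) ω + 1
      ≤ (cnt z (A (Rj j)) ω + cnt z (A (Rj (j + 1)) \ A (Rj j)) ω) + 1 :=
        add_le_add_left (cnt_le z _ _ ω) 1
    _ ≤ (ENNReal.ofReal (Rj (j + 1) : ℝ) +
          ENNReal.ofReal (Real.pi * (Rj (j + 1) : ℝ) ^ 2 - 3 * Rj (j + 1))) + ENNReal.ofReal 1 := by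
        rw [ENNReal.ofReal_one]
        gcongr
    _ = ENNReal.ofReal (Rj (j + 1) + (Real.pi * (Rj (j + 1) : ℝ) ^ 2 - 3 * Rj (j + 1)) + 1) := by
        rw [← ENNReal.ofReal_add (by positivity) (by nlinarith),
          ← ENNReal.ofReal_add (by nlinarith) (by norm_num)]
    _ < ENNReal.ofReal (Real.pi * (Rj (j + 1) : ℝ) ^ 2) := by
        apply (ENNReal.ofReal_lt_ofReal_iff (by positivity)).2
        linarith

end Pool.Agent.H949.PM
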