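import Mathlib

/-!
# Uniqueness of generating functions of several variables

Paper proof. The functions `x ↦ ∏ i, s i ^ x i` on the countable discrete (Polish) space `ι → ℕ`,
`s ∈ (0,1]^ι`, are bounded and continuous, contain the constant `1` (`s = 1`), are closed under
multiplication (`s, s' ↦ s s'`) and separate the points (take `s i = 1/2` at a coordinate `i` where
the points differ, and `s = 1` elsewhere). Hence their linear span is a (star) subalgebra of the
bounded continuous functions `(ι → ℕ) →ᵇ ℝ` (`Algebra.adjoin_eq_span`; the submonoid closure of a set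
closed under products is the set itself), it separates points, and the integrals of its members
against `μ` and `ν` agree by linearity. Apply
`MeasureTheory.ext_of_forall_mem_subalgebra_integral_eq_of_polish`
(file `Mathlib/MeasureTheory/Measure/FiniteMeasureExt.lean`).
-/

set_option autoImplicit false

namespace Pool.Agent.H949.PM

open MeasureTheory

namespace PgfL

open BoundedContinuousFunction

/-- the bounded continuous function `x ↦ ∏ i, s i ^ x i` -/
noncomputable def mon {ι : Type} [Fintype ι] (s : ι → ℝ) (hs : ∀ i, 0 < s i ∧ s i ≤ 1) :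
    (ι → ℕ) →ᵇ ℝ :=
  BoundedContinuousFunction.ofNormedAddCommGroup (fun x => ∏ i, s i ^ x i)
    (by
      refine continuous_finsetProd _ fun i _ => ?_
      exact (continuous_of_discreteTopology (f := fun n : ℕ => s i ^ n)).comp (continuous_apply i))
    1 (by
      intro x
      rw [Real.norm_eq_abs, abs_of_nonneg (Finset.prod_nonneg fun i _ => pow_nonneg (hs i).1.le _)]
      exact Finset.prod_le_one (fun i _ => pow_nonneg (hs i).1.le _)
        fun i _ => pow_le_one₀ (hs i).1.le (hs i).2)

theorem mon_apply {ι : Type} [Fintype ι] (s : ι → ℝ) (hs : ∀ i, 0 < s i ∧ s i ≤ 1) (x : ι → ℕ) :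
    mon s hs x = ∏ i, s i ^ x i := rfl

/-- the monomials -/
noncomputable def S (ι : Type) [Fintype ι] : Submonoid ((ι → ℕ) →ᵇ ℝ) where
  carrier := {g | ∃ (s : ι → ℝ) (hs : ∀ i, 0 < s i ∧ s i ≤ 1), g = mon s hs}
  one_mem' := by
    refine ⟨fun _ => 1, fun _ => ⟨one_pos, le_rfl⟩, ?_⟩
    ext x
    simp [mon_apply]
  mul_mem' := by
    rintro _ _ ⟨s, hs, rfl⟩ ⟨t, ht, rfl⟩
    refine ⟨fun i => s i * t i, fun i => ⟨mul_pos (hs i).1 (ht i).1,
      mul_le_one₀ (hs i).2 (ht i).1.le (ht i).2⟩, ?_⟩
    ext x
    rw [BoundedContinuousFunction.mul_apply, mon_apply, mon_apply, mon_apply,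
      ← Finset.prod_mul_distrib]
    exact Finset.prod_congr rfl fun i _ => (mul_pow _ _ _).symm

/-- the algebra of the monomials -/
noncomputable def A (ι : Type) [Fintype ι] : StarSubalgebra ℝ ((ι → ℕ) →ᵇ ℝ) :=
  { Algebra.adjoin ℝ (S ι : Set ((ι → ℕ) →ᵇ ℝ)) with
    star_mem' := by
      intro a ha
      have : star a = a := by
        ext x
        simp
      rw [this]
      exact ha }

theorem mem_A {ι : Type} [Fintype ι] (g : (ι → ℕ) →ᵇ ℝ) :
    g ∈ A ι ↔ g ∈ Submodule.span ℝ (S ι : Set ((ι → ℕ) →ᵇ ℝ)) := by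
  have h1 : g ∈ A ι ↔ g ∈ Algebra.adjoin ℝ (S ι : Set ((ι → ℕ) →ᵇ ℝ)) := Iff.rfl
  rw [h1, ← Subalgebra.mem_toSubmodule, Algebra.adjoin_eq_span, Submonoid.closure_eq]

end PgfL

open PgfL in
theorem pgf_ext {ι : Type} [Fintype ι] {μ ν : Measure (ι → ℕ)} [IsProbabilityMeasure μ]
    [IsProbabilityMeasure ν]
    (h : ∀ s : ι → ℝ, (∀ i, 0 < s i ∧ s i ≤ 1) →
      ∫ x, ∏ i, s i ^ x i ∂μ = ∫ x, ∏ i, s i ^ x i ∂ν) : μ = ν := by
  classical
  refine MeasureTheory.ext_of_forall_mem_subalgebra_integral_eq_of_polish (A := A ι) ?_ ?_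
  · intro x y hxy
    obtain ⟨i, hi⟩ := Function.ne_iff.1 hxy
    let s : ι → ℝ := fun j => if j = i then 1 / 2 else 1
    have hs : ∀ j, 0 < s j ∧ s j ≤ 1 := by
      intro j
      simp only [s]
      split_ifs <;> norm_num
    have hmem : mon s hs ∈ A ι := by
      rw [mem_A]
      exact Submodule.subset_span ⟨s, hs, rfl⟩
    refine ⟨fun x => mon s hs x, ⟨(mon s hs).toContinuousMap, ?_, rfl⟩, ?_⟩
    · exact ⟨mon s hs, hmem, rfl⟩
    · have hval : ∀ z : ι → ℕ, mon s hs z = (1 / 2 : ℝ) ^ z i := by
        intro z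
        rw [mon_apply, Finset.prod_eq_single i]
        · simp [s]
        · intro j _ hj
          simp [s, hj]
        · intro h'
          exact absurd (Finset.mem_univ i) h'
      show mon s hs x ≠ mon s hs y
      rw [hval, hval]
      intro heq
      exact hi (pow_right_injective₀ (by norm_num) (by norm_num) heq)
  · intro g hg
    rw [mem_A] at hg
    refine Submodule.span_induction (p := fun g _ => ∫ x, g x ∂μ = ∫ x, g x ∂ν) ?_ ?_ ?_ ?_ hg
    · rintro _ ⟨s, hs, rfl⟩
      exact h s hs
    · simp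
    · intro f g _ _ hf hg
      simp only [BoundedContinuousFunction.add_apply]
      rw [integral_add (f.integrable μ) (g.integrable μ),
        integral_add (f.integrable ν) (g.integrable ν), hf, hg]
    · intro c f _ hf
      simp only [BoundedContinuousFunction.smul_apply]
      rw [integral_smul, integral_smul, hf]

end Pool.Agent.H949.PM

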