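import Pool.Agent.H949.PM.Stmts
import Pool.Agent.H949.PM.Pgf

/-!
# The marking theorem

Paper proof. Let `z i = (x i, Y i)` and `μ = volume.prod W`.

Step 0 (measurability): `cnt z A` is measurable for measurable `A` (as `measurable_count` in
`Pool/Graph/R_pool_sql_team_seeded_620a6dc7/Helper56_LP/Ppp.lean`).

Step 1 (generating functional). Let `A_j` (`j` in a finite type) be pairwise disjoint measurable sets
with `μ (A_j) < ∞` and `c_j ∈ [0,1]`. Apply `Pool.Agent.Helper56_LP.marked : S_marked` with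
`φ = ∑_j c_j 1_(A_j)` (so `φ ≤ 1` by disjointness and `∫ φ dμ = ∑ c_j μ(A_j) < ∞`, written as the
iterated integral; `lintegral_prod`). For a configuration with all `cnt z (A_j) ω` finite,
`inf_m ∏_{i<m} (1 - φ(z_i)) = ∏_j (1 - c_j)^(N_j)`, with `N_j = cnt z (A_j)`: the product has the
factor `1 - c_j` for every `i` with `z_i ∈ A_j` and the factor `1` for the other `i`. (In general the
infimum is at most `(1-c_j)^n` whenever `n ≤ N_j`.) Compare `ppp_simple` and `void` in the library
files `Helper56_LP/Ppp.lean`, `Helper56_LP/Void.lean`, which contain the same computations.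

Step 2 (finiteness). For one set `A` and `c ∈ (0,1]`: on `{N = ∞}` the infimum of the products is
`0`, so `P(N < ∞) ≥ E inf_m ∏ (1 - c 1_A(z_i)) = exp(-c μ(A))`. Let `c → 0`: `N < ∞` almost surely.

Step 3 (law and independence). Hence (with `s_j = 1 - c_j`, for `c_j ∈ [0,1)`) the `ℕ`-valued
variables `n_j = N_j.toReal` floor (or `Nat.floor`, or `ENat`) satisfy
`E ∏_j s_j^(n_j) = ∏_j exp(-μ(A_j)(1-s_j))`, which is the same as for independent Poisson variables
with means `μ(A_j)` (`poisson_pgf` in `Helper56_LP/Ppp.lean` gives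
`∫⁻ (1-c)^n dPoisson(r) = exp(-r c)`; use Fubini/`integral_fintype_prod_eq_prod` for
`Measure.pi`). By `pgf_ext` the law of `(n_j)_j` is the product of the Poisson laws. This gives `law`
(one set) and `indep` (`iIndepFun_iff_map_fun_eq_pi_map` or similar; go from `ℕ` to `ℝ≥0∞` by the
cast and `N_j = n_j` almost surely).
-/

set_option autoImplicit false

namespace Pool.Agent.H949.PM

open MeasureTheory ProbabilityTheory Set Filter Topology
open scoped ENNReal NNReal
open Pool.Agent.Helper712_LP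

namespace MarkingL

section gen

variable {Ω Z : Type} [MeasurableSpace Ω] [MeasurableSpace Z] {P : Measure Ω} {z : ℕ → Ω → Z}
  {μ : Measure Z}

lemma measurable_cnt (hz : ∀ i, Measurable (z i)) {A : Set Z} (hA : MeasurableSet A) :
    Measurable (cnt z A) := by
  unfold cnt
  refine Measurable.tsum fun i => ?_
  exact (measurable_const.indicator hA).comp (hz i)

/-- The generating functional of a Poisson process. -/
def GF (P : Measure Ω) (μ : Measure Z) (z : ℕ → Ω → Z) : Prop :=
  ∀ φ : Z → ℝ≥0∞, Measurable φ → (∀ q, φ q ≤ 1) → ∫⁻ q, φ q ∂μ ≠ ∞ →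
    ∫⁻ ω, ⨅ m : ℕ, ∏ i ∈ Finset.range m, (1 - φ (z i ω)) ∂P =
      ENNReal.ofReal (Real.exp (-(∫⁻ q, φ q ∂μ).toReal))

/-- The `ℕ`-valued count. -/
noncomputable def cntN (z : ℕ → Ω → Z) (A : Set Z) (ω : Ω) : ℕ := ⌊(cnt z A ω).toReal⌋₊

lemma measurable_cntN (hz : ∀ i, Measurable (z i)) {A : Set Z} (hA : MeasurableSet A) :
    Measurable (cntN z A) :=
  Nat.measurable_floor.comp (ENNReal.measurable_toReal.comp (measurable_cnt hz hA))

omit [MeasurableSpace Ω] [MeasurableSpace Z] in
/-- a finite count is the cardinality of a finite set of indices -/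
lemma exists_bound {ι : Type} [Finite ι] {A : ι → Set Z} (ω : Ω)
    (hω : ∀ j, cnt z (A j) ω ≠ ∞) : ∃ m, ∀ j : ι, ∀ i, z i ω ∈ A j → i < m := by
  have hfs : ∀ j : ι, {i | z i ω ∈ A j}.Finite := by
    intro c
    have h1 := ENNReal.finite_const_le_of_tsum_ne_top (hω c) (ε := 1) one_ne_zero
    refine h1.subset fun i hi => ?_
    simp only [Set.mem_ofPred_eq] at hi ⊢
    rw [indicator_of_mem hi]
  have h1 : (⋃ j : ι, {i | z i ω ∈ A j}).Finite := Set.finite_iUnion hfs
  obtain ⟨m, hm⟩ := h1.bddAbove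
  refine ⟨m + 1, fun c i hi => ?_⟩
  have := hm (mem_iUnion.mpr ⟨c, hi⟩)
  omega

omit [MeasurableSpace Ω] [MeasurableSpace Z] in
open Classical in
lemma cnt_eq_card {A : Set Z} (ω : Ω) {m n : ℕ} (hm : ∀ i, z i ω ∈ A → i < m) (hn : m ≤ n) :
    cnt z A ω = (((Finset.range n).filter (fun i => z i ω ∈ A)).card : ℝ≥0∞) := by
  unfold cnt
  rw [tsum_eq_sum (s := Finset.range n)]
  · rw [Finset.card_filter]
    push_cast
    refine Finset.sum_congr rfl fun i _ => ?_
    by_cases hi : z i ω ∈ A
    · rw [indicator_of_mem hi, if_pos hi]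
    · rw [indicator_of_notMem hi, if_neg hi]
  · intro i hi
    rw [indicator_of_notMem]
    intro h1
    exact hi (Finset.mem_range.mpr ((hm i h1).trans_le hn))

omit [MeasurableSpace Ω] [MeasurableSpace Z] in
open Classical in
lemma cntN_eq_card {A : Set Z} (ω : Ω) {m n : ℕ} (hm : ∀ i, z i ω ∈ A → i < m) (hn : m ≤ n) :
    cntN z A ω = ((Finset.range n).filter (fun i => z i ω ∈ A)).card := by
  unfold cntN
  rw [cnt_eq_card ω hm hn, ENNReal.toReal_natCast, Nat.floor_natCast]

omit [MeasurableSpace Ω] [MeasurableSpace Z] in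
lemma cnt_eq_cntN {A : Set Z} (ω : Ω) (hω : cnt z A ω ≠ ∞) : cnt z A ω = (cntN z A ω : ℝ≥0∞) := by
  obtain ⟨m, hm⟩ := exists_bound (ι := Unit) (A := fun _ => A) ω (fun _ => hω)
  rw [cnt_eq_card ω (hm ()) le_rfl, cntN_eq_card ω (hm ()) le_rfl]

omit [MeasurableSpace Ω] [MeasurableSpace Z] in
/-- The infimum of the products for a configuration with finite counts. -/
lemma inf_prod {ι : Type} [Fintype ι] {A : ι → Set Z} (hd : Pairwise (Function.onFun Disjoint A))
    (s : ι → ℝ≥0∞) (hs : ∀ j, s j ≤ 1) (ω : Ω) (hω : ∀ j, cnt z (A j) ω ≠ ∞) :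
    ⨅ m : ℕ, ∏ i ∈ Finset.range m, (1 - ∑ j, (A j).indicator (fun _ => 1 - s j) (z i ω)) =
      ∏ j, s j ^ cntN z (A j) ω := by
  classical
  obtain ⟨m, hm⟩ := exists_bound ω hω
  have hpt : ∀ i, (1 - ∑ j, (A j).indicator (fun _ => 1 - s j) (z i ω)) =
      ∏ j, (if z i ω ∈ A j then s j else 1) := by
    intro i
    by_cases h : ∃ j, z i ω ∈ A j
    · obtain ⟨j0, hj0⟩ := h
      have hne : ∀ j, j ≠ j0 → z i ω ∉ A j := by
        intro j hj hmem
        exact Set.disjoint_left.mp (hd hj) hmem hj0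
      rw [Finset.sum_eq_single j0, Finset.prod_eq_single j0, indicator_of_mem hj0, if_pos hj0,
        ENNReal.sub_sub_cancel ENNReal.one_ne_top (hs j0)]
      · intro j _ hj
        rw [if_neg (hne j hj)]
      · intro h1
        exact absurd (Finset.mem_univ _) h1
      · intro j _ hj
        rw [indicator_of_notMem (hne j hj)]
      · intro h1
        exact absurd (Finset.mem_univ _) h1
    · push Not at h
      rw [Finset.sum_eq_zero (fun j _ => indicator_of_notMem (h j) _),
        Finset.prod_eq_one (fun j _ => if_neg (h j)), tsub_zero]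
  have hprod : ∀ n : ℕ, m ≤ n →
      ∏ i ∈ Finset.range n, (1 - ∑ j, (A j).indicator (fun _ => 1 - s j) (z i ω)) =
        ∏ j, s j ^ cntN z (A j) ω := by
    intro n hn
    rw [Finset.prod_congr rfl (fun i _ => hpt i), Finset.prod_comm]
    refine Finset.prod_congr rfl fun j _ => ?_
    rw [cntN_eq_card ω (hm j) hn, Finset.prod_ite, Finset.prod_const, Finset.prod_const_one,
      mul_one]
  apply le_antisymm
  · exact (iInf_le _ m).trans (hprod m le_rfl).le
  · refine le_iInf fun n => ?_
    rcases le_total m n with h | h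
    · exact (hprod n h).ge
    · rw [← hprod m le_rfl]
      exact Helper56_LP.prod_antitone
        (fun i => ∑ j, (A j).indicator (fun _ => 1 - s j) (z i ω)) h

omit [MeasurableSpace Ω] [MeasurableSpace Z] in
/-- The infimum of the products for a configuration with an infinite count. -/
lemma inf_prod_zero {A : Set Z} {c : ℝ≥0∞} (hc : c ≠ 0) (ω : Ω) (hω : cnt z A ω = ∞) :
    ⨅ m : ℕ, ∏ i ∈ Finset.range m, (1 - A.indicator (fun _ => c) (z i ω)) = 0 := by
  classical
  have hprod : ∀ m : ℕ, ∏ i ∈ Finset.range m, (1 - A.indicator (fun _ => c) (z i ω)) =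
      (1 - c) ^ ((Finset.range m).filter (fun i => z i ω ∈ A)).card := by
    intro m
    rw [Finset.prod_congr rfl (g := fun i => if z i ω ∈ A then 1 - c else 1)]
    · rw [Finset.prod_ite, Finset.prod_const, Finset.prod_const_one, mul_one]
    · intro i _
      by_cases hi : z i ω ∈ A
      · rw [indicator_of_mem hi, if_pos hi]
      · rw [indicator_of_notMem hi, if_neg hi, tsub_zero]
  have hk : ∀ n : ℕ, ∃ m : ℕ, n ≤ ((Finset.range m).filter (fun i => z i ω ∈ A)).card := by
    intro n
    unfold cnt at hω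
    rw [ENNReal.tsum_eq_iSup_nat] at hω
    have h1 : (n : ℝ≥0∞) < ⨆ m : ℕ, ∑ i ∈ Finset.range m,
        A.indicator (fun _ => (1 : ℝ≥0∞)) (z i ω) := by
      rw [hω]
      exact ENNReal.natCast_lt_top n
    obtain ⟨m, hm⟩ := lt_iSup_iff.mp h1
    refine ⟨m, ?_⟩
    have h2 : ∑ i ∈ Finset.range m, A.indicator (fun _ => (1 : ℝ≥0∞)) (z i ω) =
        (((Finset.range m).filter (fun i => z i ω ∈ A)).card : ℝ≥0∞) := by
      rw [Finset.card_filter]
      push_cast
      refine Finset.sum_congr rfl fun i _ => ?_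
      by_cases hi : z i ω ∈ A
      · rw [indicator_of_mem hi, if_pos hi]
      · rw [indicator_of_notMem hi, if_neg hi]
    rw [h2] at hm
    exact_mod_cast hm.le
  have hlt : 1 - c < 1 := ENNReal.sub_lt_self ENNReal.one_ne_top one_ne_zero hc
  have htend := ENNReal.tendsto_pow_atTop_nhds_zero_of_lt_one hlt
  refine le_antisymm ?_ zero_le
  refine ge_of_tendsto' htend fun n => ?_
  obtain ⟨m, hm⟩ := hk n
  refine (iInf_le _ m).trans ?_
  rw [hprod m]
  exact pow_le_pow_right_of_le_one' hlt.le hm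

/-- The counts of sets of finite measure are finite. -/
lemma ae_finite [IsProbabilityMeasure P] (hz : ∀ i, Measurable (z i)) (hG : GF P μ z) {A : Set Z}
    (hA : MeasurableSet A) (hμ : μ A ≠ ∞) : ∀ᵐ ω ∂P, cnt z A ω ≠ ∞ := by
  have hmeas : MeasurableSet {ω | cnt z A ω ≠ ∞} :=
    (measurable_cnt hz hA) (measurableSet_singleton ∞).compl
  have key : ∀ k : ℕ, ENNReal.ofReal (Real.exp (-(1 / ((k : ℝ) + 1) * (μ A).toReal))) ≤
      P {ω | cnt z A ω ≠ ∞} := by
    intro k
    have hk0 : (0 : ℝ) < 1 / ((k : ℝ) + 1) := by positivity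
    have hk1 : 1 / ((k : ℝ) + 1) ≤ 1 := by
      rw [div_le_one (by positivity)]
      linarith [Nat.cast_nonneg (α := ℝ) k]
    have hc1 : ENNReal.ofReal (1 / ((k : ℝ) + 1)) ≤ 1 := by
      rw [← ENNReal.ofReal_one]
      exact ENNReal.ofReal_le_ofReal hk1
    have hint : ∫⁻ q, A.indicator (fun _ => ENNReal.ofReal (1 / ((k : ℝ) + 1))) q ∂μ =
        ENNReal.ofReal (1 / ((k : ℝ) + 1)) * μ A := by
      rw [lintegral_indicator hA, lintegral_const, Measure.restrict_apply_univ]
    have h1 := hG (A.indicator fun _ => ENNReal.ofReal (1 / ((k : ℝ) + 1)))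
      (measurable_const.indicator hA) (fun q => ?_) ?_
    · rw [hint, ENNReal.toReal_mul, ENNReal.toReal_ofReal hk0.le] at h1
      rw [← h1]
      calc ∫⁻ ω, ⨅ m : ℕ, ∏ i ∈ Finset.range m,
            (1 - A.indicator (fun _ => ENNReal.ofReal (1 / ((k : ℝ) + 1))) (z i ω)) ∂P
          ≤ ∫⁻ ω, {ω | cnt z A ω ≠ ∞}.indicator (fun _ => 1) ω ∂P := by
            refine lintegral_mono fun ω => ?_
            by_cases hω : cnt z A ω = ∞
            · rw [inf_prod_zero (ENNReal.ofReal_pos.mpr hk0).ne' ω hω]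
              exact zero_le
            · rw [indicator_of_mem (show ω ∈ {ω | cnt z A ω ≠ ∞} from hω)]
              exact (iInf_le _ 0).trans (by simp)
        _ = P {ω | cnt z A ω ≠ ∞} := by
            rw [lintegral_indicator hmeas]
            simp
    · by_cases hq : q ∈ A
      · rw [indicator_of_mem hq]
        exact hc1
      · rw [indicator_of_notMem hq]
        exact zero_le
    · rw [hint]
      exact ENNReal.mul_ne_top ENNReal.ofReal_ne_top hμ
  have hlim : Tendsto (fun k : ℕ => ENNReal.ofReal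
      (Real.exp (-(1 / ((k : ℝ) + 1) * (μ A).toReal)))) atTop (𝓝 1) := by
    have h0 : Tendsto (fun k : ℕ => (1 : ℝ) / ((k : ℝ) + 1)) atTop (𝓝 0) :=
      tendsto_one_div_add_atTop_nhds_zero_nat
    have h1 := ENNReal.tendsto_ofReal ((Real.continuous_exp.tendsto _).comp
      (h0.mul_const (μ A).toReal).neg)
    simpa using h1
  have h2 : 1 ≤ P {ω | cnt z A ω ≠ ∞} := le_of_tendsto' hlim key
  have h3 : P {ω | cnt z A ω ≠ ∞} = 1 := le_antisymm prob_le_one h2
  exact (mem_ae_iff_prob_eq_one hmeas).mpr h3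

/-- The joint generating function of the counts. -/
lemma gen_fun [IsProbabilityMeasure P] (hz : ∀ i, Measurable (z i)) (hG : GF P μ z) {ι : Type}
    [Fintype ι] {A : ι → Set Z} (hA : ∀ j, MeasurableSet (A j)) (hμ : ∀ j, μ (A j) ≠ ∞)
    (hd : Pairwise (Function.onFun Disjoint A)) (s : ι → ℝ≥0∞) (hs : ∀ j, s j ≤ 1) :
    ∫⁻ ω, ∏ j, s j ^ cntN z (A j) ω ∂P =
      ∏ j, ∫⁻ n : ℕ, s j ^ n ∂(poissonMeasure (μ (A j)).toNNReal) := by
  classical
  have hfin : ∀ᵐ ω ∂P, ∀ j, cnt z (A j) ω ≠ ∞ :=
    ae_all_iff.mpr fun j => ae_finite hz hG (hA j) (hμ j)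
  have hc1 : ∀ j, 1 - s j ≤ 1 := fun j => tsub_le_self
  have hct : ∀ j, 1 - s j ≠ ∞ := fun j => ne_top_of_le_ne_top ENNReal.one_ne_top (hc1 j)
  have hm : Measurable fun q => ∑ j, (A j).indicator (fun _ => 1 - s j) q :=
    Finset.measurable_fun_sum _ fun j _ => measurable_const.indicator (hA j)
  have hle : ∀ q, ∑ j, (A j).indicator (fun _ => 1 - s j) q ≤ 1 := by
    intro q
    by_cases h : ∃ j, q ∈ A j
    · obtain ⟨j0, hj0⟩ := h
      rw [Finset.sum_eq_single j0, indicator_of_mem hj0]
      · exact hc1 j0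
      · intro j _ hj
        exact indicator_of_notMem (fun hmem => Set.disjoint_left.mp (hd hj) hmem hj0) _
      · intro h1
        exact absurd (Finset.mem_univ _) h1
    · push Not at h
      rw [Finset.sum_eq_zero (fun j _ => indicator_of_notMem (h j) _)]
      exact zero_le
  have hint : ∫⁻ q, ∑ j, (A j).indicator (fun _ => 1 - s j) q ∂μ =
      ∑ j, (1 - s j) * μ (A j) := by
    rw [lintegral_finsetSum _ fun j _ => measurable_const.indicator (hA j)]
    refine Finset.sum_congr rfl fun j _ => ?_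
    rw [lintegral_indicator (hA j), lintegral_const, Measure.restrict_apply_univ]
  have hne : ∀ j, (1 - s j) * μ (A j) ≠ ∞ := fun j => ENNReal.mul_ne_top (hct j) (hμ j)
  have h1 := hG _ hm hle (by
    rw [hint]
    exact ENNReal.sum_ne_top.mpr fun j _ => hne j)
  rw [hint, ENNReal.toReal_sum fun j _ => hne j] at h1
  calc ∫⁻ ω, ∏ j, s j ^ cntN z (A j) ω ∂P
      = ∫⁻ ω, ⨅ m : ℕ, ∏ i ∈ Finset.range m,
          (1 - ∑ j, (A j).indicator (fun _ => 1 - s j) (z i ω)) ∂P := by
        refine lintegral_congr_ae ?_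
        filter_upwards [hfin] with ω hω
        rw [inf_prod hd s hs ω hω]
    _ = ENNReal.ofReal (Real.exp (-∑ j, ((1 - s j) * μ (A j)).toReal)) := h1
    _ = ∏ j, ENNReal.ofReal (Real.exp (-((μ (A j)).toNNReal * (1 - s j).toReal))) := by
        rw [← ENNReal.ofReal_prod_of_nonneg (fun _ _ => (Real.exp_pos _).le), ← Real.exp_sum]
        congr 2
        rw [Finset.sum_neg_distrib]
        congr 1
        refine Finset.sum_congr rfl fun j _ => ?_
        rw [ENNReal.toReal_mul, ENNReal.coe_toNNReal_eq_toReal]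
        ring
    _ = _ := by
        refine Finset.prod_congr rfl fun j _ => ?_
        rw [← Helper56_LP.poisson_pgf _ _ (hc1 j),
          ENNReal.sub_sub_cancel ENNReal.one_ne_top (hs j)]

/-- conversion of the generating functions -/
lemma integral_eq {ι : Type} [Fintype ι] (ν : Measure (ι → ℕ)) (s : ι → ℝ) (hs : ∀ i, 0 < s i) :
    ∫ x, ∏ i, s i ^ x i ∂ν = (∫⁻ x, ∏ i, ENNReal.ofReal (s i) ^ x i ∂ν).toReal := by
  have hm : Measurable fun x : ι → ℕ => ∏ i, s i ^ x i := by
    refine Finset.measurable_fun_prod _ fun i _ => ?_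
    exact (measurable_of_countable fun n : ℕ => s i ^ n).comp (measurable_pi_apply i)
  rw [integral_eq_lintegral_of_nonneg_ae]
  · congr 1
    refine lintegral_congr fun x => ?_
    rw [ENNReal.ofReal_prod_of_nonneg fun i _ => (pow_pos (hs i) _).le]
    exact Finset.prod_congr rfl fun i _ => ENNReal.ofReal_pow (hs i).le _
  · exact Eventually.of_forall fun x => Finset.prod_nonneg fun i _ => (pow_pos (hs i) _).le
  · exact hm.aestronglyMeasurable

/-- The joint law of the counts. -/
lemma joint_law [IsProbabilityMeasure P] (hz : ∀ i, Measurable (z i)) (hG : GF P μ z) {ι : Type}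
    [Fintype ι] {A : ι → Set Z} (hA : ∀ j, MeasurableSet (A j)) (hμ : ∀ j, μ (A j) ≠ ∞)
    (hd : Pairwise (Function.onFun Disjoint A)) :
    P.map (fun ω j => cntN z (A j) ω) =
      Measure.pi fun j => poissonMeasure (μ (A j)).toNNReal := by
  have hN : Measurable fun ω j => cntN z (A j) ω :=
    measurable_pi_iff.mpr fun j => measurable_cntN hz (hA j)
  have : IsProbabilityMeasure (P.map fun ω j => cntN z (A j) ω) :=
    Measure.isProbabilityMeasure_map hN.aemeasurable
  apply pgf_ext
  intro s hs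
  rw [integral_eq _ s fun i => (hs i).1, integral_eq _ s fun i => (hs i).1]
  congr 1
  have hpow : ∀ j, Measurable fun n : ℕ => ENNReal.ofReal (s j) ^ n := fun j =>
    measurable_of_countable _
  have hm : Measurable fun x : ι → ℕ => ∏ i, ENNReal.ofReal (s i) ^ x i :=
    Finset.measurable_fun_prod _ fun i _ => (hpow i).comp (measurable_pi_apply i)
  rw [lintegral_map hm hN, gen_fun hz hG hA hμ hd (fun j => ENNReal.ofReal (s j))
    (fun j => by
      rw [← ENNReal.ofReal_one]
      exact ENNReal.ofReal_le_ofReal (hs j).2)]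
  have hind : iIndepFun (fun (j : ι) (x : ι → ℕ) => ENNReal.ofReal (s j) ^ x j)
      (Measure.pi fun j => poissonMeasure (μ (A j)).toNNReal) :=
    iIndepFun_pi (X := fun j (n : ℕ) => ENNReal.ofReal (s j) ^ n)
      fun j => (hpow j).aemeasurable
  rw [lintegral_prod_eq_prod_lintegral_of_indepFun Finset.univ _ hind
    fun j => (hpow j).comp (measurable_pi_apply j)]
  refine Finset.prod_congr rfl fun j _ => ?_
  have h1 := lintegral_map (μ := Measure.pi fun j => poissonMeasure (μ (A j)).toNNReal)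
    (hpow j) (measurable_pi_apply j)
  rw [(measurePreserving_eval _ j).map_eq] at h1
  exact h1

/-- The law of one count. -/
lemma one_law [IsProbabilityMeasure P] (hz : ∀ i, Measurable (z i)) (hG : GF P μ z)
    {A : Set Z} (hA : MeasurableSet A) (hμ : μ A ≠ ∞) :
    P.map (cntN z A) = poissonMeasure (μ A).toNNReal := by
  have h1 := joint_law (P := P) (μ := μ) hz hG (ι := Unit) (A := fun _ => A) (fun _ => hA)
    (fun _ => hμ) (fun i j hij => absurd (Subsingleton.elim i j) hij)
  have hN : Measurable fun ω (_ : Unit) => cntN z A ω :=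
    measurable_pi_iff.mpr fun _ => measurable_cntN hz hA
  have h2 := congrArg (fun ν : Measure (Unit → ℕ) => ν.map fun x => x ()) h1
  rw [Measure.map_map (measurable_pi_apply ()) hN] at h2
  exact h2.trans (measurePreserving_eval (fun _ : Unit => poissonMeasure (μ A).toNNReal) ()).map_eq

/-- A process with the generating functional of a Poisson process is a Poisson process. -/
theorem isPPP [IsProbabilityMeasure P] (hz : ∀ i, Measurable (z i)) (hG : GF P μ z) :
    IsPPP P μ z := by
  refine ⟨hz, ?_, ?_⟩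
  · intro A hA hμ
    have hae : cnt z A =ᵐ[P] fun ω => ((cntN z A ω : ℕ) : ℝ≥0∞) := by
      filter_upwards [ae_finite hz hG hA hμ] with ω hω
      exact cnt_eq_cntN ω hω
    rw [Measure.map_congr hae, ← one_law hz hG hA hμ,
      Measure.map_map (measurable_of_countable _) (measurable_cntN hz hA)]
    rfl
  · intro ι _ A hA hμ hd
    have := Fintype.ofFinite ι
    have h1 : iIndepFun (fun i => cntN z (A i)) P := by
      rw [iIndepFun_iff_map_fun_eq_pi_map fun i => (measurable_cntN hz (hA i)).aemeasurable,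
        joint_law hz hG hA hμ hd]
      congr 1
      funext j
      exact (one_law hz hG (hA j) (hμ j)).symm
    have h2 := h1.comp (fun _ (n : ℕ) => (n : ℝ≥0∞)) fun _ => measurable_of_countable _
    refine h2.congr fun i => ?_
    filter_upwards [ae_finite hz hG (hA i) (hμ i)] with ω hω
    exact (cnt_eq_cntN ω hω).symm

end gen

end MarkingL

theorem marking : S_marking := by
  intro d Ω _ P _ x hx M _ Y W _ hY hYW hYi hxY
  refine MarkingL.isPPP (fun i => (hx.measurable i).prodMk (hY i)) ?_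
  intro φ hφ hφ1 hφi
  have h1 := lintegral_prod (μ := (volume : Measure (E d))) (ν := W) φ hφ.aemeasurable
  rw [h1] at hφi ⊢
  have h2 := Helper56_LP.marked d Ω P 1 x hx M Y W hY hYW hYi hxY φ hφ hφ1 hφi
  rw [h2]
  simp

end Pool.Agent.H949.PM
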