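import Pool.Agent.H949.PM.Stmts2

/-!
# The mean area of the neighbourhood of a planar Brownian path

Paper proof of `S_wiener` from `S_bmax`. Let `W = P.map (fun ω t => Z 0 t ω)`, `T` fixed, and for a path
`w` let `M(w) = sup_{q ∈ ℚ, q ≤ T} ‖w q‖` in `[0,∞]` (a countable supremum of measurable functions).

(a) `visits T r` is measurable, and for fixed `w` the section `{x | ∃ q ≤ T, ‖x + w q‖ ≤ r + 1}` is
contained in the closed ball of radius `r + 1 + M(w)`, whose area is `π (r + 1 + M(w))²`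
(`EuclideanSpace.volume_closedBall_fin_two`). So by Tonelli (`Measure.prod_apply_symm`) the measure of
`visits T r` is at most `∫ π (r + 1 + M)² dW ≤ π r² + r (4π + 2π E M) + ... ≤ π r² + C r` for `r ≥ 1`,
with `C = π (2 + 1 + 2 E M + 2 E M + E M²)` or any such constant, as soon as `E M² < ∞` (then also
`E M ≤ 1 + E M² < ∞`).

(b) `E M² < ∞`: `‖w q‖ ≤ |w q 0| + |w q 1|`, so `M ≤ M_0 + M_1` with the suprema `M_j` of the
coordinates. `S_bmax` gives `P(M_j ≥ 2y) ≤ 6T²/y⁴` if `y² ≥ 2T`, `y > 0` (note: `M_j > 2y` implies that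
some rational `q ≤ T` has `2y ≤ |B_q|`). Hence
`E M_j² ≤ ∑_{n ≥ 0} (n+1)² P(M_j ≥ n) ≤ C + ∑_n (n+1)² 96 T²/n⁴ < ∞`
(split the space according to the integer part of `M_j`; `M_j < ∞` almost surely by letting
`y → ∞`); or use the layer cake formula. The coordinates `Z 0 t ω j` are Brownian motions
(`MobileNodes.brownian`), and the law of `M_j` under `W` is the law of the supremum under `P`
(`lintegral_map`).
-/

set_option autoImplicit false

namespace Pool.Agent.H949.PM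

open MeasureTheory ProbabilityTheory Set Filter Topology
open scoped ENNReal NNReal
open Pool.Agent.Helper712_LP

theorem measurableSet_visits (T r : ℕ) : MeasurableSet (visits T r) := by
  have h : visits T r = ⋃ q : ℚ≥0, ({_p : E 2 × (ℝ≥0 → E 2) | (q : ℝ≥0) ≤ T} ∩
      {p | ‖p.1 + p.2 q‖ ≤ r + 1}) := by
    ext p
    rw [mem_iUnion]
    rfl
  rw [h]
  refine MeasurableSet.iUnion fun q => (MeasurableSet.const _).inter ?_
  refine measurableSet_le (Measurable.norm ?_) measurable_const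
  exact measurable_fst.add ((measurable_pi_apply (q : ℝ≥0)).comp measurable_snd)

/-- the paths whose coordinate `j` reaches the level `n` at a rational time up to `T` -/
def hit (T : ℕ) (j : Fin 2) (n : ℕ) : Set (ℝ≥0 → E 2) :=
  {w | ∃ q : ℚ≥0, (q : ℝ≥0) ≤ T ∧ (n : ℝ) ≤ |w q j|}

theorem measurableSet_hit (T : ℕ) (j : Fin 2) (n : ℕ) : MeasurableSet (hit T j n) := by
  have h : hit T j n = ⋃ q : ℚ≥0, ({_w : ℝ≥0 → E 2 | (q : ℝ≥0) ≤ T} ∩
      {w | (n : ℝ) ≤ |w q j|}) := by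
    ext p
    rw [mem_iUnion]
    rfl
  rw [h]
  refine MeasurableSet.iUnion fun q => (MeasurableSet.const _).inter ?_
  refine measurableSet_le measurable_const ?_
  have h1 : Measurable (fun x : E 2 => |x j|) := by
    have h2 : Continuous (fun x : E 2 => x j) := by fun_prop
    exact h2.abs.measurable
  exact h1.comp (measurable_pi_apply (q : ℝ≥0))

/-- a bound of the square of the supremum of a coordinate -/
noncomputable def sumHit (T : ℕ) (j : Fin 2) (w : ℝ≥0 → E 2) : ℝ≥0∞ :=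
  ∑' n : ℕ, ((2 * n + 1 : ℕ) : ℝ≥0∞) * (hit T j n).indicator 1 w

theorem measurable_sumHit (T : ℕ) (j : Fin 2) : Measurable (sumHit T j) := by
  unfold sumHit
  refine Measurable.ennreal_tsum fun n => ?_
  exact (measurable_one.indicator (measurableSet_hit T j n)).const_mul _

theorem sq_le_sumHit (T : ℕ) (j : Fin 2) (w : ℝ≥0 → E 2) (q : ℚ≥0) (hq : (q : ℝ≥0) ≤ T) :
    ENNReal.ofReal ((w q j) ^ 2) ≤ sumHit T j w := by
  set N := ⌊|w q j|⌋₊ with hN
  have h1 : ∀ n ∈ Finset.range (N + 1), ((2 * n + 1 : ℕ) : ℝ≥0∞) * (hit T j n).indicator 1 w =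
      ((2 * n + 1 : ℕ) : ℝ≥0∞) := by
    intro n hn
    have h2 : w ∈ hit T j n := by
      refine ⟨q, hq, ?_⟩
      have h3 : n ≤ N := Nat.lt_succ_iff.1 (Finset.mem_range.1 hn)
      have h4 : (n : ℝ) ≤ N := by exact_mod_cast h3
      exact h4.trans (Nat.floor_le (abs_nonneg _))
    rw [indicator_of_mem h2, Pi.one_apply, mul_one]
  have h2 : ∑ n ∈ Finset.range (N + 1), (2 * n + 1) = (N + 1) ^ 2 := by
    clear h1
    induction N + 1 with
    | zero => rfl
    | succ m ih =>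
      rw [Finset.sum_range_succ, ih]
      ring
  have h3 : (((N + 1) ^ 2 : ℕ) : ℝ≥0∞) ≤ sumHit T j w := by
    rw [← h2, Nat.cast_sum, ← Finset.sum_congr rfl h1]
    exact ENNReal.sum_le_tsum _
  refine le_trans ?_ h3
  rw [← ENNReal.ofReal_natCast]
  apply ENNReal.ofReal_le_ofReal
  have h4 : |w q j| ≤ N + 1 := (Nat.lt_floor_add_one _).le
  rw [← sq_abs]
  push_cast
  exact pow_le_pow_left₀ (abs_nonneg _) h4 2

theorem section_bound (T r : ℕ) (w : ℝ≥0 → E 2) :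
    (volume : Measure (E 2)) ((fun x => (x, w)) ⁻¹' visits T r) ≤
      ENNReal.ofReal (Real.pi * (((r : ℝ) + 1) ^ 2 + (r + 1))) +
        ENNReal.ofReal (Real.pi * ((r : ℝ) + 2)) * (sumHit T 0 w + sumHit T 1 w) := by
  by_cases hF : sumHit T 0 w + sumHit T 1 w = ∞
  · rw [hF, ENNReal.mul_top, add_top]
    · exact le_top
    · rw [Ne, ENNReal.ofReal_eq_zero, not_le]
      positivity
  · set s := √((sumHit T 0 w + sumHit T 1 w).toReal) with hs
    have hs0 : 0 ≤ s := Real.sqrt_nonneg _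
    have hs2 : s ^ 2 = (sumHit T 0 w + sumHit T 1 w).toReal := Real.sq_sqrt ENNReal.toReal_nonneg
    have hsub : (fun x => (x, w)) ⁻¹' visits T r ⊆ Metric.closedBall (0 : E 2) (r + 1 + s) := by
      rintro x ⟨q, hq, hx⟩
      have hx' : ‖x + w q‖ ≤ r + 1 := hx
      have h1 : ENNReal.ofReal (‖w q‖ ^ 2) ≤ sumHit T 0 w + sumHit T 1 w := by
        rw [EuclideanSpace.real_norm_sq_eq, Fin.sum_univ_two, ENNReal.ofReal_add (sq_nonneg _)
          (sq_nonneg _)]
        exact add_le_add (sq_le_sumHit T 0 w q hq) (sq_le_sumHit T 1 w q hq)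
      have h2 : ‖w q‖ ^ 2 ≤ s ^ 2 := by
        rw [hs2]
        exact (ENNReal.ofReal_le_iff_le_toReal hF).1 h1
      have h3 : ‖w q‖ ≤ s := by
        exact (sq_le_sq₀ (norm_nonneg _) hs0).1 h2
      rw [mem_closedBall_zero_iff]
      calc ‖x‖ = ‖x + w q - w q‖ := by rw [add_sub_cancel_right]
        _ ≤ ‖x + w q‖ + ‖w q‖ := norm_sub_le _ _
        _ ≤ r + 1 + s := add_le_add hx' h3
    refine (measure_mono hsub).trans ?_
    rw [EuclideanSpace.volume_closedBall_fin_two, ← ENNReal.ofReal_pow (by positivity),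
      ← ENNReal.ofReal_mul (by positivity)]
    have h1 : sumHit T 0 w + sumHit T 1 w = ENNReal.ofReal (s ^ 2) := by
      rw [hs2, ENNReal.ofReal_toReal hF]
    rw [h1, ← ENNReal.ofReal_mul (by positivity), ← ENNReal.ofReal_add (by positivity)
      (by positivity)]
    apply ENNReal.ofReal_le_ofReal
    have hpi := Real.pi_pos
    have h2 : ((r : ℝ) + 1 + s) ^ 2 ≤ ((r : ℝ) + 1) ^ 2 + (r + 1) + (r + 2) * s ^ 2 := by
      have hr : (0 : ℝ) ≤ r := Nat.cast_nonneg r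
      nlinarith [mul_nonneg (by linarith : (0 : ℝ) ≤ r + 1) (sq_nonneg (s - 1))]
    calc ((r : ℝ) + 1 + s) ^ 2 * Real.pi
        ≤ (((r : ℝ) + 1) ^ 2 + (r + 1) + (r + 2) * s ^ 2) * Real.pi :=
          mul_le_mul_of_nonneg_right h2 hpi.le
      _ = _ := by ring

theorem tail_bound (T : ℕ) : ∃ K : ℝ, 0 < K ∧ ∀ (n : ℕ) (p : ℝ≥0∞), p ≤ 1 →
    (0 < n → 2 * ((T : ℝ≥0) : ℝ) ≤ ((n : ℝ) / 2) ^ 2 →
      p ≤ ENNReal.ofReal (6 * ((T : ℝ≥0) : ℝ) ^ 2 / ((n : ℝ) / 2) ^ 4)) →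
    ((2 * n + 1 : ℕ) : ℝ≥0∞) * p ≤ ENNReal.ofReal (K * (1 / ((n + 1 : ℕ) : ℝ) ^ 2)) := by
  set n0 : ℝ := 8 * (T : ℝ) + 1 with hn0
  have hT : (0 : ℝ) ≤ T := Nat.cast_nonneg T
  refine ⟨(2 * n0 + 1) * (n0 + 1) ^ 2 + 1152 * (T : ℝ) ^ 2, by positivity, ?_⟩
  intro n p hp1 hp
  have hn : (0 : ℝ) ≤ n := Nat.cast_nonneg n
  rcases le_or_gt (n : ℝ) n0 with h | h
  · calc ((2 * n + 1 : ℕ) : ℝ≥0∞) * p ≤ ((2 * n + 1 : ℕ) : ℝ≥0∞) * 1 := by gcongr
      _ = ENNReal.ofReal ((2 * n + 1 : ℕ) : ℝ) := by rw [mul_one, ENNReal.ofReal_natCast]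
      _ ≤ _ := by
        apply ENNReal.ofReal_le_ofReal
        rw [mul_one_div, le_div_iff₀ (by positivity)]
        push_cast
        have h1 : (2 * (n : ℝ) + 1) * (n + 1) ^ 2 ≤ (2 * n0 + 1) * (n0 + 1) ^ 2 := by gcongr
        have h2 : 0 ≤ 1152 * (T : ℝ) ^ 2 := by positivity
        linarith
  · have hn1 : (1 : ℝ) ≤ n := by linarith
    have hn2 : 0 < n := by exact_mod_cast (lt_of_lt_of_le one_pos hn1)
    have h1 : 2 * ((T : ℝ≥0) : ℝ) ≤ ((n : ℝ) / 2) ^ 2 := by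
      simp only [NNReal.coe_natCast]
      nlinarith
    calc ((2 * n + 1 : ℕ) : ℝ≥0∞) * p
        ≤ ENNReal.ofReal ((2 * n + 1 : ℕ) : ℝ) *
          ENNReal.ofReal (6 * ((T : ℝ≥0) : ℝ) ^ 2 / ((n : ℝ) / 2) ^ 4) := by
          rw [ENNReal.ofReal_natCast]
          gcongr
          exact hp hn2 h1
      _ = ENNReal.ofReal (((2 * n + 1 : ℕ) : ℝ) *
          (6 * ((T : ℝ≥0) : ℝ) ^ 2 / ((n : ℝ) / 2) ^ 4)) := by
          rw [ENNReal.ofReal_mul (by positivity)]
      _ ≤ _ := by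
        apply ENNReal.ofReal_le_ofReal
        simp only [NNReal.coe_natCast]
        have e1 : ((2 * n + 1 : ℕ) : ℝ) * (6 * (T : ℝ) ^ 2 / ((n : ℝ) / 2) ^ 4) =
            ((2 * (n : ℝ) + 1) * 96 * (T : ℝ) ^ 2) / (n : ℝ) ^ 4 := by
          push_cast
          field_simp
          ring
        rw [e1, mul_one_div, div_le_div_iff₀ (by positivity) (by positivity)]
        push_cast
        have h2 : (2 * (n : ℝ) + 1) ≤ 3 * n := by linarith
        have h3 : ((n : ℝ) + 1) ^ 2 ≤ 4 * (n : ℝ) ^ 2 := by nlinarith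
        have h4 : (n : ℝ) ^ 3 ≤ (n : ℝ) ^ 4 := pow_le_pow_right₀ hn1 (by norm_num)
        calc (2 * (n : ℝ) + 1) * 96 * (T : ℝ) ^ 2 * ((n : ℝ) + 1) ^ 2
            ≤ (3 * n) * 96 * (T : ℝ) ^ 2 * (4 * (n : ℝ) ^ 2) := by gcongr
          _ = 1152 * (T : ℝ) ^ 2 * (n : ℝ) ^ 3 := by ring
          _ ≤ 1152 * (T : ℝ) ^ 2 * (n : ℝ) ^ 4 := by gcongr
          _ ≤ ((2 * n0 + 1) * (n0 + 1) ^ 2 + 1152 * (T : ℝ) ^ 2) * (n : ℝ) ^ 4 := by
            gcongr
            have : 0 ≤ (2 * n0 + 1) * (n0 + 1) ^ 2 := by positivity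
            linarith

theorem lintegral_sumHit_lt (T : ℕ) (j : Fin 2) (W : Measure (ℝ≥0 → E 2)) [IsProbabilityMeasure W]
    (hW : ∀ y : ℝ, 0 < y → 2 * ((T : ℝ≥0) : ℝ) ≤ y ^ 2 →
      W {w | ∃ q : ℚ≥0, (q : ℝ≥0) ≤ T ∧ 2 * y ≤ |w q j|} ≤
        ENNReal.ofReal (6 * ((T : ℝ≥0) : ℝ) ^ 2 / y ^ 4)) :
    ∫⁻ w, sumHit T j w ∂W ≠ ∞ := by
  obtain ⟨K, hK, hb⟩ := tail_bound T
  unfold sumHit
  rw [lintegral_tsum fun n =>
    ((measurable_one.indicator (measurableSet_hit T j n)).const_mul _).aemeasurable]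
  have h1 : ∀ n : ℕ, ∫⁻ w, ((2 * n + 1 : ℕ) : ℝ≥0∞) * (hit T j n).indicator 1 w ∂W ≤
      ENNReal.ofReal (K * (1 / ((n + 1 : ℕ) : ℝ) ^ 2)) := by
    intro n
    rw [lintegral_const_mul _ (measurable_one.indicator (measurableSet_hit T j n)),
      lintegral_indicator_one (measurableSet_hit T j n)]
    apply hb n _ prob_le_one
    intro hn hT
    have h2 := hW ((n : ℝ) / 2) (by positivity) hT
    rw [mul_div_cancel₀ (n : ℝ) two_ne_zero] at h2
    exact h2
  have hs : Summable (fun n : ℕ => K * (1 / ((n + 1 : ℕ) : ℝ) ^ 2)) :=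
    ((summable_nat_add_iff 1).2 (Real.summable_one_div_nat_pow.2 one_lt_two)).mul_left K
  refine ne_top_of_le_ne_top ?_ (ENNReal.tsum_le_tsum h1)
  exact hs.tsum_ofReal_ne_top

theorem wiener (hb : S_bmax) : S_wiener := by
  intro Ω _ P _ X Z hM T
  have hZ : Measurable (fun ω (t : ℝ≥0) => Z 0 t ω) := measurable_pi_iff.2 fun t => hM.measurable 0 t
  set W := P.map (fun ω (t : ℝ≥0) => Z 0 t ω) with hW
  haveI : IsProbabilityMeasure W := Measure.isProbabilityMeasure_map hZ.aemeasurable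
  have hfin : ∀ j : Fin 2, ∫⁻ w, sumHit T j w ∂W ≠ ∞ := by
    intro j
    apply lintegral_sumHit_lt
    intro y hy hy2
    have h1 := hb Ω P (fun t ω => Z 0 t ω j) (fun t => by
      have h2 : Continuous (fun x : E 2 => x j) := by fun_prop
      exact h2.measurable.comp (hM.measurable 0 t)) (hM.brownian 0 j).toIsPreBrownianReal
      (T : ℝ≥0) y hy hy2
    have h3 : MeasurableSet {w : ℝ≥0 → E 2 | ∃ q : ℚ≥0, (q : ℝ≥0) ≤ T ∧ 2 * y ≤ |w q j|} := by
      have h4 : {w : ℝ≥0 → E 2 | ∃ q : ℚ≥0, (q : ℝ≥0) ≤ T ∧ 2 * y ≤ |w q j|} =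
          ⋃ q : ℚ≥0, ({_w : ℝ≥0 → E 2 | (q : ℝ≥0) ≤ T} ∩ {w | 2 * y ≤ |w q j|}) := by
        ext p
        rw [mem_iUnion]
        rfl
      rw [h4]
      refine MeasurableSet.iUnion fun q => (MeasurableSet.const _).inter ?_
      refine measurableSet_le measurable_const ?_
      have h1 : Measurable (fun x : E 2 => |x j|) := by
        have h2 : Continuous (fun x : E 2 => x j) := by fun_prop
        exact h2.abs.measurable
      exact h1.comp (measurable_pi_apply (q : ℝ≥0))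
    rw [hW, Measure.map_apply hZ h3]
    exact h1
  set e0 := ∫⁻ w, (sumHit T 0 w + sumHit T 1 w) ∂W with he0
  have he : e0 ≠ ∞ := by
    rw [he0, lintegral_add_left (measurable_sumHit T 0)]
    exact ENNReal.add_ne_top.2 ⟨hfin 0, hfin 1⟩
  set e := e0.toReal with hee
  have hepos : 0 ≤ e := ENNReal.toReal_nonneg
  have hpi := Real.pi_pos
  refine ⟨Real.pi * (5 + 3 * e), by positivity, ?_⟩
  intro r hr
  have hr1 : (1 : ℝ) ≤ r := by exact_mod_cast hr
  have hm : Measurable (fun w : ℝ≥0 → E 2 => sumHit T 0 w + sumHit T 1 w) :=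
    (measurable_sumHit T 0).add (measurable_sumHit T 1)
  rw [Measure.prod_apply_symm (measurableSet_visits T r)]
  refine (lintegral_mono fun w => section_bound T r w).trans ?_
  rw [lintegral_add_left measurable_const, lintegral_const, measure_univ, mul_one,
    lintegral_const_mul _ hm, ← he0,
    ← ENNReal.ofReal_toReal he, ← ENNReal.ofReal_mul (by positivity),
    ← ENNReal.ofReal_add (by positivity) (by positivity)]
  apply ENNReal.ofReal_le_ofReal
  rw [← hee]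
  have h1 : ((r : ℝ) + 1) ^ 2 + (r + 1) + (r + 2) * e ≤ r ^ 2 + (5 + 3 * e) * r := by
    nlinarith [mul_nonneg hepos (by linarith : (0 : ℝ) ≤ r - 1)]
  calc Real.pi * (((r : ℝ) + 1) ^ 2 + (r + 1)) + Real.pi * ((r : ℝ) + 2) * e
      = Real.pi * (((r : ℝ) + 1) ^ 2 + (r + 1) + (r + 2) * e) := by ring
    _ ≤ Real.pi * (r ^ 2 + (5 + 3 * e) * r) := mul_le_mul_of_nonneg_left h1 hpi.le
    _ = _ := by ring

end Pool.Agent.H949.PM
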