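import Pool.Agent.H949.PM.Bound
import Pool.Agent.H949.PM.Marking
import Pool.Agent.H949.PM.BMax
import Pool.Agent.H949.PM.Wiener
import Pool.Agent.H949.PM.Deficit
import Pool.Graph.R_pool_sql_team_seeded_620a6dc7.Helper56_LP.Paths
import Pool.Graph.R_pool_sql_team_seeded_620a6dc7.Helper712_LP.Contract

/-!
# The critical Brownian Pool model does not explode
-/

set_option autoImplicit false

namespace Pool.Agent.H949.PM

open MeasureTheory ProbabilityTheory Set Filter Topology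
open scoped ENNReal NNReal
open Pool.Agent.Helper712_LP Pool.Agent.Helper56_LP

lemma visits_mono (T : ℕ) : Monotone (visits T) := by
  rintro r r' hr p ⟨q, hq, h⟩
  refine ⟨q, hq, h.trans ?_⟩
  have : (r : ℝ) ≤ r' := by exact_mod_cast hr
  linarith

lemma cnt_eq_encard {Ω Z : Type} (z : ℕ → Ω → Z) (A : Set Z) (ω : Ω) :
    cnt z A ω = (({i | z i ω ∈ A} : Set ℕ).encard : ℝ≥0∞) := by
  rw [← ENNReal.tsum_set_one, tsum_subtype {i | z i ω ∈ A} (fun _ => (1 : ℝ≥0∞)), cnt]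
  rfl

/-- A rational time at which a continuous path is close to its value at time `s`. -/
lemma exists_rat {f : ℝ≥0 → ℝ} (hf : Continuous f) {N : ℕ} {s : ℝ≥0} (hs : s ≤ N) {c : ℝ}
    (h : f s < c) : ∃ q : ℚ≥0, (q : ℝ≥0) ≤ N ∧ f q < c := by
  rcases eq_or_lt_of_le hs with h1 | h1
  · exact ⟨N, by simp, by simpa [← h1] using h⟩
  · have h2 : ∀ᶠ t in 𝓝 s, f t < c := hf.continuousAt.eventually (gt_mem_nhds h)
    have h3 : ∀ᶠ t in 𝓝[>] s, f t < c := h2.filter_mono nhdsWithin_le_nhds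
    obtain ⟨u, hu, hus⟩ := (mem_nhdsGT_iff_exists_Ioo_subset' h1).1 h3
    have h4 : s < min u N := lt_min hu h1
    obtain ⟨q, hq1, hq2⟩ := exists_rat_btwn (show (s : ℝ) < (min u N : ℝ≥0) by exact_mod_cast h4)
    have hq0 : 0 ≤ q := by
      have : (0 : ℝ) < q := lt_of_le_of_lt s.coe_nonneg hq1
      exact_mod_cast this.le
    lift q to ℚ≥0 using hq0
    have hcast : (((q : ℚ≥0) : ℝ≥0) : ℝ) = ((q : ℚ) : ℝ) := by
      have h5 : ((q : ℝ≥0) : ℝ) = (q : ℝ) := rfl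
      rw [h5]
      norm_cast
    have hq1' : s < ((q : ℚ≥0) : ℝ≥0) := by
      rw [← NNReal.coe_lt_coe, hcast]; exact hq1
    have hq2' : ((q : ℚ≥0) : ℝ≥0) < min u N := by
      rw [← NNReal.coe_lt_coe, hcast]; exact hq2
    exact ⟨q, (hq2'.trans_le (min_le_right _ _)).le, hus ⟨hq1', hq2'.trans_le (min_le_left _ _)⟩⟩

open DefAux in
theorem brown (hp : S_poisTail) (Ω : Type) [MeasurableSpace Ω] (P : Measure Ω)
    [IsProbabilityMeasure P] (X : ℕ → Ω → E 2) (Z : ℕ → ℝ≥0 → Ω → E 2) (hN : MobileNodes P 1 X Z) :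
    ∀ᵐ ω ∂P, ∀ t : ℝ≥0, poolRadius (fun i s => ‖X i ω + Z i s ω‖) t ≠ ∞ := by
  have hM := hN.motions
  set Y : ℕ → Ω → (ℝ≥0 → E 2) := fun i ω t => Z i t ω with hY
  have hYm : ∀ i, Measurable (Y i) := fun i => measurable_pi_iff.2 fun t => hN.measurable i t
  set W : Measure (ℝ≥0 → E 2) := P.map (Y 0) with hW
  have : IsProbabilityMeasure W := Measure.isProbabilityMeasure_map (hYm 0).aemeasurable
  have hYW : ∀ i, P.map (Y i) = W := fun i => pathLaw 2 Ω Ω P P Z Z hM hM i 0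
  have hYi : iIndepFun Y P := pathIndep 2 Ω P Z hM
  have hPPP : IsPPP P ((volume : Measure (E 2)).prod W) (fun i ω => (X i ω, Y i ω)) :=
    marking 2 Ω P X hN.points _ Y W hYm hYW hYi hN.indep_points
  set μ := (volume : Measure (E 2)).prod W with hμ
  have hw : ∀ T : ℕ, ∃ C : ℝ, 0 < C ∧ ∀ r : ℕ, 1 ≤ r →
      μ (visits T r) ≤ ENNReal.ofReal (Real.pi * r ^ 2 + C * r) := wiener bmax Ω P X Z hN
  have hdef : ∀ᵐ ω ∂P, ∀ T : ℕ, ∃ r : ℕ, 1 ≤ r ∧
      cnt (fun i ω => (X i ω, Y i ω)) (visits T r) ω + 1 < ENNReal.ofReal (Real.pi * r ^ 2) := by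
    rw [ae_all_iff]
    intro T
    obtain ⟨C, hC, h⟩ := hw T
    exact deficit hp Ω _ P μ _ hPPP (visits T) (measurableSet_visits T) (visits_mono T) C hC h
  have hfin : ∀ᵐ ω ∂P, ∀ (T r : ℕ), cnt (fun i ω => (X i ω, Y i ω)) (visits T (r + 1)) ω ≠ ∞ := by
    rw [ae_all_iff]
    intro T
    rw [ae_all_iff]
    intro r
    obtain ⟨C, hC, h⟩ := hw T
    have h1 : μ (visits T (r + 1)) ≠ ∞ :=
      ne_top_of_le_ne_top ENNReal.ofReal_ne_top (h (r + 1) (by omega))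
    have h2 := lintegral_cnt hPPP (measurableSet_visits T (r + 1)) h1
    have h3 := ae_lt_top (measurable_cnt hPPP (measurableSet_visits T (r + 1))) (by rw [h2]; exact h1)
    filter_upwards [h3] with ω hω using hω.ne
  have hcont : ∀ᵐ ω ∂P, ∀ (i : ℕ) (j : Fin 2), Continuous (fun t => Z i t ω j) := by
    rw [ae_all_iff]
    intro i
    rw [ae_all_iff]
    intro j
    exact (hN.brownian i j).cont
  filter_upwards [hdef, hfin, hcont] with ω h1 h2 h3
  have hZc : ∀ i, Continuous (fun t => Z i t ω) := by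
    intro i
    have h4 : Continuous (fun t => (WithLp.ofLp (Z i t ω) : Fin 2 → ℝ)) := continuous_pi (h3 i)
    exact (PiLp.continuous_toLp 2 (fun _ : Fin 2 => ℝ)).comp h4
  have hρc : ∀ i, Continuous (fun t => ‖X i ω + Z i t ω‖) := fun i =>
    (continuous_const.add (hZc i)).norm
  have hsub : ∀ (T : ℝ≥0) (N : ℕ), T ≤ N → ∀ (r : ℝ) (R : ℕ), r ≤ R →
      {i | ∃ s ≤ T, ‖X i ω + Z i s ω‖ ≤ r} ⊆ {i | (X i ω, Y i ω) ∈ visits N R} := by
    rintro T N hT r R hr i ⟨s, hs, h⟩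
    obtain ⟨q, hq, h5⟩ := exists_rat (hρc i) (hs.trans hT) (c := (R : ℝ) + 1) (by linarith)
    exact ⟨q, by exact_mod_cast hq, h5.le⟩
  have hlf : ∀ (T : ℝ≥0) (r : ℝ), {i | ∃ s ≤ T, ‖X i ω + Z i s ω‖ ≤ r}.Finite := by
    intro T r
    obtain ⟨N, hN'⟩ := exists_nat_ge T
    obtain ⟨R, hR⟩ := exists_nat_ge r
    refine Set.Finite.subset ?_ (hsub T N hN' r (R + 1) (by push_cast; linarith))
    have h4 := h2 N R
    rw [cnt_eq_encard] at h4
    rw [← encard_ne_top_iff]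
    intro h5
    rw [h5] at h4
    exact h4 (by simp)
  intro t
  obtain ⟨N, hN'⟩ := exists_nat_ge t
  obtain ⟨r, hr1, hr⟩ := h1 N
  rw [cnt_eq_encard] at hr
  have h5 := bound (fun i s => ‖X i ω + Z i s ω‖) hρc hlf t r (by positivity) (by
    refine lt_of_le_of_lt ?_ hr
    have h6 := ENat.toENNReal_le.2 (encard_le_encard (hsub t N hN' r r le_rfl))
    gcongr) t le_rfl
  exact ne_top_of_le_ne_top ENNReal.ofReal_ne_top h5

end Pool.Agent.H949.PM
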