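import Pool.Agent.H949.PM.Stmts

/-!
# The Brownian Pool model (MP_2ce40c_pr): statements of the independent parts
-/

set_option autoImplicit false

namespace Pool.Agent.H949.PM

open MeasureTheory ProbabilityTheory Set Filter Topology
open scoped ENNReal NNReal
open Pool.Agent.Helper712_LP

/-- Lower tail of Poisson variables, any number of standard deviations. -/
def S_poisTail : Prop := ∀ K : ℝ, 0 ≤ K → ∃ p : ℝ, 0 < p ∧ ∃ M₀ : ℝ, ∀ M : ℝ, M₀ ≤ M →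
  ∀ l : ℝ≥0, (l : ℝ) ≤ M → ENNReal.ofReal p ≤ poissonMeasure l {n : ℕ | (n : ℝ) ≤ M - K * √M}

/-- Tail of the maximum of a Brownian motion. -/
def S_bmax : Prop := ∀ (Ω : Type) [MeasurableSpace Ω] (P : Measure Ω) [IsProbabilityMeasure P]
  (B : ℝ≥0 → Ω → ℝ), (∀ t, Measurable (B t)) → IsPreBrownianReal B P → ∀ (T : ℝ≥0) (y : ℝ), 0 < y →
  2 * (T : ℝ) ≤ y ^ 2 →
  P {ω | ∃ q : ℚ≥0, (q : ℝ≥0) ≤ T ∧ 2 * y ≤ |B q ω|} ≤ ENNReal.ofReal (6 * T ^ 2 / y ^ 4)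

/-- The starting points `x` and the paths `w` such that `x + w` comes within distance `r + 1` of the
origin at a rational time up to `T`. -/
def visits (T r : ℕ) : Set (E 2 × (ℝ≥0 → E 2)) :=
  {p | ∃ q : ℚ≥0, (q : ℝ≥0) ≤ T ∧ ‖p.1 + p.2 q‖ ≤ r + 1}

/-- The mean area of the neighbourhood of a planar Brownian path. -/
def S_wiener : Prop := ∀ (Ω : Type) [MeasurableSpace Ω] (P : Measure Ω)
  [IsProbabilityMeasure P] (X : ℕ → Ω → E 2) (Z : ℕ → ℝ≥0 → Ω → E 2), MobileNodes P 1 X Z →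
  ∀ T : ℕ, ∃ C : ℝ, 0 < C ∧ ∀ r : ℕ, 1 ≤ r →
    ((volume : Measure (E 2)).prod (P.map (fun ω (t : ℝ≥0) => Z 0 t ω))) (visits T r) ≤
      ENNReal.ofReal (Real.pi * r ^ 2 + C * r)

/-- If the mean numbers of points in the increasing sets `A r` are at most `π r² + C r` then almost
surely there is `r` such that the number of points in `A r` is smaller than `π r² - 1`. -/
def S_deficit : Prop := ∀ (Ω Z : Type) [MeasurableSpace Ω] [MeasurableSpace Z] (P : Measure Ω)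
  [IsProbabilityMeasure P] (μ : Measure Z) (z : ℕ → Ω → Z), IsPPP P μ z →
  ∀ (A : ℕ → Set Z), (∀ r, MeasurableSet (A r)) → Monotone A →
  ∀ C : ℝ, 0 < C → (∀ r : ℕ, 1 ≤ r → μ (A r) ≤ ENNReal.ofReal (Real.pi * r ^ 2 + C * r)) →
  ∀ᵐ ω ∂P, ∃ r : ℕ, 1 ≤ r ∧ cnt z (A r) ω + 1 < ENNReal.ofReal (Real.pi * r ^ 2)

/-- The deterministic part: if the number of particles which come within distance `r` of the origin
up to time `T` is smaller than `π r² - 1` then the radius is at most `r` up to time `T`. -/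
def S_bound : Prop := ∀ (ρ : ℕ → ℝ≥0 → ℝ), (∀ i, Continuous (ρ i)) →
  (∀ (T : ℝ≥0) (r : ℝ), {i | ∃ s ≤ T, ρ i s ≤ r}.Finite) →
  ∀ (T : ℝ≥0) (r : ℝ), 0 ≤ r →
  (({i | ∃ s ≤ T, ρ i s ≤ r} : Set ℕ).encard : ℝ≥0∞) + 1 < ENNReal.ofReal (Real.pi * r ^ 2) →
  ∀ t ≤ T, poolRadius ρ t ≤ ENNReal.ofReal r

end Pool.Agent.H949.PM
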