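import Pool.Agent.H949.PM.Det
import Pool.Agent.H949.PM.Stmts2

/-!
# The Pool model: a bound for the radius

The deterministic part: if fewer than `π r² - 1` particles come within distance `r` of the origin up
to time `T` then the radius is at most `r` up to time `T`.
-/

set_option autoImplicit false

namespace Pool.Agent.H949.PM

open MeasureTheory ProbabilityTheory Set Filter Topology
open scoped ENNReal NNReal
open Pool.Agent.Helper712_LP

lemma pi_sq_lt {x y : ℝ≥0∞}
    (h : ENNReal.ofReal Real.pi * x ^ 2 < ENNReal.ofReal Real.pi * y ^ 2) : x < y := by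
  by_contra hn
  exact absurd h (not_lt.2 (by gcongr; exact not_lt.1 hn))

section cascade

variable {S : Set ℕ} {ρ : ℕ → ℝ} {r0 r : ℝ≥0∞}

lemma radii_lt (h : ENNReal.ofReal Real.pi * r0 ^ 2 + ((inDisc S ρ r).encard : ℝ≥0∞) <
    ENNReal.ofReal Real.pi * r ^ 2) (j : ℕ) : (radii S ρ r0 j).1 < r := by
  induction j with
  | zero =>
    apply pi_sq_lt
    have h1 : (radii S ρ r0 0).1 = r0 := by simp [radii]
    rw [h1]
    exact lt_of_le_of_lt le_self_add h
  | succ j ih =>
    apply pi_sq_lt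
    rw [area_eq]
    have h1 : (radii S ρ r0 (j + 1)).2 = inDisc S ρ (radii S ρ r0 j).1 := by rw [radii]
    rw [h1]
    refine lt_of_le_of_lt ?_ h
    have h2 : (inDisc S ρ (radii S ρ r0 j).1).encard ≤ (inDisc S ρ r).encard :=
      encard_le_encard (inDisc_mono S ρ ih.le)
    have h3 := ENat.toENNReal_le.2 h2
    gcongr

lemma cascade_lt (h : ENNReal.ofReal Real.pi * r0 ^ 2 + ((inDisc S ρ r).encard : ℝ≥0∞) <
    ENNReal.ofReal Real.pi * r ^ 2) (hfin : (inDisc S ρ r).Finite) : cascade S ρ r0 < r := by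
  classical
  have hex : ∃ j, xi S ρ r0 j = 0 := by
    by_contra hn
    push Not at hn
    have h1 : ∀ j : ℕ, (j : ℕ∞) ≤ (radii S ρ r0 j).2.encard := by
      intro j
      induction j with
      | zero => simp
      | succ j ih =>
        have h1 : (radii S ρ r0 (j + 1)).2 = inDisc S ρ (radii S ρ r0 j).1 := by rw [radii]
        rw [h1, ← encard_sdiff_add_encard_of_subset (inner_sub S ρ r0 j)]
        have h2 : (1 : ℕ∞) ≤ (inDisc S ρ (radii S ρ r0 j).1 \ (radii S ρ r0 j).2).encard :=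
          Order.one_le_iff_ne_zero.2 (hn j)
        push_cast
        rw [add_comm]
        gcongr
    have h2 : ∀ j : ℕ, (radii S ρ r0 j).2.encard ≤ (inDisc S ρ r).encard := fun j =>
      encard_le_encard ((inner_sub S ρ r0 j).trans (inDisc_mono S ρ (radii_lt h j).le))
    have h3 : (inDisc S ρ r).encard ≠ ⊤ := encard_ne_top_iff.2 hfin
    obtain ⟨n, hn'⟩ := ENat.ne_top_iff_exists.1 h3
    have h4 := (h1 (n + 1)).trans (h2 (n + 1))
    rw [← hn'] at h4
    have h5 : n + 1 ≤ n := by exact_mod_cast h4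
    omega
  have hc : cascade S ρ r0 = (radii S ρ r0 (Nat.find hex + 1)).1 := by
    rw [cascade, dif_pos hex]
  rw [hc]
  exact radii_lt h _

end cascade

section process

variable {ρ : ℕ → ℝ≥0 → ℝ}

/-- The entry time is attained. -/
lemma entry_attained (hc : ∀ i, Continuous (ρ i))
    (hf : ∀ (T : ℝ≥0) (r : ℝ), {i | ∃ s ≤ T, ρ i s ≤ r}.Finite) {s : State} {r : ℝ}
    (hr : s.R < ENNReal.ofReal r)
    (hfin : entryTime ρ s ≠ ∞) :
    ∃ i ∈ s.A, ENNReal.ofReal (ρ i (entryTime ρ s).toNNReal) ≤ s.R := by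
  by_contra hn
  push Not at hn
  set b := (entryTime ρ s).toNNReal with hb
  have hbc : (b : ℝ≥0∞) = entryTime ρ s := ENNReal.coe_toNNReal hfin
  set C : Set ℝ≥0 := {t | s.τ < t ∧ ∃ i ∈ s.A, ENNReal.ofReal (ρ i t) ≤ s.R} with hC
  have hne : C.Nonempty := by
    by_contra hne
    rw [not_nonempty_iff_eq_empty] at hne
    apply hfin
    unfold entryTime
    simp only [iInf_eq_top]
    intro t ht
    have : t ∈ C := ht
    rw [hne] at this
    exact absurd this (notMem_empty _)
  have hglb : IsGLB C b := by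
    constructor
    · intro t ht
      rw [← ENNReal.coe_le_coe, hbc]
      exact iInf₂_le (f := fun (t : ℝ≥0) (_ : s.τ < t ∧ ∃ i ∈ s.A, ENNReal.ofReal (ρ i t) ≤ s.R) =>
        (t : ℝ≥0∞)) t ht
    · intro c hc'
      rw [← ENNReal.coe_le_coe, hbc]
      exact le_iInf₂ fun t ht => by exact_mod_cast hc' ht
  have hfreq : ∃ᶠ t in 𝓝 b, t ∈ C := (hglb.frequently_mem hne).filter_mono nhdsWithin_le_nhds
  have hF : {i | ∃ s ≤ b + 1, ρ i s ≤ r}.Finite := hf (b + 1) r
  have hev1 : ∀ᶠ t in 𝓝 b, ∀ i ∈ {i | ∃ s ≤ b + 1, ρ i s ≤ r}, i ∈ s.A →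
      s.R < ENNReal.ofReal (ρ i t) := by
    rw [eventually_all_finite hF]
    intro i _
    by_cases hi : i ∈ s.A
    · have h1 : ContinuousAt (fun t => ENNReal.ofReal (ρ i t)) b :=
        (ENNReal.continuous_ofReal.comp (hc i)).continuousAt
      filter_upwards [h1.eventually (lt_mem_nhds (hn i hi))] with t ht _ using ht
    · exact Eventually.of_forall fun t h => absurd h hi
  have hev2 : ∀ᶠ t in 𝓝 b, t < b + 1 := gt_mem_nhds (by simp)
  obtain ⟨t, ⟨-, i, hiA, hi⟩, ht1, ht2⟩ := (hfreq.and_eventually (hev1.and hev2)).exists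
  by_cases h : ρ i t ≤ r
  · exact absurd (ht1 i ⟨t, ht2.le, h⟩ hiA) (not_lt.2 hi)
  · have h1 : ENNReal.ofReal r ≤ ENNReal.ofReal (ρ i t) :=
      ENNReal.ofReal_le_ofReal (not_le.1 h).le
    exact absurd (hr.trans_le h1) (not_lt.2 hi)

theorem bound : S_bound := by
  intro ρ hc hf T r hr hV t ht
  set V : Set ℕ := {i | ∃ s ≤ T, ρ i s ≤ r} with hVdef
  have hsq : ENNReal.ofReal (Real.pi * r ^ 2) = ENNReal.ofReal Real.pi * ENNReal.ofReal r ^ 2 := by
    rw [ENNReal.ofReal_mul Real.pi_pos.le, ENNReal.ofReal_pow hr]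
  rw [hsq] at hV
  have hVfin : V.Finite := hf T r
  have key : ∀ k : ℕ, (state ρ k).τ ≤ T → (state ρ k).R < ENNReal.ofReal r ∧
      (state ρ k).Aᶜ ⊆ V ∧ ENNReal.ofReal Real.pi * (state ρ k).R ^ 2 ≤
        (((state ρ k).Aᶜ).encard : ℝ≥0∞) + 1 := by
    intro k
    induction k with
    | zero =>
      intro _
      have h1 : (state ρ 0).Aᶜ = inDisc univ (fun i => ρ i 0) (state ρ 0).R := by
        ext i
        simp only [state, init, mem_compl_iff, mem_ofPred_eq, not_lt, inDisc, mem_univ, true_and]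
      have h3 : ENNReal.ofReal Real.pi * ENNReal.ofReal (1 / √Real.pi) ^ 2 = 1 := by
        rw [← ENNReal.ofReal_pow (by positivity), ← ENNReal.ofReal_mul Real.pi_pos.le, div_pow,
          Real.sq_sqrt Real.pi_pos.le]
        rw [one_pow, mul_one_div, div_self Real.pi_pos.ne', ENNReal.ofReal_one]
      have hsub : inDisc univ (fun i => ρ i 0) (ENNReal.ofReal r) ⊆ V := fun i hi =>
        ⟨0, zero_le, (ENNReal.ofReal_le_ofReal_iff hr).1 hi.2⟩
      have hlt : ENNReal.ofReal Real.pi * ENNReal.ofReal (1 / √Real.pi) ^ 2 +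
          ((inDisc univ (fun i => ρ i 0) (ENNReal.ofReal r)).encard : ℝ≥0∞) <
          ENNReal.ofReal Real.pi * ENNReal.ofReal r ^ 2 := by
        rw [h3, add_comm]
        refine lt_of_le_of_lt ?_ hV
        have := ENat.toENNReal_le.2 (encard_le_encard hsub)
        gcongr
      have hR : (state ρ 0).R < ENNReal.ofReal r := cascade_lt hlt (hVfin.subset hsub)
      refine ⟨hR, ?_, ?_⟩
      · rw [h1]
        exact (inDisc_mono _ _ hR.le).trans hsub
      · have h2 := cascade_area univ (fun i => ρ i 0) (ENNReal.ofReal (1 / √Real.pi))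
          (ne_top_of_lt hR)
        rw [h1]
        change ENNReal.ofReal Real.pi * cascade univ (fun i => ρ i 0)
          (ENNReal.ofReal (1 / √Real.pi)) ^ 2 ≤ _
        rw [h2, h3, add_comm]
        exact le_refl _
    | succ k ih =>
      intro hτ
      have hτk : (state ρ k).τ ≤ T := (tau_le_succ ρ k).trans hτ
      obtain ⟨hR, hA, harea⟩ := ih hτk
      set s := state ρ k with hs
      have hτ' : entryTime ρ s ≠ ∞ := ne_top_of_le_ne_top ENNReal.coe_ne_top hτ
      set b := (entryTime ρ s).toNNReal with hb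
      have hbc : (b : ℝ≥0∞) = entryTime ρ s := ENNReal.coe_toNNReal hτ'
      have hbT : b ≤ T := by
        rw [← ENNReal.coe_le_coe, hbc]
        exact hτ
      obtain ⟨i0, hi0A, hi0⟩ := entry_attained hc hf hR hτ'
      rw [← hb] at hi0
      set S : Set ℕ := {i ∈ s.A | s.R < ENNReal.ofReal (ρ i b)} with hS
      set r0 : ℝ≥0∞ := (s.R ^ 2 + 1 / ENNReal.ofReal Real.pi) ^ (1 / 2 : ℝ) with hr0
      have hr0sq : ENNReal.ofReal Real.pi * r0 ^ 2 = ENNReal.ofReal Real.pi * s.R ^ 2 + 1 := by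
        rw [hr0, sq_half, mul_add, pi_mul_div]
      have hVi : ∀ i, ENNReal.ofReal (ρ i b) ≤ ENNReal.ofReal r → i ∈ V := fun i hi =>
        ⟨b, hbT, (ENNReal.ofReal_le_ofReal_iff hr).1 hi⟩
      have hsub : inDisc S (fun i => ρ i b) (ENNReal.ofReal r) ⊆ V := fun i hi => hVi i hi.2
      -- the counting
      have hcount : ∀ (B W : Set ℕ), B ⊆ S → s.Aᶜ ⊆ W → i0 ∈ W → B ⊆ W →
          (s.Aᶜ.encard : ℝ≥0∞) + 1 + (B.encard : ℝ≥0∞) ≤ (W.encard : ℝ≥0∞) := by
        intro B W hBS hAW hiW hBW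
        have h1 : Disjoint s.Aᶜ {i0} := by
          rw [disjoint_singleton_right]
          exact fun h => h hi0A
        have h2 : Disjoint (s.Aᶜ ∪ {i0}) B := by
          rw [disjoint_left]
          rintro i (hi | hi) hiB
          · exact hi (hBS hiB).1
          · rw [mem_singleton_iff] at hi
            rw [hi] at hiB
            exact absurd (hBS hiB).2 (not_lt.2 hi0)
        have h3 : ((s.Aᶜ ∪ {i0}) ∪ B).encard ≤ W.encard :=
          encard_le_encard (union_subset (union_subset hAW (singleton_subset_iff.2 hiW)) hBW)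
        rw [encard_union_eq h2, encard_union_eq h1, encard_singleton] at h3
        have h4 := ENat.toENNReal_le.2 h3
        simpa using h4
      have hlt : ENNReal.ofReal Real.pi * r0 ^ 2 +
          ((inDisc S (fun i => ρ i b) (ENNReal.ofReal r)).encard : ℝ≥0∞) <
          ENNReal.ofReal Real.pi * ENNReal.ofReal r ^ 2 := by
        rw [hr0sq]
        refine lt_of_le_of_lt ?_ hV
        have h1 := hcount (inDisc S (fun i => ρ i b) (ENNReal.ofReal r)) V (fun i hi => hi.1) hA
          (hVi i0 (hi0.trans hR.le)) hsub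
        calc ENNReal.ofReal Real.pi * s.R ^ 2 + 1 +
            ((inDisc S (fun i => ρ i b) (ENNReal.ofReal r)).encard : ℝ≥0∞)
            ≤ ((s.Aᶜ.encard : ℝ≥0∞) + 1) + 1 +
            ((inDisc S (fun i => ρ i b) (ENNReal.ofReal r)).encard : ℝ≥0∞) := by gcongr
          _ = ((s.Aᶜ.encard : ℝ≥0∞) + 1 +
            ((inDisc S (fun i => ρ i b) (ENNReal.ofReal r)).encard : ℝ≥0∞)) + 1 := by ring
          _ ≤ _ := by gcongr
      have hR' : (state ρ (k + 1)).R < ENNReal.ofReal r := cascade_lt hlt (hVfin.subset hsub)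
      have hRR : s.R ≤ (state ρ (k + 1)).R := R_le_succ ρ k
      have hA' : (state ρ (k + 1)).Aᶜ ⊆ V := by
        intro i hi
        by_cases h1 : i ∈ s.A
        · apply hVi
          by_contra h3
          exact hi ⟨h1, hR'.trans (not_le.1 h3)⟩
        · exact hA h1
      refine ⟨hR', hA', ?_⟩
      have h2 := cascade_area S (fun i => ρ i b) r0 (ne_top_of_lt hR')
      have h3 : (state ρ (k + 1)).R = cascade S (fun i => ρ i b) r0 := rfl
      rw [← h3, hr0sq] at h2
      rw [h2]
      have h1 := hcount (inDisc S (fun i => ρ i b) (state ρ (k + 1)).R) (state ρ (k + 1)).Aᶜ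
        (fun i hi => hi.1) (fun i hi h => hi h.1)
        (fun h => absurd (h.2) (not_lt.2 (hi0.trans hRR)))
        (fun i hi h => absurd (h.2) (not_lt.2 hi.2))
      calc ENNReal.ofReal Real.pi * s.R ^ 2 + 1 +
          ((inDisc S (fun i => ρ i b) (state ρ (k + 1)).R).encard : ℝ≥0∞)
          ≤ ((s.Aᶜ.encard : ℝ≥0∞) + 1) + 1 +
          ((inDisc S (fun i => ρ i b) (state ρ (k + 1)).R).encard : ℝ≥0∞) := by gcongr
        _ = ((s.Aᶜ.encard : ℝ≥0∞) + 1 +
          ((inDisc S (fun i => ρ i b) (state ρ (k + 1)).R).encard : ℝ≥0∞)) + 1 := by ring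
        _ ≤ _ := by gcongr
  refine iSup₂_le fun k hk => ?_
  exact (key k (hk.trans (by exact_mod_cast ht))).1.le

end process

end Pool.Agent.H949.PM
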