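import Pool.Graph.R_pool_sql_team_seeded_620a6dc7.Helper712_LP.Defs

/-!
# The Pool model (MP_853d78_pr, MP_2ce40c_pr): definitions

Part 1 defines the radius process of the Pool model as a function of the distances of the particles
from the origin. Part 2 defines the continuous time and space random walks and the particle system
of MP_853d78_pr. The plane `E 2` and the Poisson point processes `IsPoissonProcess` are defined in
`Pool/Graph/R_pool_sql_team_seeded_620a6dc7/Helper712_LP/Defs.lean`.
-/

set_option autoImplicit false

namespace Pool.Agent.H949.PM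

open MeasureTheory ProbabilityTheory Set
open scoped ENNReal NNReal
open Pool.Agent.Helper712_LP

/-! ## Part 1: the radius process

The particles have the labels `0, 1, 2, …`; `ρ i t` is the distance from the origin of the particle
`i` at time `t`. -/

/-- The particles of `S` in the closed disc `B(r)`, if `ρ i` is the distance of the particle `i`
from the origin. -/
def inDisc (S : Set ℕ) (ρ : ℕ → ℝ) (r : ℝ≥0∞) : Set ℕ := {i ∈ S | ENNReal.ofReal (ρ i) ≤ r}

/-- The cascade started with the radius `r0`: the pair of the radius `r_j` and of the set of the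
particles of `S` in `B(r_(j-1))`. Here `S` is the set of the particles which can be absorbed, all of
them outside of `B(r_(-1))`. The recursion is `r_(j+1) = √(r_j² + ξ_(j+1)/π)` where `ξ_(j+1)` is the
number of particles of `S` in `B(r_j) \ B(r_(j-1))`. -/
noncomputable def radii (S : Set ℕ) (ρ : ℕ → ℝ) (r0 : ℝ≥0∞) : ℕ → ℝ≥0∞ × Set ℕ
  | 0 => (r0, ∅)
  | j + 1 => (((radii S ρ r0 j).1 ^ 2 +
      ((inDisc S ρ (radii S ρ r0 j).1 \ (radii S ρ r0 j).2).encard : ℝ≥0∞) / ENNReal.ofReal Real.pi)
        ^ (1 / 2 : ℝ), inDisc S ρ (radii S ρ r0 j).1)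

/-- The number `ξ_(j+1)` of particles absorbed in the step `j + 1` of the cascade. -/
noncomputable def xi (S : Set ℕ) (ρ : ℕ → ℝ) (r0 : ℝ≥0∞) (j : ℕ) : ℕ∞ :=
  (inDisc S ρ (radii S ρ r0 j).1 \ (radii S ρ r0 j).2).encard

open Classical in
/-- The final radius of the cascade: `r_N` where `N` is the first index with `ξ_N = 0`, and `∞` if
there is no such index. -/
noncomputable def cascade (S : Set ℕ) (ρ : ℕ → ℝ) (r0 : ℝ≥0∞) : ℝ≥0∞ :=
  if h : ∃ j, xi S ρ r0 j = 0 then (radii S ρ r0 (Nat.find h + 1)).1 else ∞

/-- The state of the Pool model after an engulfing time: the time `τ`, the radius `R` of the disc and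
the set `A` of the labels of the particles which are active at time `τ`. -/
structure State where
  /-- the engulfing time -/
  τ : ℝ≥0∞
  /-- the radius -/
  R : ℝ≥0∞
  /-- the active particles -/
  A : Set ℕ

/-- The state at time `0`: the cascade starts with the disc of area one. -/
noncomputable def init (ρ : ℕ → ℝ≥0 → ℝ) : State where
  τ := 0
  R := cascade univ (fun i => ρ i 0) (ENNReal.ofReal (1 / √Real.pi))
  A := {i | cascade univ (fun i => ρ i 0) (ENNReal.ofReal (1 / √Real.pi)) < ENNReal.ofReal (ρ i 0)}

/-- The first time after `s.τ` at which an active particle lies in the disc of radius `s.R` (`∞` if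
there is no such time). -/
noncomputable def entryTime (ρ : ℕ → ℝ≥0 → ℝ) (s : State) : ℝ≥0∞ :=
  ⨅ (t : ℝ≥0) (_ : s.τ < t ∧ ∃ i ∈ s.A, ENNReal.ofReal (ρ i t) ≤ s.R), (t : ℝ≥0∞)

/-- The radius after the cascade at the time `t`: it starts with `r_(-1) = s.R` and
`r_0 = √(r_(-1)² + 1/π)`, and counts the active particles at their positions at time `t`. -/
noncomputable def nextRadius (ρ : ℕ → ℝ≥0 → ℝ) (s : State) (t : ℝ≥0) : ℝ≥0∞ :=
  cascade {i ∈ s.A | s.R < ENNReal.ofReal (ρ i t)} (fun i => ρ i t)
    ((s.R ^ 2 + 1 / ENNReal.ofReal Real.pi) ^ (1 / 2 : ℝ))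

/-- The state at the next engulfing time (if this time is `∞` then the radius and the active
particles of the next state are not used). -/
noncomputable def next (ρ : ℕ → ℝ≥0 → ℝ) (s : State) : State where
  τ := entryTime ρ s
  R := nextRadius ρ s (entryTime ρ s).toNNReal
  A := {i ∈ s.A | nextRadius ρ s (entryTime ρ s).toNNReal <
    ENNReal.ofReal (ρ i (entryTime ρ s).toNNReal)}

/-- The state after the `k`-th engulfing time. -/
noncomputable def state (ρ : ℕ → ℝ≥0 → ℝ) : ℕ → State
  | 0 => init ρ
  | k + 1 => next ρ (state ρ k)

/-- The radius of the disc at time `t`: the largest radius reached at the engulfing times up to time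
`t`. (If infinitely many engulfing times accumulate before `t`, then the radii tend to `∞`, because
every engulfing adds at least `1` to the area.) -/
noncomputable def poolRadius (ρ : ℕ → ℝ≥0 → ℝ) (t : ℝ≥0) : ℝ≥0∞ :=
  ⨆ (k : ℕ) (_ : (state ρ k).τ ≤ t), (state ρ k).R

/-! ## Part 2: the random walks and the particle system -/

/-- The data of one walk: the waiting times and the steps. -/
abbrev Mark : Type := (ℕ → ℝ) × (ℕ → E 2)

/-- The time of the jump number `k + 1` of the walk. -/
def arrival (m : Mark) (k : ℕ) : ℝ := ∑ j ∈ Finset.range (k + 1), m.1 j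

/-- The number `N(t)` of jumps up to time `t`. -/
noncomputable def jumps (m : Mark) (t : ℝ≥0) : ℕ := sInf {k | (t : ℝ) < arrival m k}

/-- The continuous time and space random walk `∑_{j ≤ N(t)} ν_j`. -/
noncomputable def walk (m : Mark) (t : ℝ≥0) : E 2 := ∑ j ∈ Finset.range (jumps m t), m.2 j

/-- The law of the data of one walk: the waiting times are independent exponential with mean `1` (so
that `N` is a Poisson process of rate `1`), and the steps are independent standard Gaussian vectors
in the plane, independent of the waiting times. -/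
noncomputable def walkLaw : Measure Mark :=
  (Measure.infinitePi fun _ : ℕ => expMeasure 1).prod
    (Measure.infinitePi fun _ : ℕ => stdGaussian (E 2))

/-- The particle system of the Pool model: `X` enumerates a Poisson point process of intensity `lam`
in the plane, the data `Y i` of the walks are independent with law `walkLaw`, and independent of `X`.
The particle `i` is at time `t` at the position `X i ω + walk (Y i ω) t`. -/
structure IsSystem {Ω : Type} [MeasurableSpace Ω] (P : Measure Ω) (lam : ℝ≥0)
    (X : ℕ → Ω → E 2) (Y : ℕ → Ω → Mark) : Prop where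
  points : IsPoissonProcess P lam X
  measurable : ∀ i, Measurable (Y i)
  law : ∀ i, P.map (Y i) = walkLaw
  indep : iIndepFun Y P
  indep_points : IndepFun (fun ω i => X i ω) (fun ω i => Y i ω) P

/-- The distance from the origin of the particle `i` at time `t`. -/
noncomputable def dist0 {Ω : Type} (X : ℕ → Ω → E 2) (Y : ℕ → Ω → Mark) (ω : Ω) (i : ℕ)
    (t : ℝ≥0) : ℝ := ‖X i ω + walk (Y i ω) t‖

/-- The radius of the Pool model at time `t`. -/
noncomputable def radius {Ω : Type} (X : ℕ → Ω → E 2) (Y : ℕ → Ω → Mark) (t : ℝ≥0) (ω : Ω) :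
    ℝ≥0∞ := poolRadius (dist0 X Y ω) t

end Pool.Agent.H949.PM
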