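import Pool.Agent.H949.PM.Stmts

/-!
# The Pool model: the number of particles in the disc

The deterministic part: every absorbed particle adds one to the area of the disc.
-/

set_option autoImplicit false

namespace Pool.Agent.H949.PM

open MeasureTheory ProbabilityTheory Set Filter Topology
open scoped ENNReal NNReal
open Pool.Agent.Helper712_LP

lemma pi_ne_zero : ENNReal.ofReal Real.pi ≠ 0 := by
  simp [Real.pi_pos]

lemma sq_half (x : ℝ≥0∞) : (x ^ (1 / 2 : ℝ)) ^ 2 = x := by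
  rw [← ENNReal.rpow_natCast, ← ENNReal.rpow_mul]
  norm_num

lemma half_sq (x : ℝ≥0∞) : (x ^ 2) ^ (1 / 2 : ℝ) = x := by
  rw [← ENNReal.rpow_natCast, ← ENNReal.rpow_mul]
  norm_num

lemma pi_mul_div (x : ℝ≥0∞) : ENNReal.ofReal Real.pi * (x / ENNReal.ofReal Real.pi) = x :=
  ENNReal.mul_div_cancel pi_ne_zero ENNReal.ofReal_ne_top

section cascade

variable (S : Set ℕ) (ρ : ℕ → ℝ) (r0 : ℝ≥0∞)

lemma radii_le_succ (j : ℕ) : (radii S ρ r0 j).1 ≤ (radii S ρ r0 (j + 1)).1 := by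
  conv_lhs => rw [← half_sq (radii S ρ r0 j).1]
  rw [radii]
  exact ENNReal.rpow_le_rpow le_self_add (by norm_num)

lemma inDisc_mono {r r' : ℝ≥0∞} (h : r ≤ r') : inDisc S ρ r ⊆ inDisc S ρ r' :=
  fun _ hi => ⟨hi.1, hi.2.trans h⟩

lemma inner_sub (j : ℕ) : (radii S ρ r0 j).2 ⊆ inDisc S ρ (radii S ρ r0 j).1 := by
  cases j with
  | zero => simp [radii]
  | succ j =>
    have h1 : (radii S ρ r0 (j + 1)).2 = inDisc S ρ (radii S ρ r0 j).1 := by rw [radii]
    rw [h1]
    exact inDisc_mono S ρ (radii_le_succ S ρ r0 j)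

lemma area_eq (j : ℕ) : ENNReal.ofReal Real.pi * (radii S ρ r0 j).1 ^ 2 =
    ENNReal.ofReal Real.pi * r0 ^ 2 + ((radii S ρ r0 j).2.encard : ℝ≥0∞) := by
  induction j with
  | zero => simp [radii]
  | succ j ih =>
    have h1 : (radii S ρ r0 (j + 1)).2 = inDisc S ρ (radii S ρ r0 j).1 := by rw [radii]
    have h2 : (radii S ρ r0 (j + 1)).1 ^ 2 = (radii S ρ r0 j).1 ^ 2 +
        ((inDisc S ρ (radii S ρ r0 j).1 \ (radii S ρ r0 j).2).encard : ℝ≥0∞) /
          ENNReal.ofReal Real.pi := by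
      rw [radii, sq_half]
    rw [h1, h2, mul_add, ih, pi_mul_div, add_assoc, ← ENat.toENNReal_add, add_comm (encard _),
      encard_sdiff_add_encard_of_subset (inner_sub S ρ r0 j)]

lemma cascade_area (h : cascade S ρ r0 ≠ ∞) : ENNReal.ofReal Real.pi * cascade S ρ r0 ^ 2 =
    ENNReal.ofReal Real.pi * r0 ^ 2 + ((inDisc S ρ (cascade S ρ r0)).encard : ℝ≥0∞) := by
  classical
  have hex : ∃ j, xi S ρ r0 j = 0 := by
    by_contra hn
    exact h (by rw [cascade, dif_neg hn])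
  have hc : cascade S ρ r0 = (radii S ρ r0 (Nat.find hex + 1)).1 := by
    rw [cascade, dif_pos hex]
  have hN : xi S ρ r0 (Nat.find hex) = 0 := Nat.find_spec hex
  rw [hc]
  set N := Nat.find hex
  have h3 : (radii S ρ r0 (N + 1)).1 = (radii S ρ r0 N).1 := by
    have h4 : (inDisc S ρ (radii S ρ r0 N).1 \ (radii S ρ r0 N).2).encard = 0 := hN
    rw [radii]
    simp only [h4, ENat.toENNReal_zero, ENNReal.zero_div, add_zero]
    exact half_sq _
  rw [area_eq]
  congr 2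
  have h5 : (radii S ρ r0 (N + 1)).2 = inDisc S ρ (radii S ρ r0 N).1 := by rw [radii]
  rw [h5, h3]

lemma le_radii (j : ℕ) : r0 ≤ (radii S ρ r0 j).1 := by
  induction j with
  | zero => simp [radii]
  | succ j ih => exact ih.trans (radii_le_succ S ρ r0 j)

lemma le_cascade : r0 ≤ cascade S ρ r0 := by
  classical
  unfold cascade
  split_ifs with h
  · exact le_radii S ρ r0 _
  · exact le_top

end cascade

section process

variable (ρ : ℕ → ℝ≥0 → ℝ)

lemma tau_le_succ (k : ℕ) : (state ρ k).τ ≤ (state ρ (k + 1)).τ := by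
  change _ ≤ entryTime ρ (state ρ k)
  exact le_iInf₂ fun t ht => ht.1.le

lemma R_step (k : ℕ) : ENNReal.ofReal Real.pi * (state ρ k).R ^ 2 + 1 ≤
    ENNReal.ofReal Real.pi * (state ρ (k + 1)).R ^ 2 := by
  have h1 : (((state ρ k).R ^ 2 + 1 / ENNReal.ofReal Real.pi) ^ (1 / 2 : ℝ)) ≤
      (state ρ (k + 1)).R := le_cascade _ _ _
  calc ENNReal.ofReal Real.pi * (state ρ k).R ^ 2 + 1
      = ENNReal.ofReal Real.pi * ((state ρ k).R ^ 2 + 1 / ENNReal.ofReal Real.pi) := by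
        rw [mul_add, pi_mul_div]
    _ = ENNReal.ofReal Real.pi *
        (((state ρ k).R ^ 2 + 1 / ENNReal.ofReal Real.pi) ^ (1 / 2 : ℝ)) ^ 2 := by rw [sq_half]
    _ ≤ _ := by gcongr

lemma R_le_succ (k : ℕ) : (state ρ k).R ≤ (state ρ (k + 1)).R := by
  have h1 : (((state ρ k).R ^ 2 + 1 / ENNReal.ofReal Real.pi) ^ (1 / 2 : ℝ)) ≤
      (state ρ (k + 1)).R := le_cascade _ _ _
  refine le_trans ?_ h1
  conv_lhs => rw [← half_sq (state ρ k).R]
  exact ENNReal.rpow_le_rpow le_self_add (by norm_num)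

lemma tau_mono : Monotone fun k => (state ρ k).τ := monotone_nat_of_le_succ (tau_le_succ ρ)

lemma R_mono : Monotone fun k => (state ρ k).R := monotone_nat_of_le_succ (R_le_succ ρ)

lemma nat_le_area (k : ℕ) : (k : ℝ≥0∞) ≤ ENNReal.ofReal Real.pi * (state ρ k).R ^ 2 := by
  induction k with
  | zero => simp
  | succ k ih =>
    push_cast
    exact le_trans (by gcongr) (R_step ρ k)

lemma exists_last {t : ℝ≥0} (h : poolRadius ρ t ≠ ∞) : ∃ k, (state ρ k).τ ≤ t ∧
    t < (state ρ (k + 1)).τ ∧ poolRadius ρ t = (state ρ k).R := by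
  classical
  have hex : ∃ k, (t : ℝ≥0∞) < (state ρ k).τ := by
    by_contra hn
    push Not at hn
    apply h
    have h1 : ∀ k : ℕ, (k : ℝ≥0∞) ≤ ENNReal.ofReal Real.pi * poolRadius ρ t ^ 2 := by
      intro k
      refine (nat_le_area ρ k).trans ?_
      gcongr
      exact le_iSup₂ (f := fun (k : ℕ) (_ : (state ρ k).τ ≤ t) => (state ρ k).R) k (hn k)
    by_contra h2
    have h3 : ENNReal.ofReal Real.pi * poolRadius ρ t ^ 2 ≠ ∞ :=
      ENNReal.mul_ne_top ENNReal.ofReal_ne_top (ENNReal.pow_ne_top h2)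
    obtain ⟨n, hn⟩ := ENNReal.exists_nat_gt h3
    exact absurd (h1 n) (not_le.2 hn)
  have hm := Nat.find_spec hex
  have hmin := fun j (hj : j < Nat.find hex) => Nat.find_min hex hj
  set m := Nat.find hex
  have hm0 : m ≠ 0 := by
    intro h0
    rw [h0] at hm
    have : (state ρ 0).τ = 0 := rfl
    rw [this] at hm
    exact absurd hm (by simp)
  obtain ⟨k, hmk⟩ : ∃ k, m = k + 1 := ⟨m - 1, by omega⟩
  rw [hmk] at hm hmin
  have hk : (state ρ k).τ ≤ t := not_lt.1 (hmin k (by omega))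
  refine ⟨k, hk, hm, le_antisymm ?_ ?_⟩
  · refine iSup₂_le fun j hj => ?_
    rcases Nat.lt_or_ge j (k + 1) with h1 | h1
    · exact R_mono ρ (by omega)
    · exact absurd (lt_of_lt_of_le hm (tau_mono ρ h1)) (not_lt.2 hj)
  · exact le_iSup₂ (f := fun (k : ℕ) (_ : (state ρ k).τ ≤ t) => (state ρ k).R) k hk

lemma active_out (k : ℕ) {i : ℕ} (hi : i ∈ (state ρ k).A) :
    (state ρ k).R < ENNReal.ofReal (ρ i (state ρ k).τ.toNNReal) := by
  cases k with
  | zero =>
    have h1 : (state ρ 0).τ.toNNReal = 0 := by simp [state, init]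
    rw [h1]
    exact hi
  | succ k => exact hi.2

lemma not_entered {s : State} {t : ℝ≥0} (h1 : s.τ < t) (h2 : t < entryTime ρ s) {i : ℕ}
    (hi : i ∈ s.A) : s.R < ENNReal.ofReal (ρ i t) := by
  by_contra hn
  have h3 : entryTime ρ s ≤ t :=
    iInf₂_le (f := fun (t : ℝ≥0) (_ : s.τ < t ∧ ∃ i ∈ s.A, ENNReal.ofReal (ρ i t) ≤ s.R) =>
      (t : ℝ≥0∞)) t ⟨h1, i, hi, not_lt.1 hn⟩
  exact absurd h2 (not_lt.2 h3)

lemma card_absorbed (hρ : NoDouble ρ) (k : ℕ) (hτ : (state ρ k).τ ≠ ∞) (hR : (state ρ k).R ≠ ∞) :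
    (((state ρ k).Aᶜ).encard : ℝ≥0∞) + 1 ≤ ENNReal.ofReal Real.pi * (state ρ k).R ^ 2 := by
  induction k with
  | zero =>
    have h1 : (state ρ 0).Aᶜ = inDisc univ (fun i => ρ i 0) (state ρ 0).R := by
      ext i
      simp only [state, init, mem_compl_iff, mem_ofPred_eq, not_lt, inDisc, mem_univ, true_and]
    have h2 := cascade_area univ (fun i => ρ i 0) (ENNReal.ofReal (1 / √Real.pi)) hR
    have h3 : ENNReal.ofReal Real.pi * ENNReal.ofReal (1 / √Real.pi) ^ 2 = 1 := by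
      rw [← ENNReal.ofReal_pow (by positivity), ← ENNReal.ofReal_mul Real.pi_pos.le, div_pow,
        Real.sq_sqrt Real.pi_pos.le]
      rw [one_pow, mul_one_div, div_self Real.pi_pos.ne', ENNReal.ofReal_one]
    rw [h1]
    change _ ≤ ENNReal.ofReal Real.pi * cascade univ (fun i => ρ i 0)
      (ENNReal.ofReal (1 / √Real.pi)) ^ 2
    rw [h2, h3, add_comm]
    exact le_refl _
  | succ k ih =>
    have hτk : (state ρ k).τ ≠ ∞ := ne_top_of_le_ne_top hτ (tau_le_succ ρ k)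
    have hRk : (state ρ k).R ≠ ∞ := ne_top_of_le_ne_top hR (R_le_succ ρ k)
    have ih' := ih hτk hRk
    set s := state ρ k with hs
    set a := s.τ.toNNReal with ha
    set b := (entryTime ρ s).toNNReal with hb
    have hτ' : entryTime ρ s ≠ ∞ := hτ
    have hac : (a : ℝ≥0∞) = s.τ := ENNReal.coe_toNNReal hτk
    have hbc : (b : ℝ≥0∞) = entryTime ρ s := ENNReal.coe_toNNReal hτ'
    have hab : a ≤ b := by
      rw [← ENNReal.coe_le_coe, hac, hbc]
      exact tau_le_succ ρ k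
    have hout : ∀ i ∈ s.A, ∀ u, a ≤ u → u < b → s.R < ENNReal.ofReal (ρ i u) := by
      intro i hi u hau hub
      rcases eq_or_lt_of_le hau with h | h
      · rw [← h]
        exact active_out ρ k hi
      · refine not_entered ρ ?_ ?_ hi
        · rw [← hac]; exact_mod_cast h
        · rw [← hbc]; exact_mod_cast hub
    have hD : ({i ∈ s.A | ENNReal.ofReal (ρ i b) ≤ s.R}).encard ≤ 1 := by
      rw [encard_le_one_iff]
      intro i j hi hj
      rcases eq_or_lt_of_le hab with h | h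
      · exfalso
        have h1 := active_out ρ k hi.1
        have h2 := hi.2
        rw [← h] at h2
        exact absurd h1 (not_lt.2 h2)
      · exact hρ a b s.R i j h (hout i hi.1) (hout j hj.1) hi.2 hj.2
    have hc := cascade_area {i ∈ s.A | s.R < ENNReal.ofReal (ρ i b)} (fun i => ρ i b)
      ((s.R ^ 2 + 1 / ENNReal.ofReal Real.pi) ^ (1 / 2 : ℝ)) hR
    have hR' : (state ρ (k + 1)).R = cascade {i ∈ s.A | s.R < ENNReal.ofReal (ρ i b)}
      (fun i => ρ i b) ((s.R ^ 2 + 1 / ENNReal.ofReal Real.pi) ^ (1 / 2 : ℝ)) := rfl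
    rw [← hR'] at hc
    rw [sq_half, mul_add, pi_mul_div] at hc
    have hsub : (state ρ (k + 1)).Aᶜ ⊆ (s.Aᶜ ∪ {i ∈ s.A | ENNReal.ofReal (ρ i b) ≤ s.R}) ∪
        inDisc {i ∈ s.A | s.R < ENNReal.ofReal (ρ i b)} (fun i => ρ i b)
          (state ρ (k + 1)).R := by
      intro i hi
      by_cases h1 : i ∈ s.A
      · by_cases h2 : ENNReal.ofReal (ρ i b) ≤ s.R
        · exact Or.inl (Or.inr ⟨h1, h2⟩)
        · right
          refine ⟨⟨h1, not_le.1 h2⟩, ?_⟩
          by_contra h3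
          exact hi ⟨h1, not_le.1 h3⟩
      · exact Or.inl (Or.inl h1)
    have h4 : ((state ρ (k + 1)).Aᶜ).encard ≤ s.Aᶜ.encard + 1 +
        (inDisc {i ∈ s.A | s.R < ENNReal.ofReal (ρ i b)} (fun i => ρ i b)
          (state ρ (k + 1)).R).encard := by
      refine (encard_le_encard hsub).trans ((encard_union_le _ _).trans ?_)
      gcongr
      refine (encard_union_le _ _).trans ?_
      gcongr
    have h5 : (((state ρ (k + 1)).Aᶜ).encard : ℝ≥0∞) ≤ (s.Aᶜ.encard : ℝ≥0∞) + 1 +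
        ((inDisc {i ∈ s.A | s.R < ENNReal.ofReal (ρ i b)} (fun i => ρ i b)
          (state ρ (k + 1)).R).encard : ℝ≥0∞) := by
      have := ENat.toENNReal_le.2 h4
      simpa using this
    rw [hc]
    calc (((state ρ (k + 1)).Aᶜ).encard : ℝ≥0∞) + 1
        ≤ ((s.Aᶜ.encard : ℝ≥0∞) + 1 +
        ((inDisc {i ∈ s.A | s.R < ENNReal.ofReal (ρ i b)} (fun i => ρ i b)
          (state ρ (k + 1)).R).encard : ℝ≥0∞)) + 1 := by gcongr
      _ = ((s.Aᶜ.encard : ℝ≥0∞) + 1) + 1 +
        ((inDisc {i ∈ s.A | s.R < ENNReal.ofReal (ρ i b)} (fun i => ρ i b)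
          (state ρ (k + 1)).R).encard : ℝ≥0∞) := by ring
      _ ≤ _ := by gcongr

end process

theorem det : S_det := by
  intro ρ hρ t ht
  obtain ⟨k, h1, h2, h3⟩ := exists_last ρ ht
  have hτ : (state ρ k).τ ≠ ∞ := ne_top_of_le_ne_top ENNReal.coe_ne_top h1
  have hR : (state ρ k).R ≠ ∞ := h3 ▸ ht
  have h4 := card_absorbed ρ hρ k hτ hR
  rw [h3]
  refine le_trans ?_ h4
  gcongr
  intro i hi hA
  have h5 : (state ρ k).R < ENNReal.ofReal (ρ i t) := by
    rcases eq_or_lt_of_le h1 with h | h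
    · have h6 := active_out ρ k hA
      rw [h] at h6
      simpa using h6
    · exact not_entered ρ h h2 hA
  exact absurd h5 (not_lt.2 hi)

end Pool.Agent.H949.PM
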