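import Pool.Agent.H949.PM.Stat
import Pool.Graph.R_pool_sql_team_seeded_620a6dc7.Helper56_LP.ExistsMobile

/-!
# The particle system of the Pool model exists
-/

set_option autoImplicit false

namespace Pool.Agent.H949.PM

open MeasureTheory ProbabilityTheory Set Filter Topology
open scoped ENNReal NNReal
open Pool.Agent.Helper712_LP Pool.Agent.Helper56_LP

/-- The particle system exists, for every positive intensity. -/
theorem exists_system (lam : ℝ≥0) (hlam : 0 < lam) :
    ∃ (Ω : Type) (_ : MeasurableSpace Ω) (P : Measure Ω) (_ : IsProbabilityMeasure P)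
    (X : ℕ → Ω → E 2) (Y : ℕ → Ω → Mark), IsSystem P lam X Y := by
  obtain ⟨Ω₁, m₁, P₁, hP₁, x, hx⟩ := exists_ppp 2 (by norm_num) lam hlam
  set Q : Measure (ℕ → Mark) := Measure.infinitePi (fun _ => walkLaw) with hQ
  have h1 : MeasurePreserving (Prod.fst : Ω₁ × (ℕ → Mark) → Ω₁) (P₁.prod Q) P₁ :=
    measurePreserving_fst
  have h2 : MeasurePreserving (Prod.snd : Ω₁ × (ℕ → Mark) → _) (P₁.prod Q) Q :=
    measurePreserving_snd
  have h3 : ∀ i : ℕ, MeasurePreserving (fun ω : ℕ → Mark => ω i) Q walkLaw := fun i =>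
    measurePreserving_eval_infinitePi (fun _ => walkLaw) i
  refine ⟨Ω₁ × (ℕ → Mark), inferInstance, P₁.prod Q, inferInstance,
    fun i ω => x i ω.1, fun i ω => ω.2 i, ?_⟩
  refine ⟨poisson_lift h1 hx, fun i => (measurable_pi_apply i).comp measurable_snd, fun i => ?_,
    ?_, ?_⟩
  · exact ((h3 i).comp h2).map_eq
  · have h4 : iIndepFun (fun (i : ℕ) (ω : ℕ → Mark) => ω i) Q :=
      iIndepFun_infinitePi (P := fun _ => walkLaw) (X := fun _ ω => ω) (fun _ => measurable_id)
    exact indep_lift h2 (fun i => measurable_pi_apply i) h4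
  · have h5 : Measurable (fun (ω : Ω₁) i => x i ω) := measurable_pi_iff.mpr hx.measurable
    have h6 : Measurable (fun (ω : ℕ → Mark) (i : ℕ) => ω i) := measurable_id
    exact indepFun_prod (μ := P₁) (ν := Q) h5 h6

end Pool.Agent.H949.PM
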