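import Pool.Agent.H949.PM.Stmts

/-!
# No simultaneous jumps, finitely many jumps in finite time

Paper proof of `S_jumps`. Let `h : IsSystem P 1 X Y`. It is enough to fix `i ≠ j`, `k`, `l`
(countably many) and to show `P(arrival (Y i) k = arrival (Y j) l) = 0`, and to fix `i` and show that
almost surely `arrival (Y i) k → ∞`.

(a) The law of `(Y i, Y j)` is `walkLaw.prod walkLaw` (`h.indep.indepFun`, `h.law`). Fix `m'` and let
`c = arrival m' l`. Under `walkLaw` the waiting times `m.1 0, m.1 1, …` are independent with law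
`expMeasure 1`. `arrival m k` is the sum of `∑_{j < k} m.1 j` and `m.1 k`, which are independent, and
the second one has an atomless law, so `walkLaw {m | arrival m k = c} = 0` by Fubini.

(b) Under `walkLaw` the strong law of large numbers for the variables `min (m.1 j) 1`.
-/

set_option autoImplicit false

namespace Pool.Agent.H949.PM

open MeasureTheory ProbabilityTheory Set Filter Topology
open scoped ENNReal NNReal
open Pool.Agent.Helper712_LP

theorem jp_singleton (c : ℝ) : expMeasure 1 {c} = 0 := by
  unfold expMeasure gammaMeasure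
  exact withDensity_absolutelyContinuous _ _ (measure_singleton c)

theorem jp_pos : ∀ᵐ x ∂(expMeasure 1), 0 < x := by
  have : IsProbabilityMeasure (expMeasure 1) := isProbabilityMeasure_expMeasure one_pos
  have h1 : (expMeasure 1).real (Iic 0) = 0 := by
    rw [← cdf_eq_real, cdf_expMeasure_eq one_pos]
    simp
  have h2 : expMeasure 1 (Iic 0) = 0 := by
    rwa [measureReal_eq_zero_iff] at h1
  rw [ae_iff]
  have h3 : {a : ℝ | ¬ 0 < a} = Iic 0 := by
    ext a
    simp
  rw [h3]
  exact h2

/-- The law of the waiting times. -/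
noncomputable abbrev jpW : Measure (ℕ → ℝ) := Measure.infinitePi fun _ : ℕ => expMeasure 1

theorem jp_sum_eq (l : ℕ) (c : ℝ) : jpW {x | ∑ j ∈ Finset.range (l + 1), x j = c} = 0 := by
  have : IsProbabilityMeasure (expMeasure 1) := isProbabilityMeasure_expMeasure one_pos
  have hind : iIndepFun (fun (i : ℕ) (ω : ℕ → ℝ) => ω i) jpW :=
    iIndepFun_infinitePi (P := fun _ : ℕ => expMeasure 1) (X := fun _ x => x)
      (fun _ => measurable_id)
  have hm : ∀ i : ℕ, Measurable fun ω : ℕ → ℝ => ω i := fun i => measurable_pi_apply i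
  have h1 := hind.indepFun_finsetSum_of_notMem hm (s := Finset.range l) (i := l)
    Finset.notMem_range_self
  have hsm : Measurable (∑ j ∈ Finset.range l, fun ω : ℕ → ℝ => ω j) := by
    have e1 : (∑ j ∈ Finset.range l, fun ω : ℕ → ℝ => ω j) =
        fun ω : ℕ → ℝ => ∑ j ∈ Finset.range l, ω j := by
      ext ω
      rw [Finset.sum_apply]
    rw [e1]
    exact Finset.measurable_sum _ fun i _ => hm i
  rw [indepFun_iff_map_prod_eq_prod_map_map hsm.aemeasurable (hm l).aemeasurable] at h1
  have hB : MeasurableSet {p : ℝ × ℝ | p.1 + p.2 = c} :=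
    (measurable_fst.add measurable_snd) (measurableSet_singleton c)
  have h2 : {x : ℕ → ℝ | ∑ j ∈ Finset.range (l + 1), x j = c} =
      (fun ω : ℕ → ℝ => ((∑ j ∈ Finset.range l, fun ω : ℕ → ℝ => ω j) ω, ω l)) ⁻¹'
        {p : ℝ × ℝ | p.1 + p.2 = c} := by
    ext x
    simp only [mem_preimage, mem_ofPred_eq, Finset.sum_apply, Finset.sum_range_succ]
  rw [h2, ← Measure.map_apply (hsm.prodMk (hm l)) hB, h1, Measure.measure_prod_null hB]
  refine Eventually.of_forall fun v => ?_
  have h3 : (Prod.mk v ⁻¹' {p : ℝ × ℝ | p.1 + p.2 = c}) = {c - v} := by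
    ext u
    simp only [mem_preimage, mem_ofPred_eq, mem_singleton_iff]
    constructor
    · intro h
      linarith
    · intro h
      linarith
  show jpW.map (fun ω : ℕ → ℝ => ω l) (Prod.mk v ⁻¹' {p : ℝ × ℝ | p.1 + p.2 = c}) = 0
  rw [h3, Measure.infinitePi_map_eval (fun _ : ℕ => expMeasure 1) l]
  exact jp_singleton _

theorem jp_sum_top : ∀ᵐ x ∂jpW, ∀ t : ℝ, ∃ k, t < ∑ j ∈ Finset.range (k + 1), x j := by
  have : IsProbabilityMeasure (expMeasure 1) := isProbabilityMeasure_expMeasure one_pos
  have hfm : Measurable fun x : ℝ => min x 1 := measurable_id.min measurable_const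
  have hm : ∀ i : ℕ, Measurable fun ω : ℕ → ℝ => ω i := fun i => measurable_pi_apply i
  have hind : iIndepFun (fun (i : ℕ) (ω : ℕ → ℝ) => min (ω i) 1) jpW :=
    iIndepFun_infinitePi (P := fun _ : ℕ => expMeasure 1) (X := fun _ x => min x 1)
      (fun _ => hfm)
  have hev : ∀ i : ℕ, jpW.map (fun ω : ℕ → ℝ => ω i) = expMeasure 1 := fun i =>
    Measure.infinitePi_map_eval (fun _ : ℕ => expMeasure 1) i
  have hpos : ∀ᵐ x ∂jpW, ∀ i : ℕ, 0 < x i := by
    rw [ae_all_iff]
    intro i
    have h1 := jp_pos
    rw [← hev i] at h1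
    exact ae_of_ae_map (hm i).aemeasurable h1
  have hint1 : Integrable (fun x : ℝ => min x 1) (expMeasure 1) := by
    refine Integrable.mono' (integrable_const (1 : ℝ)) hfm.aestronglyMeasurable ?_
    filter_upwards [jp_pos] with x hx
    rw [Real.norm_eq_abs, abs_of_pos (lt_min hx one_pos)]
    exact min_le_right _ _
  have hint : Integrable (fun ω : ℕ → ℝ => min (ω 0) 1) jpW := by
    have h1 : Integrable (fun x : ℝ => min x 1) (jpW.map (fun ω : ℕ → ℝ => ω 0)) := by
      rw [hev 0]; exact hint1
    exact h1.comp_measurable (hm 0)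
  have hid : ∀ i : ℕ, IdentDistrib (fun ω : ℕ → ℝ => min (ω i) 1) (fun ω : ℕ → ℝ => min (ω 0) 1)
      jpW jpW := by
    intro i
    have h1 : IdentDistrib (fun ω : ℕ → ℝ => ω i) (fun ω : ℕ → ℝ => ω 0) jpW jpW :=
      ⟨(hm i).aemeasurable, (hm 0).aemeasurable, by rw [hev i, hev 0]⟩
    exact h1.comp hfm
  have hmean : 0 < ∫ ω, min (ω 0) 1 ∂jpW := by
    have h1 : 0 ≤ᵐ[jpW] fun ω : ℕ → ℝ => min (ω 0) 1 := by
      filter_upwards [hpos] with x hx
      exact (lt_min (hx 0) one_pos).le
    rw [integral_pos_iff_support_of_nonneg_ae h1 hint]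
    have hms : MeasurableSet (Function.support fun ω : ℕ → ℝ => min (ω 0) 1) :=
      (hfm.comp (hm 0)) (measurableSet_singleton 0).compl
    have h2 : jpW (Function.support fun ω : ℕ → ℝ => min (ω 0) 1) = 1 := by
      rw [← mem_ae_iff_prob_eq_one hms]
      filter_upwards [hpos] with x hx
      exact (lt_min (hx 0) one_pos).ne'
    rw [h2]
    exact one_pos
  have hslln := strong_law_ae_real (fun (i : ℕ) (ω : ℕ → ℝ) => min (ω i) 1) hint
    (fun i j hij => hind.indepFun hij) hid
  filter_upwards [hpos, hslln] with x hx hlim t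
  have h1 : Tendsto (fun n : ℕ => ∑ i ∈ Finset.range n, min (x i) 1) atTop atTop := by
    have h2 := hlim.pos_mul_atTop hmean (tendsto_natCast_atTop_atTop (R := ℝ))
    refine h2.congr' ?_
    filter_upwards [eventually_gt_atTop 0] with n hn
    have : (n : ℝ) ≠ 0 := by positivity
    field_simp
  have h3 := (h1.comp (tendsto_add_atTop_nat 1)).eventually_gt_atTop t
  obtain ⟨k, hk⟩ := h3.exists
  refine ⟨k, hk.trans_le ?_⟩
  exact Finset.sum_le_sum fun i _ => min_le_left _ _

theorem jp_arrival_meas (k : ℕ) : Measurable fun m : Mark => arrival m k := by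
  unfold arrival
  exact Finset.measurable_sum _ fun i _ => (measurable_pi_apply i).comp measurable_fst

theorem jp_arrival_eq (l : ℕ) (c : ℝ) : walkLaw {m | arrival m l = c} = 0 := by
  have : IsProbabilityMeasure (expMeasure 1) := isProbabilityMeasure_expMeasure one_pos
  have hB : MeasurableSet {x : ℕ → ℝ | ∑ j ∈ Finset.range (l + 1), x j = c} :=
    (Finset.measurable_sum _ fun i _ => measurable_pi_apply i) (measurableSet_singleton c)
  have h1 : MeasurePreserving (Prod.fst : Mark → (ℕ → ℝ)) walkLaw jpW := measurePreserving_fst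
  exact (h1.measure_preimage hB.nullMeasurableSet).trans (jp_sum_eq l c)

theorem jp_arrival_top : ∀ᵐ m ∂walkLaw, ∀ t : ℝ, ∃ k, t < arrival m k := by
  have : IsProbabilityMeasure (expMeasure 1) := isProbabilityMeasure_expMeasure one_pos
  have h1 : MeasurePreserving (Prod.fst : Mark → (ℕ → ℝ)) walkLaw jpW := measurePreserving_fst
  exact h1.quasiMeasurePreserving.ae jp_sum_top

theorem jumps_ae : S_jumps := by
  intro Ω _ P _ X Y h
  have : IsProbabilityMeasure (expMeasure 1) := isProbabilityMeasure_expMeasure one_pos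
  have hW : IsProbabilityMeasure walkLaw := by
    unfold walkLaw
    infer_instance
  refine Filter.Eventually.and ?_ ?_
  · rw [ae_all_iff]
    intro i
    rw [ae_all_iff]
    intro j
    by_cases hij : i = j
    · exact Eventually.of_forall fun ω hne => absurd hij hne
    have h0 : ∀ᵐ ω ∂P, ∀ k l, arrival (Y i ω) k ≠ arrival (Y j ω) l := by
      rw [ae_all_iff]
      intro k
      rw [ae_all_iff]
      intro l
      have hB : MeasurableSet {p : Mark × Mark | arrival p.1 k = arrival p.2 l} :=
        measurableSet_eq_fun ((jp_arrival_meas k).comp measurable_fst)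
          ((jp_arrival_meas l).comp measurable_snd)
      have h1 := h.indep.indepFun hij
      rw [indepFun_iff_map_prod_eq_prod_map_map (h.measurable i).aemeasurable
        (h.measurable j).aemeasurable, h.law i, h.law j] at h1
      rw [ae_iff]
      have h2 : {ω | ¬ arrival (Y i ω) k ≠ arrival (Y j ω) l} =
          (fun ω => (Y i ω, Y j ω)) ⁻¹' {p : Mark × Mark | arrival p.1 k = arrival p.2 l} := by
        ext ω
        simp
      rw [h2, ← Measure.map_apply ((h.measurable i).prodMk (h.measurable j)) hB, h1,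
        Measure.measure_prod_null hB]
      refine Eventually.of_forall fun m => ?_
      have h3 : (Prod.mk m ⁻¹' {p : Mark × Mark | arrival p.1 k = arrival p.2 l}) =
          {m' | arrival m' l = arrival m k} := by
        ext m'
        exact eq_comm
      show walkLaw (Prod.mk m ⁻¹' {p : Mark × Mark | arrival p.1 k = arrival p.2 l}) = 0
      rw [h3]
      exact jp_arrival_eq l _
    filter_upwards [h0] with ω hω _
    exact hω
  · rw [ae_all_iff]
    intro i
    have h1 := jp_arrival_top
    rw [← h.law i] at h1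
    exact ae_of_ae_map (h.measurable i).aemeasurable h1

end Pool.Agent.H949.PM
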