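import Pool.Agent.H949.PM.Det

/-!
# The critical Pool model: the radius is not concentrated at any time
-/

set_option autoImplicit false

namespace Pool.Agent.H949.PM

open MeasureTheory ProbabilityTheory Set Filter Topology
open scoped ENNReal NNReal
open Pool.Agent.Helper712_LP

lemma mem_ring_iff (x : E 2) (j : ℕ) : x ∈ ring j ↔ ⌊Real.pi * ‖x‖ ^ 2⌋₊ = j := by
  rw [Nat.floor_eq_iff (by positivity)]
  exact Iff.rfl

/-- The number of points in the first `n` rings is at most the number of points in the disc. -/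
lemma sum_rings_le {Ω : Type} (z : ℕ → Ω → E 2) (ω : Ω) {R : ℝ≥0∞} (n : ℕ)
    (hn : (n : ℝ≥0∞) ≤ ENNReal.ofReal Real.pi * R ^ 2) :
    ∑ j ∈ Finset.range n, cnt z (ring j) ω ≤
      (({i | ENNReal.ofReal ‖z i ω‖ ≤ R} : Set ℕ).encard : ℝ≥0∞) := by
  classical
  have h1 : ∑ j ∈ Finset.range n, cnt z (ring j) ω =
      ∑' i, ∑ j ∈ Finset.range n, (ring j).indicator (fun _ => (1 : ℝ≥0∞)) (z i ω) := by
    unfold cnt
    rw [Summable.tsum_finsetSum fun _ _ => ENNReal.summable]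
  rw [h1, ← ENNReal.tsum_set_one, tsum_subtype {i | ENNReal.ofReal ‖z i ω‖ ≤ R} (fun _ => (1 : ℝ≥0∞))]
  refine ENNReal.tsum_le_tsum fun i => ?_
  have h2 : ∑ j ∈ Finset.range n, (ring j).indicator (fun _ => (1 : ℝ≥0∞)) (z i ω) =
      if ⌊Real.pi * ‖z i ω‖ ^ 2⌋₊ < n then 1 else 0 := by
    have h3 : ∀ j, (ring j).indicator (fun _ => (1 : ℝ≥0∞)) (z i ω) =
        if ⌊Real.pi * ‖z i ω‖ ^ 2⌋₊ = j then 1 else 0 := by
      intro j
      rw [indicator_apply]
      simp only [mem_ring_iff]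
    simp_rw [h3]
    rw [Finset.sum_ite_eq]
    simp
  rw [h2]
  split_ifs with h4
  · have h5 : i ∈ ({i | ENNReal.ofReal ‖z i ω‖ ≤ R} : Set ℕ) := by
      have h6 : Real.pi * ‖z i ω‖ ^ 2 < n := (Nat.floor_lt (by positivity)).1 h4
      by_contra h7
      have h7 : R < ENNReal.ofReal ‖z i ω‖ := not_le.1 h7
      have h8 : ENNReal.ofReal Real.pi * R ^ 2 ≤ ENNReal.ofReal (Real.pi * ‖z i ω‖ ^ 2) := by
        rw [ENNReal.ofReal_mul Real.pi_pos.le, ENNReal.ofReal_pow (norm_nonneg _)]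
        gcongr
      have h9 : ENNReal.ofReal (Real.pi * ‖z i ω‖ ^ 2) < n := by
        rw [← ENNReal.ofReal_natCast]
        exact (ENNReal.ofReal_lt_ofReal_iff_of_nonneg (by positivity)).2 h6
      exact absurd (hn.trans h8) (not_le.2 h9)
    rw [indicator_of_mem h5]
  · exact zero_le

/-- If the radius is `R` at time `t`, then the walk of the particle numbers is negative at the
time `⌊π R²⌋`. -/
lemma walk_neg {Ω : Type} (X : ℕ → Ω → E 2) (Y : ℕ → Ω → Mark) (t : ℝ≥0) (ω : Ω)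
    (hd : NoDouble (dist0 X Y ω))
    (hfin : ∀ j, cnt (fun i ω => X i ω + walk (Y i ω) t) (ring j) ω ≠ ∞)
    (hR : radius X Y t ω ≠ ∞) :
    ∑ j ∈ Finset.range ⌊Real.pi * (radius X Y t ω).toReal ^ 2⌋₊,
      ((cnt (fun i ω => X i ω + walk (Y i ω) t) (ring j) ω).toReal - 1) < 0 := by
  set z : ℕ → Ω → E 2 := fun i ω => X i ω + walk (Y i ω) t with hz
  set R := radius X Y t ω with hRd
  set n := ⌊Real.pi * R.toReal ^ 2⌋₊ with hn
  have h1 := det (dist0 X Y ω) hd t hR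
  have h2 : (n : ℝ) ≤ Real.pi * R.toReal ^ 2 := Nat.floor_le (by positivity)
  have h3 : ENNReal.ofReal (Real.pi * R.toReal ^ 2) = ENNReal.ofReal Real.pi * R ^ 2 := by
    rw [ENNReal.ofReal_mul Real.pi_pos.le, ENNReal.ofReal_pow ENNReal.toReal_nonneg,
      ENNReal.ofReal_toReal hR]
  have h4 : (n : ℝ≥0∞) ≤ ENNReal.ofReal Real.pi * R ^ 2 := by
    rw [← h3, ← ENNReal.ofReal_natCast]
    exact ENNReal.ofReal_le_ofReal h2
  have h5 := sum_rings_le z ω n h4
  have h6 : (∑ j ∈ Finset.range n, cnt z (ring j) ω) + 1 ≤ ENNReal.ofReal Real.pi * R ^ 2 := by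
    refine le_trans ?_ h1
    gcongr
    exact h5
  have h7 : ∑ j ∈ Finset.range n, (cnt z (ring j) ω).toReal + 1 ≤ Real.pi * R.toReal ^ 2 := by
    have h8 : (∑ j ∈ Finset.range n, cnt z (ring j) ω) ≠ ∞ := by
      rw [ne_eq, ENNReal.sum_eq_top]
      push Not
      exact fun j _ => hfin j
    have h9 := ENNReal.toReal_mono (b := ENNReal.ofReal (Real.pi * R.toReal ^ 2))
      ENNReal.ofReal_ne_top (h3 ▸ h6)
    rw [ENNReal.toReal_add h8 ENNReal.one_ne_top, ENNReal.toReal_sum fun j _ => hfin j,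
      ENNReal.toReal_ofReal (by positivity)] at h9
    simpa using h9
  have h10 : Real.pi * R.toReal ^ 2 < n + 1 := Nat.lt_floor_add_one _
  rw [Finset.sum_sub_distrib]
  simp only [Finset.sum_const, Finset.card_range, nsmul_eq_mul, mul_one]
  linarith

/-- The area of the disc is in a window `[m, (1+κ) m]` with a probability which is bounded away
from one. -/
lemma spread_area {κ p : ℝ} {m : ℕ} (hm : ENNReal.ofReal p ≤ (Measure.infinitePi fun _ : ℕ => poi1)
      {x | ∀ n : ℕ, m ≤ n → (n : ℝ) ≤ (1 + κ) * m → 0 ≤ ∑ j ∈ Finset.range n, (x j - 1)})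
    (hrings : S_rings) (hstat : S_stationary) (hjumps : S_jumps) (hnd : S_noDouble)
    {Ω : Type} [MeasurableSpace Ω] (P : Measure Ω) [IsProbabilityMeasure P]
    (X : ℕ → Ω → E 2) (Y : ℕ → Ω → Mark) (h : IsSystem P 1 X Y) (t : ℝ≥0) :
    P {ω | radius X Y t ω ≠ ∞ ∧ (m : ℝ) ≤ Real.pi * (radius X Y t ω).toReal ^ 2 ∧
      Real.pi * (radius X Y t ω).toReal ^ 2 ≤ (1 + κ) * m} ≤ 1 - ENNReal.ofReal p := by
  have hz := hstat Ω P X Y h t
  obtain ⟨r1, r2, r3⟩ := hrings Ω P _ hz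
  set ξ : Ω → ℕ → ℝ := fun ω j => (cnt (fun i ω => X i ω + walk (Y i ω) t) (ring j) ω).toReal
    with hξ
  have hξm : Measurable ξ := measurable_pi_iff.2 r1
  set B : Set (ℕ → ℝ) := {x | ∀ n : ℕ, m ≤ n → (n : ℝ) ≤ (1 + κ) * m →
    0 ≤ ∑ j ∈ Finset.range n, (x j - 1)} with hB
  have hBm : MeasurableSet B := by
    have h1 : B = ⋂ (n : ℕ) (_ : m ≤ n) (_ : (n : ℝ) ≤ (1 + κ) * m),
        {x | 0 ≤ ∑ j ∈ Finset.range n, (x j - 1)} := by
      ext x
      simp [hB]
    rw [h1]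
    refine MeasurableSet.iInter fun n => MeasurableSet.iInter fun _ => MeasurableSet.iInter fun _ => ?_
    exact measurableSet_le measurable_const (by fun_prop)
  have h2 : ENNReal.ofReal p ≤ P (ξ ⁻¹' B) := by
    rw [← Measure.map_apply hξm hBm, r3]
    exact hm
  have hae : ∀ᵐ ω ∂P, NoDouble (dist0 X Y ω) := by
    filter_upwards [hjumps Ω P X Y h] with ω hω
    exact hnd (fun i => X i ω) (fun i => Y i ω) hω.1 hω.2
  have h3 : {ω | radius X Y t ω ≠ ∞ ∧ (m : ℝ) ≤ Real.pi * (radius X Y t ω).toReal ^ 2 ∧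
      Real.pi * (radius X Y t ω).toReal ^ 2 ≤ (1 + κ) * m} ≤ᵐ[P] ((ξ ⁻¹' B)ᶜ : Set Ω) := by
    filter_upwards [hae, r2] with ω hω1 hω2 hω3
    intro hω4
    have h5 := walk_neg X Y t ω hω1 hω2 hω3.1
    have h6 := hω4 ⌊Real.pi * (radius X Y t ω).toReal ^ 2⌋₊ (Nat.le_floor hω3.2.1)
      ((Nat.floor_le (by positivity)).trans hω3.2.2)
    exact absurd h5 (not_lt.2 h6)
  refine (measure_mono_ae h3).trans ?_
  rw [prob_compl_eq_one_sub (hξm hBm)]
  exact tsub_le_tsub_left h2 _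

/-- The radius is in a window `[r, (1+δ) r]` with a probability which is bounded away from one. -/
theorem spread (hrw : S_rw) (hrings : S_rings) (hstat : S_stationary) (hjumps : S_jumps)
    (hnd : S_noDouble) : ∃ δ p r₀ : ℝ, 0 < δ ∧ δ ≤ 1 ∧ 0 < p ∧ 0 < r₀ ∧
    ∀ {Ω : Type} [MeasurableSpace Ω] (P : Measure Ω) [IsProbabilityMeasure P]
    (X : ℕ → Ω → E 2) (Y : ℕ → Ω → Mark), IsSystem P 1 X Y → ∀ (t : ℝ≥0) (r : ℝ), r₀ ≤ r →
    P {ω | ENNReal.ofReal r ≤ radius X Y t ω ∧ radius X Y t ω ≤ ENNReal.ofReal ((1 + δ) * r)} ≤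
      1 - ENNReal.ofReal p := by
  obtain ⟨κ, p, hκ, hp, m₀, hm⟩ := hrw
  refine ⟨min 1 (κ / 6), p, m₀ + 2 / κ + 3, by positivity, min_le_left _ _, hp, by positivity, ?_⟩
  intro Ω _ P _ X Y h t r hr
  set δ := min 1 (κ / 6) with hδ
  have hδ1 : δ ≤ 1 := min_le_left _ _
  have hδ2 : δ ≤ κ / 6 := min_le_right _ _
  have hδ0 : 0 < δ := by positivity
  have hκ2 : 0 < 2 / κ := by positivity
  have hm0' : (0 : ℝ) ≤ m₀ := Nat.cast_nonneg _
  have hr1 : 1 ≤ r := by linarith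
  have hr0 : 0 < r := by linarith
  set m := ⌊Real.pi * r ^ 2⌋₊ with hmd
  have hpi := Real.pi_gt_three
  have hr2 : r ≤ r ^ 2 := by nlinarith
  have hm1 : (m₀ : ℝ) + 2 / κ + 2 ≤ (m : ℝ) := by
    have h1 : Real.pi * r ^ 2 < m + 1 := Nat.lt_floor_add_one _
    have h2 : r ≤ Real.pi * r ^ 2 := by nlinarith
    linarith
  have hm2 : m₀ ≤ m := by
    have : (m₀ : ℝ) ≤ m := by linarith
    exact_mod_cast this
  refine le_trans (measure_mono ?_) (spread_area (hm m hm2) hrings hstat hjumps hnd P X Y h t)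
  rintro ω ⟨h1, h2⟩
  have h3 : radius X Y t ω ≠ ∞ := ne_top_of_le_ne_top ENNReal.ofReal_ne_top h2
  have h4 : r ≤ (radius X Y t ω).toReal := (ENNReal.ofReal_le_iff_le_toReal h3).1 h1
  have h5 : (radius X Y t ω).toReal ≤ (1 + δ) * r :=
    ENNReal.toReal_le_of_le_ofReal (by positivity) h2
  refine ⟨h3, ?_, ?_⟩
  · refine (Nat.floor_le (by positivity)).trans ?_
    gcongr
  · have h6 : Real.pi * (radius X Y t ω).toReal ^ 2 ≤ Real.pi * ((1 + δ) * r) ^ 2 := by gcongr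
    have h7 : Real.pi * r ^ 2 < m + 1 := Nat.lt_floor_add_one _
    have h8 : Real.pi * ((1 + δ) * r) ^ 2 = (1 + δ) ^ 2 * (Real.pi * r ^ 2) := by ring
    have h9 : (1 + δ) ^ 2 ≤ 1 + κ / 2 := by nlinarith
    have h10 : (1 + δ) ^ 2 * (Real.pi * r ^ 2) ≤ (1 + κ / 2) * (m + 1) := by
      have : 0 ≤ Real.pi * r ^ 2 := by positivity
      exact mul_le_mul h9 h7.le this (by positivity)
    have h11 : 1 + κ / 2 ≤ κ / 2 * m := by
      have h12 : 2 / κ + 1 ≤ (m : ℝ) := by linarith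
      calc 1 + κ / 2 = κ / 2 * (2 / κ + 1) := by field_simp
        _ ≤ _ := by gcongr
    nlinarith

/-- No deterministic normalisation. -/
theorem no_limit (hrw : S_rw) (hrings : S_rings) (hstat : S_stationary) (hjumps : S_jumps)
    (hnd : S_noDouble) {Ω : Type} [MeasurableSpace Ω] (P : Measure Ω) [IsProbabilityMeasure P]
    (X : ℕ → Ω → E 2) (Y : ℕ → Ω → Mark) (h : IsSystem P 1 X Y) (g : ℝ≥0 → ℝ)
    (hg : Tendsto g atTop atTop) :
    ¬ ∀ᵐ ω ∂P, Tendsto (fun t => radius X Y t ω / ENNReal.ofReal (g t)) atTop (𝓝 1) := by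
  intro hcon
  obtain ⟨δ, p, r₀, hδ, hδ1, hp, hr₀, hspread⟩ := spread hrw hrings hstat hjumps hnd
  set η := δ / 3 with hη
  have hη0 : 0 < η := by positivity
  have hη1 : (1 + η) * (1 + η) ≤ 1 + δ := by nlinarith
  set f : ℕ → ℝ := fun n => g n / (1 + η) with hf
  set W : ℕ → Set Ω := fun n => {ω | ENNReal.ofReal (f n) ≤ radius X Y n ω ∧
    radius X Y n ω ≤ ENNReal.ofReal ((1 + δ) * f n)} with hW
  set A : ℕ → Set Ω := fun N => {ω | ∀ n, N ≤ n → ω ∈ W n} with hA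
  have hgn : Tendsto (fun n : ℕ => g n) atTop atTop :=
    hg.comp tendsto_natCast_atTop_atTop
  have hfn : Tendsto f atTop atTop := hgn.atTop_div_const (by positivity)
  have hAmono : Monotone A := fun N N' hNN ω hω n hn => hω n (hNN.trans hn)
  have hU : P (⋃ N, A N) = 1 := by
    refine le_antisymm prob_le_one ?_
    have h1 : (univ : Set Ω) ≤ᵐ[P] ⋃ N, A N := by
      filter_upwards [hcon] with ω hω _
      have h2 : Tendsto (fun n : ℕ => radius X Y n ω / ENNReal.ofReal (g n)) atTop (𝓝 1) :=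
        hω.comp tendsto_natCast_atTop_atTop
      have hlo : ENNReal.ofReal (1 / (1 + η)) < 1 := by
        rw [ENNReal.ofReal_lt_one, div_lt_one (by positivity)]
        linarith
      have hhi : (1 : ℝ≥0∞) < ENNReal.ofReal (1 + η) := by
        rw [ENNReal.one_lt_ofReal]
        linarith
      have h3 := (h2.eventually (lt_mem_nhds hlo)).and ((h2.eventually (gt_mem_nhds hhi)).and
        (hgn.eventually_gt_atTop 0))
      obtain ⟨N, hN⟩ := eventually_atTop.1 h3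
      refine mem_iUnion.2 ⟨N, fun n hn => ?_⟩
      obtain ⟨h4, h5, h6⟩ := hN n hn
      have hgne : ENNReal.ofReal (g n) ≠ 0 := by simpa using h6
      have hgnt : ENNReal.ofReal (g n) ≠ ∞ := ENNReal.ofReal_ne_top
      constructor
      · rw [ENNReal.lt_div_iff_mul_lt (Or.inl hgne) (Or.inl hgnt)] at h4
        refine le_trans (le_of_eq ?_) h4.le
        rw [← ENNReal.ofReal_mul (by positivity)]
        congr 1
        simp only [hf]
        ring
      · rw [ENNReal.div_lt_iff (Or.inl hgne) (Or.inl hgnt)] at h5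
        refine h5.le.trans ?_
        rw [← ENNReal.ofReal_mul (by positivity)]
        refine ENNReal.ofReal_le_ofReal ?_
        have h7 : (1 + η) * g n = (1 + η) * (1 + η) * f n := by
          simp only [hf]
          field_simp
        have h8 : 0 ≤ f n := by simp only [hf]; positivity
        rw [h7]
        gcongr
    calc (1 : ℝ≥0∞) = P univ := measure_univ.symm
      _ ≤ _ := measure_mono_ae h1
  rw [hAmono.measure_iUnion] at hU
  have h1 : ∀ N, P (A N) ≤ 1 - ENNReal.ofReal p := by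
    intro N
    obtain ⟨n, hn1, hn2⟩ := ((eventually_ge_atTop N).and (hfn.eventually_ge_atTop r₀)).exists
    have h0 : A N ⊆ W n := fun ω hω => hω n hn1
    exact (measure_mono h0).trans (hspread P X Y h n (f n) hn2)
  have h2 : (1 : ℝ≥0∞) ≤ 1 - ENNReal.ofReal p :=
    calc (1 : ℝ≥0∞) = ⨆ N, P (A N) := hU.symm
      _ ≤ _ := iSup_le h1
  have h3 : (1 : ℝ≥0∞) - ENNReal.ofReal p < 1 :=
    ENNReal.sub_lt_self ENNReal.one_ne_top one_ne_zero (by simpa using hp)
  exact absurd h2 (not_le.2 h3)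

end Pool.Agent.H949.PM
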