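import Pool.Agent.H949.PM.Stmts

/-!
# Two random walks do not enter a disc at the same time (deterministic)

Paper proof of `S_noDouble`. Claim: let `m` be a mark with `∀ t, ∃ k, t < arrival m k`, let `b : ℝ≥0`,
`a < b`, and suppose that `b ≠ arrival m k` for all `k`. Then there is `s` with `a ≤ s < b` and
`walk m s = walk m b`. Proof: let `n = jumps m b = sInf {k | b < arrival m k}`; the set is nonempty, so
`b < arrival m n` and, for `k < n`, `arrival m k ≤ b`, hence `arrival m k < b`. Let
`s = max (a, arrival m k for k < n)` (as an element of `ℝ≥0`, so `max` with `0`), so `a ≤ s < b`. For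
`k < n`: `¬ (s < arrival m k)`, and `s < b < arrival m n`, so `jumps m s = n = jumps m b` and the walks
agree.

Now let `NoDouble` be given with `a, b, r, i, j` and suppose `i ≠ j`. By the claim and
`ρ i s > r ≥ ρ i b` for all `s ∈ [a,b)`, the time `b` is an arrival time of `m i`; in the same way it is
an arrival time of `m j`. This contradicts the hypothesis that arrival times are different.
-/

set_option autoImplicit false

namespace Pool.Agent.H949.PM

open MeasureTheory ProbabilityTheory Set Filter Topology
open scoped ENNReal NNReal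
open Pool.Agent.Helper712_LP

/-- between two jumps the walk is constant: `b` can be replaced by an earlier time -/
theorem exists_earlier (m : Mark) (hm : ∀ t : ℝ, ∃ k, t < arrival m k) {a b : ℝ≥0} (hab : a < b)
    (hb : ∀ k, arrival m k ≠ b) : ∃ s, a ≤ s ∧ s < b ∧ walk m s = walk m b := by
  have hne : {k | (b : ℝ) < arrival m k}.Nonempty := hm b
  have h1 : (b : ℝ) < arrival m (jumps m b) := Nat.sInf_mem hne
  have h2 : ∀ k < jumps m b, arrival m k < b := by
    intro k hk
    have h3 : k ∉ {k | (b : ℝ) < arrival m k} := Nat.notMem_of_lt_sInf hk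
    exact lt_of_le_of_ne (not_lt.1 h3) (hb k)
  have hb0 : (0 : ℝ≥0) < b := lt_of_le_of_lt bot_le hab
  set s : ℝ≥0 := max a ((Finset.range (jumps m b)).sup fun k => (arrival m k).toNNReal) with hs
  have hsb : s < b := by
    refine max_lt hab ((Finset.sup_lt_iff (by exact hb0)).2 fun k hk => ?_)
    have h3 := h2 k (Finset.mem_range.1 hk)
    rcases le_total 0 (arrival m k) with h4 | h4
    · rw [← NNReal.coe_lt_coe, Real.coe_toNNReal _ h4]
      exact h3
    · rw [Real.toNNReal_of_nonpos h4]
      exact hb0
  have hks : ∀ k < jumps m b, arrival m k ≤ s := by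
    intro k hk
    refine (Real.le_coe_toNNReal _).trans ?_
    rw [NNReal.coe_le_coe]
    exact (Finset.le_sup (f := fun k => (arrival m k).toNNReal) (Finset.mem_range.2 hk)).trans
      (le_max_right _ _)
  have hsb' : (s : ℝ) < b := by exact_mod_cast hsb
  have hj : jumps m s = jumps m b := by
    have h3 : jumps m b ∈ {k | (s : ℝ) < arrival m k} := hsb'.trans h1
    refine le_antisymm (Nat.sInf_le h3) ?_
    refine le_csInf ⟨_, h3⟩ fun k hk => ?_
    by_contra h4
    exact absurd (hks k (not_le.1 h4)) (not_le.2 hk)
  refine ⟨s, le_max_left _ _, hsb, ?_⟩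
  unfold walk
  rw [hj]

theorem noDouble : S_noDouble := by
  intro x m hdiff hinf a b r i j hab hi hj hib hjb
  have key : ∀ i, (∀ s, a ≤ s → s < b → r < ENNReal.ofReal ‖x i + walk (m i) s‖) →
      ENNReal.ofReal ‖x i + walk (m i) b‖ ≤ r → ∃ k, arrival (m i) k = b := by
    intro i hi hib
    by_contra hcon
    push Not at hcon
    obtain ⟨s, h1, h2, h3⟩ := exists_earlier (m i) (hinf i) hab hcon
    have h4 := hi s h1 h2
    rw [h3] at h4
    exact absurd hib (not_le.2 h4)
  by_contra hne
  obtain ⟨k, hk⟩ := key i hi hib
  obtain ⟨l, hl⟩ := key j hj hjb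
  exact hdiff i j hne k l (hk.trans hl.symm)

end Pool.Agent.H949.PM
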