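import Pool.Agent.H949.PM.Stmts2

/-!
# Lower tail of Poisson variables

Proof of `S_poisTail`: monotonicity in the intensity (convolution), characteristic functions and
Lévy's continuity theorem for `(N_n - n) / √n`, the portmanteau theorem for `(-∞, -(K + 1))`.
-/

set_option autoImplicit false

namespace Pool.Agent.H949.PM

open MeasureTheory ProbabilityTheory Set Filter Topology
open scoped ENNReal NNReal

namespace PoisTailN

lemma mono_l {l n : ℝ≥0} (h : l ≤ n) (a : ℝ) :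
    poissonMeasure n {k : ℕ | (k : ℝ) ≤ a} ≤ poissonMeasure l {k : ℕ | (k : ℝ) ≤ a} := by
  have h1 : poissonMeasure n = (poissonMeasure l).conv (poissonMeasure (n - l)) := by
    rw [poissonMeasure_conv_poissonMeasure, add_tsub_cancel_of_le h]
  rw [h1, Measure.conv, Measure.map_apply (by fun_prop) (MeasurableSet.of_discrete)]
  refine (measure_mono (t := {k : ℕ | (k : ℝ) ≤ a} ×ˢ univ) ?_).trans ?_
  · rintro ⟨x, y⟩ hxy
    refine ⟨?_, mem_univ _⟩
    have h2 : ((x + y : ℕ) : ℝ) ≤ a := hxy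
    show (x : ℝ) ≤ a
    push_cast at h2
    have : (0 : ℝ) ≤ y := Nat.cast_nonneg y
    linarith
  · rw [Measure.prod_prod, measure_univ, mul_one]

/-- the law of `(N_n - n) / √n` -/
noncomputable def mu (n : ℕ) : Measure ℝ :=
  (((poissonMeasure (n : ℝ≥0)).map (Nat.cast : ℕ → ℝ)).map (fun x => x + (-(n : ℝ)))).map
    (fun x => (√(n : ℝ))⁻¹ * x)

instance (n : ℕ) : IsProbabilityMeasure (mu n) := by
  unfold mu
  have h1 : IsProbabilityMeasure ((poissonMeasure (n : ℝ≥0)).map (Nat.cast : ℕ → ℝ)) :=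
    Measure.isProbabilityMeasure_map (by fun_prop)
  have h2 : IsProbabilityMeasure
      (((poissonMeasure (n : ℝ≥0)).map (Nat.cast : ℕ → ℝ)).map (fun x => x + (-(n : ℝ)))) :=
    Measure.isProbabilityMeasure_map (by fun_prop)
  exact Measure.isProbabilityMeasure_map (by fun_prop)

lemma cf (n : ℕ) (t : ℝ) : charFun (mu n) t =
    Complex.exp (n * (Complex.exp (((√(n : ℝ))⁻¹ * t : ℝ) * Complex.I) - 1 -
      ((√(n : ℝ))⁻¹ * t : ℝ) * Complex.I)) := by
  unfold mu
  rw [charFun_map_mul, charFun_map_add_const, charFun_map_cast_poissonMeasure, ← Complex.exp_add]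
  congr 1
  simp only [Real.inner_apply]
  push_cast
  ring

lemma aux_r {r n : ℝ} (hr : 0 < r) (h : r * r = n) (a b : ℝ) :
    n * ((r⁻¹ * a) ^ 3 * b) = a ^ 3 * b * r⁻¹ := by
  rw [← h]
  field_simp

lemma lim (t : ℝ) : Tendsto (fun n : ℕ => charFun (mu n) t) atTop
    (𝓝 (charFun (gaussianReal 0 1) t)) := by
  rw [charFun_gaussianReal]
  have h1 : Tendsto (fun n : ℕ => ((n : ℂ) * (Complex.exp (((√(n : ℝ))⁻¹ * t : ℝ) * Complex.I) - 1 -
      ((√(n : ℝ))⁻¹ * t : ℝ) * Complex.I))) atTop (𝓝 (-(t : ℂ) ^ 2 / 2)) := by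
    rw [tendsto_iff_norm_sub_tendsto_zero]
    have h2 : Tendsto (fun n : ℕ => |t| ^ 3 * Real.exp |t| * (√(n : ℝ))⁻¹) atTop (𝓝 0) := by
      have := (tendsto_inv_atTop_zero.comp (Real.tendsto_sqrt_atTop.comp
        (tendsto_natCast_atTop_atTop (R := ℝ)))).const_mul (|t| ^ 3 * Real.exp |t|)
      rwa [mul_zero] at this
    refine squeeze_zero' (Eventually.of_forall fun n => norm_nonneg _) ?_ h2
    filter_upwards [eventually_ge_atTop 1] with n hn
    have hn1 : (1 : ℝ) ≤ n := by exact_mod_cast hn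
    have hs1 : 1 ≤ √(n : ℝ) := Real.one_le_sqrt.2 hn1
    have hs0 : 0 < √(n : ℝ) := by linarith
    have hsq : √(n : ℝ) * √(n : ℝ) = n := Real.mul_self_sqrt (by linarith)
    set θ : ℝ := (√(n : ℝ))⁻¹ * t with hθ
    have e1 : (n : ℂ) * (θ : ℂ) ^ 2 = (t : ℂ) ^ 2 := by
      have : (n : ℝ) * θ ^ 2 = t ^ 2 := by
        rw [hθ, mul_pow, inv_pow, Real.sq_sqrt (by linarith)]
        field_simp
      exact_mod_cast this
    have e2 : (n : ℂ) * (Complex.exp ((θ : ℂ) * Complex.I) - 1 - (θ : ℂ) * Complex.I) -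
        -(t : ℂ) ^ 2 / 2 = (n : ℂ) * (Complex.exp ((θ : ℂ) * Complex.I) -
          ∑ m ∈ Finset.range 3, ((θ : ℂ) * Complex.I) ^ m / (m.factorial : ℂ)) := by
      have hI : ((θ : ℂ) * Complex.I) ^ 2 = -(θ : ℂ) ^ 2 := by
        rw [mul_pow, Complex.I_sq]; ring
      simp only [Finset.sum_range_succ, Finset.sum_range_zero, Nat.factorial, hI]
      push_cast
      rw [← e1]
      ring
    rw [e2, norm_mul]
    have h3 := Complex.norm_exp_sub_sum_le_norm_mul_exp ((θ : ℂ) * Complex.I) 3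
    have e3 : ‖(θ : ℂ) * Complex.I‖ = |θ| := by
      rw [norm_mul, Complex.norm_I, mul_one, Complex.norm_real, Real.norm_eq_abs]
    rw [e3] at h3
    have e4 : ‖(n : ℂ)‖ = n := by simp
    rw [e4]
    have e5 : |θ| = (√(n : ℝ))⁻¹ * |t| := by
      rw [hθ, abs_mul, abs_of_pos (inv_pos.2 hs0)]
    have e6 : |θ| ≤ |t| := by
      rw [e5]
      have : (√(n : ℝ))⁻¹ ≤ 1 := inv_le_one_of_one_le₀ hs1
      nlinarith [abs_nonneg t]
    calc (n : ℝ) * ‖Complex.exp ((θ : ℂ) * Complex.I) -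
          ∑ m ∈ Finset.range 3, ((θ : ℂ) * Complex.I) ^ m / (m.factorial : ℂ)‖
        ≤ n * (|θ| ^ 3 * Real.exp |θ|) := mul_le_mul_of_nonneg_left h3 (by linarith)
      _ ≤ n * (|θ| ^ 3 * Real.exp |t|) := by
          refine mul_le_mul_of_nonneg_left ?_ (by linarith)
          exact mul_le_mul_of_nonneg_left (Real.exp_le_exp.2 e6) (by positivity)
      _ = |t| ^ 3 * Real.exp |t| * (√(n : ℝ))⁻¹ := by
          rw [e5]
          exact aux_r hs0 hsq _ _
  have h2 := (Complex.continuous_exp.tendsto _).comp h1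
  have h3 : Complex.exp (-(t : ℂ) ^ 2 / 2) = Complex.exp (t * (0 : ℝ) * Complex.I - (1 : ℝ≥0) * t ^ 2 / 2) := by
    congr 1
    push_cast
    ring
  rw [← h3]
  refine h2.congr' ?_
  filter_upwards [eventually_ge_atTop 1] with n hn
  rw [cf n t]
  rfl

/-- the law of `(N_n - n) / √n` as a probability measure -/
noncomputable def muP (n : ℕ) : ProbabilityMeasure ℝ := ⟨mu n, inferInstance⟩

/-- the standard Gaussian law as a probability measure -/
noncomputable def gP : ProbabilityMeasure ℝ := ⟨gaussianReal 0 1, inferInstance⟩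

lemma clt : Tendsto muP atTop (𝓝 gP) :=
  ProbabilityMeasure.tendsto_iff_tendsto_charFun.2 lim

lemma gauss_pos (c : ℝ) : 0 < gaussianReal 0 1 (Iio c) := by
  rw [pos_iff_ne_zero]
  intro h
  have h1 := gaussianReal_absolutelyContinuous' 0 (v := 1) one_ne_zero h
  rw [Real.volume_Iio] at h1
  exact ENNReal.top_ne_zero h1

lemma mu_apply (n : ℕ) (c : ℝ) : mu n (Iio c) =
    poissonMeasure (n : ℝ≥0) {k : ℕ | (√(n : ℝ))⁻¹ * ((k : ℝ) + (-(n : ℝ))) < c} := by
  unfold mu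
  rw [Measure.map_apply (by fun_prop) measurableSet_Iio,
    Measure.map_apply (by fun_prop) (measurableSet_Iio.preimage (by fun_prop)),
    Measure.map_apply (by fun_prop)
      ((measurableSet_Iio.preimage (by fun_prop)).preimage (by fun_prop))]
  rfl

lemma ev (c : ℝ) : ∃ p : ℝ, 0 < p ∧ ∃ n₀ : ℕ, ∀ n : ℕ, n₀ ≤ n →
    ENNReal.ofReal p ≤ mu n (Iio c) := by
  have h1 := ProbabilityMeasure.le_liminf_measure_open_of_tendsto clt (isOpen_Iio (a := c))
  have h2 : 0 < gaussianReal 0 1 (Iio c) := gauss_pos c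
  have h3 : gaussianReal 0 1 (Iio c) ≠ ∞ := measure_ne_top _ _
  have h4 : gaussianReal 0 1 (Iio c) / 2 < gaussianReal 0 1 (Iio c) :=
    ENNReal.half_lt_self h2.ne' h3
  have h5 : gaussianReal 0 1 (Iio c) / 2 < atTop.liminf fun n => (muP n : Measure ℝ) (Iio c) :=
    h4.trans_le h1
  have h6 := Filter.eventually_lt_of_lt_liminf h5
  obtain ⟨n₀, hn₀⟩ := eventually_atTop.1 h6
  refine ⟨(gaussianReal 0 1 (Iio c) / 2).toReal, ?_, n₀, fun n hn => ?_⟩
  · refine ENNReal.toReal_pos (ENNReal.half_pos h2.ne').ne' ?_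
    exact (h4.trans_le le_top).ne
  · rw [ENNReal.ofReal_toReal (h4.trans_le le_top).ne]
    exact (hn₀ n hn).le

end PoisTailN

open PoisTailN

theorem poisTail : S_poisTail := by
  intro K hK
  obtain ⟨p, hp, n₀, hn₀⟩ := ev (-(K + 1))
  refine ⟨p, hp, max n₀ 1, fun M hM l hl => ?_⟩
  have hM1 : (1 : ℝ) ≤ M := (le_max_right _ _).trans hM
  have hM0 : (n₀ : ℝ) ≤ M := (le_max_left _ _).trans hM
  set n : ℕ := ⌈M⌉₊ with hn
  have hnM : M ≤ n := Nat.le_ceil M
  have hnM1 : (n : ℝ) < M + 1 := Nat.ceil_lt_add_one (by linarith)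
  have hn0 : n₀ ≤ n := by exact_mod_cast hM0.trans hnM
  have hln : l ≤ (n : ℝ≥0) := by
    rw [← NNReal.coe_le_coe]
    push_cast
    exact hl.trans hnM
  refine (hn₀ n hn0).trans ?_
  rw [mu_apply]
  refine le_trans (measure_mono ?_) (mono_l hln _)
  intro k hk
  have hk : (√(n : ℝ))⁻¹ * ((k : ℝ) + (-(n : ℝ))) < -(K + 1) := hk
  show (k : ℝ) ≤ M - K * √M
  have hs : 0 < √(n : ℝ) := Real.sqrt_pos.2 (by linarith)
  have h1 : (k : ℝ) + (-(n : ℝ)) < -(K + 1) * √(n : ℝ) := by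
    rw [inv_mul_lt_iff₀ hs] at hk
    linarith
  have h2 : √M ≤ √(n : ℝ) := Real.sqrt_le_sqrt hnM
  have h3 : 1 ≤ √M := Real.one_le_sqrt.2 hM1
  nlinarith

end Pool.Agent.H949.PM
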