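import Pool.Agent.H949.PM.Stmts

/-!
# A centred random walk stays nonnegative during `[m, (1+κ)m]` with positive probability

Paper proof of `S_rw`. Let `x_0, x_1, …` be i.i.d. Poisson(1) (the coordinates under
`Measure.infinitePi (fun _ => poi1)`), `S_n = ∑_{j<n} (x_j - 1)`; mean `0` and variance `1` per step.

(a) CLT: `S_m/√m` converges in distribution to `N(0,1)` (Mathlib:
`ProbabilityTheory.tendstoInDistribution_inv_sqrt_mul_sum` in `Probability/CentralLimitTheorem.lean`);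
by the portmanteau theorem for the open set `(1,∞)`,
`liminf P(S_m > √m) ≥ P(N(0,1) > 1) =: 2p > 0`
(positivity because the Gaussian density is positive; or: `gaussianReal` is mutually absolutely
continuous with respect to the volume). So `P(S_m > √m) ≥ p` for `m ≥ m₀`; let `κ = p/2` (with `p ≤ 1`).

(b) Kolmogorov's maximal inequality: `P(max_{k ≤ K} |S_{m+k} - S_m| ≥ √m) ≤ K/m`. With
`K = ⌊κ m⌋` this is at most `κ = p/2`. (Mathlib has `MeasureTheory.maximal_ineq` for nonnegative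
submartingales; or prove Kolmogorov's inequality directly: if `A_k` is the event that `k` is the first
index with `|T_k| ≥ λ`, `T_k = S_{m+k} - S_m`, then
`E T_K² ≥ ∑_k E[T_K² ; A_k] ≥ ∑_k E[T_k² ; A_k] ≥ λ² P(⋃ A_k)`, where the middle inequality uses the
independence of `T_k 1_{A_k}` and `T_K - T_k`. A maximal inequality may also exist in the library.)

On the event of (a) without the event of (b), `S_n ≥ 0` for all `n` with
`m ≤ n ≤ (1+κ) m`, so the probability is at least `p - p/2 = p/2`.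

The mean and variance of Poisson(1): compute `∑ n e^{-1}/n! = 1`, `∑ n² e^{-1}/n! = 2` (or via
`integral_poissonMeasure`, or the moment generating/characteristic function in
`Mathlib/Probability/Distributions/Poisson/Basic.lean`).
-/

set_option autoImplicit false

namespace Pool.Agent.H949.PM

open MeasureTheory ProbabilityTheory Set Filter Topology
open scoped ENNReal NNReal

lemma rw_sum0 : HasSum (fun n : ℕ => (1 : ℝ) / (n.factorial : ℝ)) (Real.exp 1) := by
  have h := NormedSpace.expSeries_div_hasSum_exp (𝔸 := ℝ) (1 : ℝ)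
  rw [← Real.exp_eq_exp_ℝ] at h
  simpa using h

lemma rw_sum1 : HasSum (fun n : ℕ => (n : ℝ) / (n.factorial : ℝ)) (Real.exp 1) := by
  rw [← hasSum_nat_add_iff' 1]
  have : (fun n : ℕ => ((n + 1 : ℕ) : ℝ) / ((n + 1).factorial : ℝ)) =
      fun n : ℕ => (1 : ℝ) / (n.factorial : ℝ) := by
    funext n
    rw [Nat.factorial_succ]
    push_cast
    have h1 : (n : ℝ) + 1 ≠ 0 := by positivity
    have h2 : (n.factorial : ℝ) ≠ 0 := by positivity
    field_simp
  rw [this]
  simpa using rw_sum0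

lemma rw_sum2 : HasSum (fun n : ℕ => (n : ℝ) ^ 2 / (n.factorial : ℝ)) (2 * Real.exp 1) := by
  rw [← hasSum_nat_add_iff' 1]
  have : (fun n : ℕ => ((n + 1 : ℕ) : ℝ) ^ 2 / ((n + 1).factorial : ℝ)) =
      fun n : ℕ => (n : ℝ) / (n.factorial : ℝ) + (1 : ℝ) / (n.factorial : ℝ) := by
    funext n
    rw [Nat.factorial_succ]
    push_cast
    have h1 : (n : ℝ) + 1 ≠ 0 := by positivity
    have h2 : (n.factorial : ℝ) ≠ 0 := by positivity
    field_simp
  rw [this]
  have h := rw_sum1.add rw_sum0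
  simpa [two_mul] using h

lemma rw_mean : ∫ y, (y - 1) ∂poi1 = 0 := by
  unfold poi1
  rw [integral_map .of_discrete (by fun_prop), integral_poissonMeasure]
  have h := ((rw_sum1.sub rw_sum0).mul_left (Real.exp (-1))).tsum_eq
  simp only [sub_self, mul_zero] at h
  rw [← h]
  congr 1
  funext n
  simp only [NNReal.coe_one, one_pow, smul_eq_mul]
  ring

lemma rw_hs2 : HasSum (fun n : ℕ => Real.exp (-1) * 1 ^ n / (n.factorial : ℝ) * ((n : ℝ) - 1) ^ 2) 1 := by
  have h := ((rw_sum2.sub (rw_sum1.mul_left 2)).add rw_sum0).mul_left (Real.exp (-1))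
  have he : Real.exp (-1) * (2 * Real.exp 1 - 2 * Real.exp 1 + Real.exp 1) = 1 := by
    rw [sub_self, zero_add, ← Real.exp_add]; simp
  rw [he] at h
  have hf : (fun n : ℕ => Real.exp (-1) * 1 ^ n / (n.factorial : ℝ) * ((n : ℝ) - 1) ^ 2) =
      fun n : ℕ => Real.exp (-1) * ((n : ℝ) ^ 2 / (n.factorial : ℝ) -
        2 * ((n : ℝ) / (n.factorial : ℝ)) + 1 / (n.factorial : ℝ)) := by
    funext n
    rw [one_pow]
    ring
  rw [hf]
  exact h

lemma rw_sq : ∫ y, (y - 1) ^ 2 ∂poi1 = 1 := by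
  unfold poi1
  rw [integral_map .of_discrete (by fun_prop), integral_poissonMeasure]
  have h := rw_hs2.tsum_eq
  simp only [NNReal.coe_one, smul_eq_mul]
  exact h

lemma rw_int2 : Integrable (fun y : ℝ => (y - 1) ^ 2) poi1 := by
  unfold poi1
  rw [integrable_map_measure (by fun_prop) .of_discrete, integrable_poissonMeasure_iff]
  have h := rw_hs2.summable
  simp only [Function.comp, NNReal.coe_one, Real.norm_eq_abs, abs_pow, sq_abs]
  exact h

lemma rw_memLp : MemLp (fun y : ℝ => y - 1) 2 poi1 := by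
  rw [memLp_two_iff_integrable_sq (by fun_prop)]
  exact rw_int2

lemma rw_mart {Ω : Type*} [MeasurableSpace Ω] {P : Measure Ω} [IsProbabilityMeasure P]
    {g : ℕ → Ω → ℝ} (hg : ∀ i, StronglyMeasurable (g i)) (hind : iIndepFun g P)
    (hint : ∀ i, Integrable (g i) P) (h0 : ∀ i, ∫ ω, g i ω ∂P = 0) :
    Martingale (fun k ω => ∑ j ∈ Finset.range k, g (j + 1) ω) (Filtration.natural g hg) P := by
  apply martingale_of_condExp_sub_eq_zero_nat
  · intro k
    have h : ∀ j ∈ Finset.range k,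
        StronglyMeasurable[(Filtration.natural g hg) k] (g (j + 1)) := by
      intro j hj
      have hj' := Finset.mem_range.mp hj
      exact (Filtration.stronglyAdapted_natural hg (j + 1)).mono
        ((Filtration.natural g hg).mono (by omega))
    exact Finset.stronglyMeasurable_fun_sum _ h
  · intro i
    exact integrable_finsetSum _ (fun j _ => hint _)
  · intro i
    have h : (fun ω => ∑ j ∈ Finset.range (i + 1), g (j + 1) ω) -
        (fun ω => ∑ j ∈ Finset.range i, g (j + 1) ω) = g (i + 1) := by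
      funext ω
      simp [Finset.sum_range_succ]
    rw [h]
    filter_upwards [hind.condExp_natural_ae_eq_of_lt hg (Nat.lt_succ_self i)] with ω hω
    rw [hω, h0]
    rfl

lemma rw_second {Ω : Type*} [MeasurableSpace Ω] {P : Measure Ω} [IsProbabilityMeasure P]
    {g : ℕ → Ω → ℝ} (hind : iIndepFun g P)
    (hL : ∀ i, MemLp (g i) 2 P) (h0 : ∀ i, ∫ ω, g i ω ∂P = 0) (h1 : ∀ i, ∫ ω, g i ω ^ 2 ∂P = 1)
    (K : ℕ) : MemLp (fun ω => ∑ j ∈ Finset.range K, g (j + 1) ω) 2 P ∧
      ∫ ω, (∑ j ∈ Finset.range K, g (j + 1) ω) ^ 2 ∂P = K := by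
  have hs : (fun ω => ∑ j ∈ Finset.range K, g (j + 1) ω) = ∑ j ∈ Finset.range K, g (j + 1) := by
    funext ω
    simp
  have hM : MemLp (fun ω => ∑ j ∈ Finset.range K, g (j + 1) ω) 2 P := by
    rw [hs]
    exact memLp_finsetSum' _ (fun j _ => hL _)
  refine ⟨hM, ?_⟩
  have hv := IndepFun.variance_sum (μ := P) (X := fun j => g (j + 1)) (s := Finset.range K)
    (fun j _ => hL _) (fun i _ j _ hij => hind.indepFun (by omega))
  have hz : ∫ ω, (∑ j ∈ Finset.range K, g (j + 1) ω) ∂P = 0 := by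
    rw [integral_finsetSum _ (fun j _ => (hL _).integrable (by norm_num))]
    simp [h0]
  have h2 := variance_of_integral_eq_zero (μ := P) hM.aemeasurable hz
  rw [← h2, hs, hv]
  have h3 : ∀ j ∈ Finset.range K, variance (g (j + 1)) P = 1 := by
    intro j _
    rw [variance_of_integral_eq_zero (hL _).aemeasurable (h0 _), h1]
  rw [Finset.sum_congr rfl h3]
  simp

lemma rw_max {Ω : Type*} [MeasurableSpace Ω] {P : Measure Ω} [IsProbabilityMeasure P]
    {g : ℕ → Ω → ℝ} (hg : ∀ i, StronglyMeasurable (g i)) (hind : iIndepFun g P)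
    (hL : ∀ i, MemLp (g i) 2 P) (h0 : ∀ i, ∫ ω, g i ω ∂P = 0) (h1 : ∀ i, ∫ ω, g i ω ^ 2 ∂P = 1)
    (K : ℕ) (c ε : ℝ) (hc : 0 < c) (hK : (K : ℝ) ≤ c ^ 2) (hε : 0 < ε) :
    P {ω | ∃ k ≤ K, ∑ j ∈ Finset.range k, g (j + 1) ω ≤ -ε} ≤ ENNReal.ofReal (c / ε) := by
  have hint : ∀ i, Integrable (g i) P := fun i => (hL i).integrable (by norm_num)
  obtain ⟨f, hf⟩ : ∃ f : ℕ → Ω → ℝ,
      f = fun k ω => max (-(∑ j ∈ Finset.range k, g (j + 1) ω)) 0 := ⟨_, rfl⟩
  have hmart : Submartingale f (Filtration.natural g hg) P := by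
    rw [hf]
    exact (rw_mart hg hind hint h0).neg.submartingale.pos
  obtain ⟨hM, hsq⟩ := rw_second hind hL h0 h1 K
  have hf0 : 0 ≤ f := by
    rw [hf]
    intro k ω
    exact le_max_right _ _
  obtain ⟨A, hA, hmax⟩ : ∃ A : Set Ω, (∀ ω k, k ≤ K → ε ≤ f k ω → ω ∈ A) ∧
      ENNReal.ofReal ε * P A ≤ ENNReal.ofReal (∫ ω in A, f K ω ∂P) := by
    refine ⟨_, ?_, maximal_ineq hmart hf0 (ε := ε.toNNReal) K⟩
    intro ω k hk hω
    change ((ε.toNNReal : ℝ≥0) : ℝ) ≤ _
    rw [Real.coe_toNNReal ε hε.le]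
    exact le_trans hω
      (Finset.le_sup' (fun k => f k ω) (Finset.mem_range.mpr (Nat.lt_succ_of_le hk)))
  have hsub : {ω | ∃ k ≤ K, ∑ j ∈ Finset.range k, g (j + 1) ω ≤ -ε} ⊆ A := by
    rintro ω ⟨k, hk, hω⟩
    refine hA ω k hk ?_
    rw [hf]
    refine le_trans ?_ (le_max_left _ _)
    change ε ≤ -(∑ j ∈ Finset.range k, g (j + 1) ω)
    linarith
  have hfK : Integrable (f K) P := hmart.integrable K
  have hI : ∫ ω in A, f K ω ∂P ≤ c := by
    refine (setIntegral_le_integral hfK (Eventually.of_forall fun ω => hf0 K ω)).trans ?_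
    have hle : ∀ ω, f K ω ≤ (2 * c)⁻¹ * (∑ j ∈ Finset.range K, g (j + 1) ω) ^ 2 + c / 2 := by
      intro ω
      rw [hf]
      obtain ⟨t, ht⟩ : ∃ t, t = ∑ j ∈ Finset.range K, g (j + 1) ω := ⟨_, rfl⟩
      simp only [← ht]
      have h5 : (2 * c)⁻¹ * t ^ 2 + c / 2 + t = (t + c) ^ 2 / (2 * c) := by
        field_simp
        ring
      have h6 : 0 ≤ (t + c) ^ 2 / (2 * c) := by positivity
      have h7 : 0 ≤ (2 * c)⁻¹ * t ^ 2 + c / 2 := by positivity
      exact max_le (by linarith) h7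
    have h8 : Integrable (fun ω => (2 * c)⁻¹ * (∑ j ∈ Finset.range K, g (j + 1) ω) ^ 2 + c / 2) P :=
      (hM.integrable_sq.const_mul _).add (integrable_const _)
    refine (integral_mono hfK h8 hle).trans ?_
    rw [integral_add (hM.integrable_sq.const_mul _) (integrable_const _), integral_const_mul, hsq]
    simp only [integral_const, probReal_univ, one_smul]
    have h9 : (2 * c)⁻¹ * (K : ℝ) ≤ (2 * c)⁻¹ * c ^ 2 :=
      mul_le_mul_of_nonneg_left hK (by positivity)
    have h10 : (2 * c)⁻¹ * c ^ 2 = c / 2 := by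
      field_simp
    linarith
  have h11 : ENNReal.ofReal ε * P A ≤ ENNReal.ofReal c :=
    hmax.trans (ENNReal.ofReal_le_ofReal hI)
  refine (measure_mono hsub).trans ?_
  rw [ENNReal.ofReal_div_of_pos hε, ENNReal.le_div_iff_mul_le
    (Or.inl (by simpa using hε)) (Or.inl ENNReal.ofReal_ne_top), mul_comm]
  exact h11

lemma rw_clt {Ω : Type*} [MeasurableSpace Ω] {P : Measure Ω} [IsProbabilityMeasure P]
    {X : ℕ → Ω → ℝ} (hX : ∀ i, Measurable (X i)) (hind : iIndepFun X P)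
    (hid : ∀ i, IdentDistrib (X i) (X 0) P P)
    (h0 : ∫ ω, X 0 ω ∂P = 0) (h1 : ∫ ω, X 0 ω ^ 2 ∂P = 1) :
    ∃ p : ℝ, 0 < p ∧ ∀ᶠ m : ℕ in atTop,
      ENNReal.ofReal p ≤ P {ω | √(m : ℝ) < ∑ j ∈ Finset.range m, X j ω} := by
  have hY : HasLaw (id : ℝ → ℝ) (gaussianReal 0 1) (gaussianReal 0 1) := HasLaw.id
  have h := (tendstoInDistribution_inv_sqrt_mul_sum hY h0 h1 hind hid).tendsto
  have h2 := ProbabilityMeasure.le_liminf_measure_open_of_tendsto h (isOpen_Ioi (a := (1 : ℝ)))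
  have hpos : 0 < gaussianReal 0 1 (Ioi (1 : ℝ)) := by
    rw [pos_iff_ne_zero]
    intro hz
    have := gaussianReal_absolutelyContinuous' 0 (one_ne_zero) hz
    simp at this
  obtain ⟨q, hq⟩ : ∃ q : ℝ≥0∞, q = gaussianReal 0 1 (Ioi (1 : ℝ)) := ⟨_, rfl⟩
  have hqfin : q ≠ ∞ := by rw [hq]; exact measure_ne_top _ _
  refine ⟨(q / 2).toReal, ?_, ?_⟩
  · rw [ENNReal.toReal_pos_iff]
    refine ⟨ENNReal.div_pos (by rw [hq]; exact hpos.ne') (by norm_num), ?_⟩
    exact ENNReal.div_lt_top hqfin (by norm_num)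
  · rw [ENNReal.ofReal_toReal (ENNReal.div_lt_top hqfin (by norm_num)).ne]
    have hlt : q / 2 < gaussianReal 0 1 (Ioi (1 : ℝ)) := by
      rw [← hq]
      exact ENNReal.half_lt_self (by rw [hq]; exact hpos.ne') hqfin
    have h3 : q / 2 < liminf (fun m : ℕ => P.map (fun ω => (√(m : ℝ))⁻¹ *
        ∑ k ∈ Finset.range m, X k ω) (Ioi (1 : ℝ))) atTop := by
      refine lt_of_lt_of_le hlt ?_
      have h4 := h2
      simp only [ProbabilityMeasure.coe_mk, Measure.map_id] at h4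
      exact h4
    filter_upwards [eventually_lt_of_lt_liminf h3, eventually_ge_atTop 1] with m hm hm1
    refine hm.le.trans ?_
    have hmeas : Measurable (fun ω => (√(m : ℝ))⁻¹ * ∑ k ∈ Finset.range m, X k ω) :=
      (Finset.measurable_fun_sum _ fun i _ => hX i).const_mul _
    rw [Measure.map_apply hmeas measurableSet_Ioi]
    refine measure_mono ?_
    intro ω hω
    simp only [mem_preimage, mem_Ioi] at hω
    have hs : 0 < √(m : ℝ) := by
      apply Real.sqrt_pos.mpr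
      exact_mod_cast hm1
    change √(m : ℝ) < ∑ j ∈ Finset.range m, X j ω
    rw [inv_mul_eq_div, lt_div_iff₀ hs, one_mul] at hω
    exact hω

theorem rw_walk : S_rw := by
  have : IsProbabilityMeasure poi1 := by
    unfold poi1
    infer_instance
  obtain ⟨μ, hμ⟩ : ∃ μ : Measure (ℕ → ℝ), μ = Measure.infinitePi fun _ : ℕ => poi1 := ⟨_, rfl⟩
  have : IsProbabilityMeasure μ := by
    rw [hμ]
    infer_instance
  obtain ⟨X, hX⟩ : ∃ X : ℕ → (ℕ → ℝ) → ℝ, X = fun j x => x j - 1 := ⟨_, rfl⟩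
  have hXm : ∀ i, Measurable (X i) := by
    intro i
    rw [hX]
    fun_prop
  have hind : iIndepFun X μ := by
    rw [hμ, hX]
    exact iIndepFun_infinitePi (P := fun _ : ℕ => poi1) (X := fun _ (y : ℝ) => y - 1)
      (fun i => by fun_prop)
  have hmp : ∀ i, MeasurePreserving (fun x : ℕ → ℝ => x i) μ poi1 := by
    intro i
    rw [hμ]
    exact measurePreserving_eval_infinitePi (fun _ : ℕ => poi1) i
  have hmap : ∀ i, Measure.map (X i) μ = Measure.map (fun y : ℝ => y - 1) poi1 := by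
    intro i
    rw [← (hmp i).map_eq, Measure.map_map (by fun_prop) (hmp i).measurable, hX]
    rfl
  have hid : ∀ i, IdentDistrib (X i) (X 0) μ μ := by
    intro i
    exact ⟨(hXm i).aemeasurable, (hXm 0).aemeasurable, by rw [hmap i, hmap 0]⟩
  have hXL : ∀ i, MemLp (X i) 2 μ := by
    intro i
    rw [hX]
    exact rw_memLp.comp_measurePreserving (hmp i)
  have h0 : ∀ i, ∫ ω, X i ω ∂μ = 0 := by
    intro i
    have h := integral_map (μ := μ) (φ := fun x : ℕ → ℝ => x i) (hmp i).measurable.aemeasurable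
      (f := fun y : ℝ => y - 1) (by fun_prop)
    rw [(hmp i).map_eq, rw_mean] at h
    rw [hX]
    exact h.symm
  have h1 : ∀ i, ∫ ω, X i ω ^ 2 ∂μ = 1 := by
    intro i
    have h := integral_map (μ := μ) (φ := fun x : ℕ → ℝ => x i) (hmp i).measurable.aemeasurable
      (f := fun y : ℝ => (y - 1) ^ 2) (by fun_prop)
    rw [(hmp i).map_eq, rw_sq] at h
    rw [hX]
    exact h.symm
  obtain ⟨p, hp, hev⟩ := rw_clt hXm hind hid (h0 0) (h1 0)
  refine ⟨(p / 2) ^ 2, p / 2, by positivity, by positivity, ?_⟩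
  obtain ⟨m₀, hm₀⟩ := eventually_atTop.mp hev
  refine ⟨max m₀ 1, ?_⟩
  intro m hm
  rw [← hμ]
  have hmm : m₀ ≤ m := (le_max_left _ _).trans hm
  have hm1 : 1 ≤ m := (le_max_right _ _).trans hm
  have hmpos : (0 : ℝ) < m := by exact_mod_cast hm1
  have hsm : 0 < √(m : ℝ) := Real.sqrt_pos.mpr hmpos
  obtain ⟨K, hK⟩ : ∃ K : ℕ, K = ⌊(p / 2) ^ 2 * (m : ℝ)⌋₊ := ⟨_, rfl⟩
  have hK2 : (K : ℝ) ≤ (p / 2 * √(m : ℝ)) ^ 2 := by
    rw [hK, mul_pow, Real.sq_sqrt hmpos.le]
    exact Nat.floor_le (by positivity)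
  have hmax := rw_max (P := μ) (g := fun j => X (m - 1 + j)) (fun i => (hXm _).stronglyMeasurable)
    (hind.precomp (g := fun j => m - 1 + j) (fun a b hab => by simpa using hab))
    (fun i => hXL _) (fun i => h0 _) (fun i => h1 _) K (p / 2 * √(m : ℝ)) (√(m : ℝ))
    (by positivity) hK2 hsm
  have hdiv : p / 2 * √(m : ℝ) / √(m : ℝ) = p / 2 := by
    field_simp
  rw [hdiv] at hmax
  have hA := hm₀ m hmm
  have hsub : {ω | √(m : ℝ) < ∑ j ∈ Finset.range m, X j ω} ⊆
      {x : ℕ → ℝ | ∀ n : ℕ, m ≤ n → (n : ℝ) ≤ (1 + (p / 2) ^ 2) * m →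
        0 ≤ ∑ j ∈ Finset.range n, (x j - 1)} ∪
      {ω | ∃ k ≤ K, ∑ j ∈ Finset.range k, X (m - 1 + (j + 1)) ω ≤ -√(m : ℝ)} := by
    intro x hx
    rw [mem_union]
    by_contra hcon
    push Not at hcon
    obtain ⟨h2, h3⟩ := hcon
    apply h2
    intro n hmn hn
    obtain ⟨k, rfl⟩ := Nat.exists_eq_add_of_le hmn
    have hkK : k ≤ K := by
      rw [hK]
      apply Nat.le_floor
      push_cast at hn
      nlinarith
    have h4 : -√(m : ℝ) < ∑ j ∈ Finset.range k, X (m - 1 + (j + 1)) x := by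
      by_contra h5
      push Not at h5
      exact h3 ⟨k, hkK, h5⟩
    have h6 : √(m : ℝ) < ∑ j ∈ Finset.range m, X j x := hx
    have h7 : ∑ j ∈ Finset.range (m + k), (x j - 1) = ∑ j ∈ Finset.range m, X j x +
        ∑ j ∈ Finset.range k, X (m - 1 + (j + 1)) x := by
      rw [Finset.sum_range_add, hX]
      congr 1
      refine Finset.sum_congr rfl fun j _ => ?_
      have : m - 1 + (j + 1) = m + j := by omega
      rw [this]
    rw [h7]
    linarith
  have hunion := (measure_mono hsub).trans (measure_union_le (μ := μ) _ _)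
  have htot : ENNReal.ofReal p ≤ μ {x : ℕ → ℝ | ∀ n : ℕ, m ≤ n →
      (n : ℝ) ≤ (1 + (p / 2) ^ 2) * m → 0 ≤ ∑ j ∈ Finset.range n, (x j - 1)} +
      ENNReal.ofReal (p / 2) :=
    (hA.trans hunion).trans (add_le_add le_rfl hmax)
  have hpp : ENNReal.ofReal p = ENNReal.ofReal (p / 2) + ENNReal.ofReal (p / 2) := by
    rw [← ENNReal.ofReal_add (by positivity) (by positivity)]
    congr 1
    ring
  rw [hpp] at htot
  exact (ENNReal.add_le_add_iff_right ENNReal.ofReal_ne_top).mp htot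

end Pool.Agent.H949.PM
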