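import Pool.Agent.H949.PM.Stmts

/-!
# The numbers of points of a planar Poisson process in the rings of area one
-/

set_option autoImplicit false

namespace Pool.Agent.H949.PM

open MeasureTheory ProbabilityTheory Set Filter Topology
open scoped ENNReal NNReal
open Pool.Agent.Helper712_LP

namespace RingsAux

/-- the radius of the disc of area `j` -/
noncomputable def rad (j : ℕ) : ℝ := √((j : ℝ) / Real.pi)

lemma rad_nonneg (j : ℕ) : 0 ≤ rad j := Real.sqrt_nonneg _

lemma rad_sq (j : ℕ) : Real.pi * rad j ^ 2 = j := by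
  unfold rad
  rw [Real.sq_sqrt (div_nonneg (Nat.cast_nonneg _) Real.pi_pos.le)]
  field_simp

lemma lt_iff (j : ℕ) (x : E 2) : Real.pi * ‖x‖ ^ 2 < j ↔ ‖x‖ < rad j := by
  rw [← rad_sq j, mul_lt_mul_iff_right₀ Real.pi_pos]
  exact sq_lt_sq₀ (norm_nonneg _) (rad_nonneg _)

lemma ring_eq (j : ℕ) : ring j = Metric.ball (0 : E 2) (rad (j + 1)) \ Metric.ball (0 : E 2) (rad j) := by
  ext x
  have h1 := lt_iff j x
  have h2 := lt_iff (j + 1) x
  push_cast at h2
  simp only [ring, Set.mem_ofPred_eq, Set.mem_sdiff, Metric.mem_ball, dist_zero_right]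
  rw [h2, ← not_lt, h1]
  tauto

lemma measurable_ring (j : ℕ) : MeasurableSet (ring j) := by
  rw [ring_eq]
  exact measurableSet_ball.diff measurableSet_ball

lemma vol_ball (j : ℕ) : volume (Metric.ball (0 : E 2) (rad j)) = (j : ℝ≥0∞) := by
  rw [EuclideanSpace.volume_ball_fin_two, ← ENNReal.ofReal_pow (rad_nonneg _),
    ← ENNReal.ofReal_mul (by positivity), mul_comm, rad_sq]
  exact ENNReal.ofReal_natCast j

lemma vol_ring (j : ℕ) : volume (ring j) = 1 := by
  rw [ring_eq, measure_sdiff _ measurableSet_ball.nullMeasurableSet, vol_ball, vol_ball]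
  · push_cast
    exact ENNReal.add_sub_cancel_left (ENNReal.natCast_ne_top j)
  · rw [vol_ball]
    exact ENNReal.natCast_ne_top j
  · apply Metric.ball_subset_ball
    unfold rad
    apply Real.sqrt_le_sqrt
    apply div_le_div_of_nonneg_right _ Real.pi_pos.le
    push_cast
    linarith

lemma disjoint_ring (i j : ℕ) (hij : i ≠ j) : Disjoint (ring i) (ring j) := by
  rw [Set.disjoint_left]
  rintro x ⟨h1, h2⟩ ⟨h3, h4⟩
  rcases lt_or_gt_of_ne hij with h | h
  · have : (i : ℝ) + 1 ≤ j := by exact_mod_cast h
    linarith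
  · have : (j : ℝ) + 1 ≤ i := by exact_mod_cast h
    linarith

lemma measurable_cnt {Ω Z : Type} [MeasurableSpace Ω] [MeasurableSpace Z] (z : ℕ → Ω → Z)
    (hz : ∀ i, Measurable (z i)) (A : Set Z) (hA : MeasurableSet A) : Measurable (cnt z A) := by
  unfold cnt
  apply Measurable.ennreal_tsum
  intro n
  exact (measurable_const.indicator hA).comp (hz n)

end RingsAux

open RingsAux in
theorem rings : S_rings := by
  intro Ω _ P _ z hz
  have hm : ∀ j, Measurable (cnt z (ring j)) := fun j =>
    measurable_cnt z hz.measurable _ (measurable_ring j)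
  have hlaw : ∀ j, P.map (cnt z (ring j)) =
      (poissonMeasure 1).map (fun n : ℕ => (n : ℝ≥0∞)) := by
    intro j
    have h := hz.law (ring j) (measurable_ring j) (by rw [vol_ring]; exact ENNReal.one_ne_top)
    rw [vol_ring] at h
    exact h
  have hm' : ∀ j, Measurable fun ω => (cnt z (ring j) ω).toReal := fun j =>
    ENNReal.measurable_toReal.comp (hm j)
  refine ⟨hm', ?_, ?_⟩
  · rw [ae_all_iff]
    intro j
    rw [ae_iff]
    have h1 : {a | ¬ cnt z (ring j) a ≠ ∞} = cnt z (ring j) ⁻¹' {∞} := by
      ext ω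
      simp
    rw [h1, ← Measure.map_apply (hm j) (measurableSet_singleton _), hlaw j,
      Measure.map_apply (measurable_from_nat) (measurableSet_singleton _)]
    have h2 : (fun n : ℕ => (n : ℝ≥0∞)) ⁻¹' {∞} = ∅ := by
      ext n
      simp
    rw [h2, measure_empty]
  · have hind : iIndepFun (fun j => cnt z (ring j)) P := by
      rw [iIndepFun_iff_finset]
      intro s
      have h := hz.indep s (fun j => ring j) (fun j => measurable_ring j)
        (fun j => by rw [vol_ring]; exact ENNReal.one_ne_top)
        (fun i j hij => disjoint_ring i j (fun h => hij (Subtype.ext h)))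
      exact h
    have hind' : iIndepFun (fun j ω => (cnt z (ring j) ω).toReal) P :=
      hind.comp (fun _ => ENNReal.toReal) (fun _ => ENNReal.measurable_toReal)
    rw [hind'.map_fun_eq_infinitePi_map hm']
    refine congrArg _ ?_
    funext j
    have h1 : (fun ω => (cnt z (ring j) ω).toReal) = ENNReal.toReal ∘ (cnt z (ring j)) := rfl
    rw [h1, ← Measure.map_map ENNReal.measurable_toReal (hm j), hlaw j,
      Measure.map_map ENNReal.measurable_toReal measurable_from_nat]
    unfold poi1
    rfl

end Pool.Agent.H949.PM
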