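import Pool.Agent.H949.PM.Stmts

/-!
# Displacement: at every time the particles form a Poisson process

Paper proof of `stationary`. Let `h : IsSystem P 1 X Y` and `t ≥ 0`.

(a) `m ↦ walk m t` is measurable: `arrival m k` is measurable in `m`;
`{m | jumps m t = n}` is measurable because `sInf` of a set of naturals defined by measurable
conditions is measurable (`{m | sInf {k | t < arrival m k} ≤ n}` in terms of finitely many `k`, and the
case that the set is empty); `walk m t = ∑_{j < n} m.2 j` on `{jumps m t = n}`
(`measurable_find`-like lemmas, or `Measurable.ite`/`measurable_to_nat`, `measurable_from_top` and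
countable gluing).

(b) `S_marking` gives that `(X i, Y i)` is a Poisson process on `E 2 × Mark` with intensity
`volume.prod walkLaw` (`walkLaw` is a probability measure: `isProbabilityMeasure_expMeasure`, product
measures).

(c) If `z` is a Poisson process (`IsPPP P μ z`) and `g` is measurable, then `g ∘ z` is a Poisson process
with intensity `μ.map g` (`cnt (g ∘ z) A = cnt z (g ⁻¹' A)`), directly from the definition.

(d) With `g (x, m) = x + walk m t`, `(volume.prod W).map g = volume`: for measurable `A`,
`(volume.prod W) (g ⁻¹' A) = ∫ volume {x | x + walk m t ∈ A} dW(m) = volume A` by translation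
invariance (`Measure.prod_apply_symm`, `measure_preimage_add_right`).
-/

set_option autoImplicit false

namespace Pool.Agent.H949.PM

open MeasureTheory ProbabilityTheory Set Filter Topology
open scoped ENNReal NNReal
open Pool.Agent.Helper712_LP

instance : IsProbabilityMeasure walkLaw := by
  haveI : IsProbabilityMeasure (expMeasure 1) := isProbabilityMeasure_expMeasure one_pos
  unfold walkLaw
  infer_instance

theorem measurable_arrival (k : ℕ) : Measurable (fun m : Mark => arrival m k) := by
  unfold arrival
  exact Finset.measurable_sum _ fun j _ => (measurable_pi_apply j).comp measurable_fst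

theorem jumps_eq_iff (m : Mark) (t : ℝ≥0) (n : ℕ) : jumps m t = n ↔
    ((t : ℝ) < arrival m n ∧ ∀ k < n, ¬ (t : ℝ) < arrival m k) ∨
      (n = 0 ∧ ∀ k, ¬ (t : ℝ) < arrival m k) := by
  classical
  unfold jumps
  by_cases he : ∃ k, (t : ℝ) < arrival m k
  · have hne : {k | (t : ℝ) < arrival m k}.Nonempty := he
    constructor
    · intro h
      left
      subst h
      exact ⟨Nat.sInf_mem hne, fun k hk h1 => Nat.notMem_of_lt_sInf hk h1⟩
    · rintro (⟨h1, h2⟩ | ⟨-, h2⟩)
      · apply le_antisymm (Nat.sInf_le h1)
        by_contra hlt
        exact h2 _ (not_le.1 hlt) (Nat.sInf_mem hne)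
      · obtain ⟨k, hk⟩ := he
        exact absurd hk (h2 k)
  · push Not at he
    have hem : {k | (t : ℝ) < arrival m k} = ∅ := by
      ext k
      simp only [mem_setOf_eq, mem_empty_iff_false, iff_false, not_lt]
      exact he k
    rw [hem, Nat.sInf_empty]
    constructor
    · intro h
      right
      exact ⟨h.symm, fun k => not_lt.2 (he k)⟩
    · rintro (⟨h1, h2⟩ | ⟨h1, -⟩)
      · exact absurd h1 (not_lt.2 (he n))
      · exact h1.symm

theorem measurable_jumps (t : ℝ≥0) : Measurable (fun m : Mark => jumps m t) := by
  have hlt : ∀ k, MeasurableSet {m : Mark | (t : ℝ) < arrival m k} := fun k =>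
    measurableSet_lt measurable_const (measurable_arrival k)
  apply measurable_to_countable'
  intro n
  have h1 : (fun m : Mark => jumps m t) ⁻¹' {n} =
      ({m : Mark | (t : ℝ) < arrival m n} ∩ ⋂ k ∈ {k | k < n}, {m : Mark | (t : ℝ) < arrival m k}ᶜ) ∪
      ({_m : Mark | n = 0} ∩ ⋂ k, {m : Mark | (t : ℝ) < arrival m k}ᶜ) := by
    ext m
    simp only [mem_preimage, mem_singleton_iff, mem_union, mem_inter_iff, mem_setOf_eq,
      mem_iInter, mem_compl_iff]
    exact jumps_eq_iff m t n
  rw [h1]
  refine MeasurableSet.union ((hlt n).inter ?_) (MeasurableSet.inter (MeasurableSet.const _) ?_)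
  · exact MeasurableSet.biInter (to_countable _) fun k _ => (hlt k).compl
  · exact MeasurableSet.iInter fun k => (hlt k).compl

theorem measurable_walk (t : ℝ≥0) : Measurable (fun m : Mark => walk m t) := by
  have h1 : Measurable (fun q : Mark × ℕ => ∑ j ∈ Finset.range q.2, q.1.2 j) := by
    apply measurable_from_prod_countable_left
    intro n
    show Measurable (fun m : Mark => ∑ j ∈ Finset.range n, m.2 j)
    exact Finset.measurable_sum _ fun j _ => (measurable_pi_apply j).comp measurable_snd
  exact h1.comp (measurable_id.prodMk (measurable_jumps t))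

theorem IsPPP.map {Ω Z Z' : Type} [MeasurableSpace Ω] [MeasurableSpace Z] [MeasurableSpace Z']
    {P : Measure Ω} {μ : Measure Z} {z : ℕ → Ω → Z} (h : IsPPP P μ z) {g : Z → Z'}
    (hg : Measurable g) : IsPPP P (μ.map g) (fun i ω => g (z i ω)) := by
  have hc : ∀ A : Set Z', cnt (fun i ω => g (z i ω)) A = cnt z (g ⁻¹' A) := by
    intro A
    funext ω
    unfold cnt
    exact tsum_congr fun n => by
      by_cases h1 : g (z n ω) ∈ A
      · rw [indicator_of_mem h1, indicator_of_mem (show z n ω ∈ g ⁻¹' A from h1)]
      · rw [indicator_of_notMem h1, indicator_of_notMem (show z n ω ∉ g ⁻¹' A from h1)]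
  refine ⟨fun i => hg.comp (h.measurable i), ?_, ?_⟩
  · intro A hA hμ
    rw [Measure.map_apply hg hA] at hμ ⊢
    rw [hc A]
    exact h.law _ (hg hA) hμ
  · intro ι _ A hA hμ hd
    have h1 := h.indep ι (fun i => g ⁻¹' A i) (fun i => hg (hA i))
      (fun i => by
        have h2 := hμ i
        rwa [Measure.map_apply hg (hA i)] at h2)
      (fun i j hij => Disjoint.preimage g (hd hij))
    simp only [hc]
    exact h1

theorem map_shift (t : ℝ≥0) : ((volume : Measure (E 2)).prod walkLaw).map
    (fun q : E 2 × Mark => q.1 + walk q.2 t) = volume := by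
  have hg : Measurable (fun q : E 2 × Mark => q.1 + walk q.2 t) :=
    measurable_fst.add ((measurable_walk t).comp measurable_snd)
  ext A hA
  rw [Measure.map_apply hg hA, Measure.prod_apply_symm (hg hA)]
  have h1 : ∀ m : Mark, (volume : Measure (E 2)) ((fun x => (x, m)) ⁻¹'
      ((fun q : E 2 × Mark => q.1 + walk q.2 t) ⁻¹' A)) = volume A := by
    intro m
    exact measure_preimage_add_right volume (walk m t) A
  simp only [h1]
  rw [lintegral_const, measure_univ, mul_one]

theorem stationary (hmark : S_marking) : S_stationary := by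
  intro Ω _ P _ X Y hs t
  have hg : Measurable (fun q : E 2 × Mark => q.1 + walk q.2 t) :=
    measurable_fst.add ((measurable_walk t).comp measurable_snd)
  have h1 := hmark 2 Ω P X hs.points Mark Y walkLaw hs.measurable hs.law hs.indep hs.indep_points
  have h2 := IsPPP.map h1 hg
  rw [map_shift t] at h2
  exact h2

end Pool.Agent.H949.PM
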