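import Pool.Agent.H949.PM.Defs
import Pool.Graph.R_pool_sql_team_seeded_620a6dc7.Helper56_LP.Marked

/-!
# The Pool model: statements of the independent parts
-/

set_option autoImplicit false

namespace Pool.Agent.H949.PM

open MeasureTheory ProbabilityTheory Set Filter Topology
open scoped ENNReal NNReal
open Pool.Agent.Helper712_LP

/-- The number of indices `n` for which `z n ω` lies in `A`. -/
noncomputable def cnt {Ω Z : Type} (z : ℕ → Ω → Z) (A : Set Z) (ω : Ω) : ℝ≥0∞ :=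
  ∑' n, A.indicator (fun _ => (1 : ℝ≥0∞)) (z n ω)

/-- `z 0, z 1, …` enumerates a Poisson process on `Z` with intensity measure `μ`. -/
structure IsPPP {Ω Z : Type} [MeasurableSpace Ω] [MeasurableSpace Z] (P : Measure Ω)
    (μ : Measure Z) (z : ℕ → Ω → Z) : Prop where
  measurable : ∀ i, Measurable (z i)
  law : ∀ A : Set Z, MeasurableSet A → μ A ≠ ∞ → P.map (cnt z A) =
    (poissonMeasure (μ A).toNNReal).map (fun n : ℕ => (n : ℝ≥0∞))
  indep : ∀ (ι : Type) [Finite ι] (A : ι → Set Z), (∀ i, MeasurableSet (A i)) →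
    (∀ i, μ (A i) ≠ ∞) → Pairwise (Function.onFun Disjoint A) → iIndepFun (fun i => cnt z (A i)) P

/-- The marking theorem. -/
def S_marking : Prop := ∀ (d : ℕ) (Ω : Type) [MeasurableSpace Ω] (P : Measure Ω)
  [IsProbabilityMeasure P] (x : ℕ → Ω → E d), IsPoissonProcess P 1 x →
  ∀ (M : Type) [MeasurableSpace M] (Y : ℕ → Ω → M) (W : Measure M) [IsProbabilityMeasure W],
  (∀ i, Measurable (Y i)) → (∀ i, P.map (Y i) = W) → iIndepFun Y P →
  IndepFun (fun ω i => x i ω) (fun ω i => Y i ω) P →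
  IsPPP P ((volume : Measure (E d)).prod W) (fun i ω => (x i ω, Y i ω))

/-- The law of a Poisson variable with mean one, on the real line. -/
noncomputable def poi1 : Measure ℝ := (poissonMeasure 1).map (fun n : ℕ => (n : ℝ))

/-- The centred random walk with Poisson steps is nonnegative during a time interval
`[m, (1 + κ) m]` with a probability which is bounded away from `0`. -/
def S_rw : Prop := ∃ κ p : ℝ, 0 < κ ∧ 0 < p ∧ ∃ m₀ : ℕ, ∀ m : ℕ, m₀ ≤ m →
  ENNReal.ofReal p ≤ (Measure.infinitePi fun _ : ℕ => poi1)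
    {x | ∀ n : ℕ, m ≤ n → (n : ℝ) ≤ (1 + κ) * m → 0 ≤ ∑ j ∈ Finset.range n, (x j - 1)}

/-- The ring number `j`, of area one. -/
def ring (j : ℕ) : Set (E 2) := {x | (j : ℝ) ≤ Real.pi * ‖x‖ ^ 2 ∧ Real.pi * ‖x‖ ^ 2 < j + 1}

/-- The numbers of particles in the rings, for a Poisson process of intensity one in the plane. -/
def S_rings : Prop := ∀ (Ω : Type) [MeasurableSpace Ω] (P : Measure Ω) [IsProbabilityMeasure P]
  (z : ℕ → Ω → E 2), IsPPP P volume z →
  (∀ j, Measurable fun ω => (cnt z (ring j) ω).toReal) ∧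
  (∀ᵐ ω ∂P, ∀ j, cnt z (ring j) ω ≠ ∞) ∧
  P.map (fun ω j => (cnt z (ring j) ω).toReal) = Measure.infinitePi fun _ : ℕ => poi1

/-- At every time the particles form a Poisson process of intensity one. -/
def S_stationary : Prop := ∀ (Ω : Type) [MeasurableSpace Ω] (P : Measure Ω)
  [IsProbabilityMeasure P] (X : ℕ → Ω → E 2) (Y : ℕ → Ω → Mark), IsSystem P 1 X Y → ∀ t : ℝ≥0,
  IsPPP P volume (fun i ω => X i ω + walk (Y i ω) t)

/-- Two particles which are outside of a disc before the time `b` do not enter the disc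
simultaneously at time `b`. -/
def NoDouble (ρ : ℕ → ℝ≥0 → ℝ) : Prop := ∀ (a b : ℝ≥0) (r : ℝ≥0∞) (i j : ℕ), a < b →
  (∀ s, a ≤ s → s < b → r < ENNReal.ofReal (ρ i s)) →
  (∀ s, a ≤ s → s < b → r < ENNReal.ofReal (ρ j s)) →
  ENNReal.ofReal (ρ i b) ≤ r → ENNReal.ofReal (ρ j b) ≤ r → i = j

/-- The walks of different particles do not jump at the same time, and the walks make finitely many
jumps in finite time. -/
def S_jumps : Prop := ∀ (Ω : Type) [MeasurableSpace Ω] (P : Measure Ω) [IsProbabilityMeasure P]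
  (X : ℕ → Ω → E 2) (Y : ℕ → Ω → Mark), IsSystem P 1 X Y →
  ∀ᵐ ω ∂P, (∀ i j, i ≠ j → ∀ k l, arrival (Y i ω) k ≠ arrival (Y j ω) l) ∧
    ∀ i (t : ℝ), ∃ k, t < arrival (Y i ω) k

/-- The deterministic part for the random walks. -/
def S_noDouble : Prop := ∀ (x : ℕ → E 2) (m : ℕ → Mark),
  (∀ i j, i ≠ j → ∀ k l, arrival (m i) k ≠ arrival (m j) l) →
  (∀ i (t : ℝ), ∃ k, t < arrival (m i) k) →
  NoDouble (fun i t => ‖x i + walk (m i) t‖)

/-- The number of particles in the disc at time `t` is at most its area minus one. -/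
def S_det : Prop := ∀ ρ : ℕ → ℝ≥0 → ℝ, NoDouble ρ → ∀ t : ℝ≥0, poolRadius ρ t ≠ ∞ →
  ({i | ENNReal.ofReal (ρ i t) ≤ poolRadius ρ t}.encard : ℝ≥0∞) + 1 ≤
    ENNReal.ofReal Real.pi * poolRadius ρ t ^ 2

end Pool.Agent.H949.PM
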